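import Pool.Agent.EVS.Defs

/-!
# Project EVS, module Alg: the polynomials `Ze l = (1 + X 0 X 1)^l` and `Ue l U ε = U - ε Ze l`

Coefficients, degrees and values of `Ze l`; `Dx`, `Dy`, `Vf`, `fn` of `P - ε Q`; `Dy` preserves `Spin l`; the differential
equation of `f - ε Z` in logarithmic coordinates (`pde_Ue`): with `m = X 0 X 1` and `Z = Ze l`, `(1 + m) Dx Z = 2 l m Z` and
`2 m Dx Z + (1 + m) Dx (Dx Z) = 4 l m Z + 2 l m Dx Z`, `Dy Z = 0`.
-/

set_option autoImplicit false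

namespace Pool.Agent.EVS

open MvPolynomial Pool.Agent.SHB Pool.Agent.OVL

private theorem Alg_succ (l : ℕ) : Ze (l + 1) = Ze l + X 0 * (X 1 * Ze l) := by
  unfold Ze
  ring

theorem coeff_Ze (l i j : ℕ) : coeff (ex i j) (Ze l) = if i = j then (l.choose i : ℂ) else 0 := by
  induction l generalizing i j with
  | zero =>
    unfold Ze
    rw [pow_zero, coeff_one]
    by_cases h : i = j
    · subst h
      rcases Nat.eq_zero_or_pos i with h0 | h0
      · subst h0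
        rw [if_pos ex_00.symm, if_pos rfl]
        simp
      · have h1 : ¬ (0 : Fin 2 →₀ ℕ) = ex i i := by
          rw [← ex_00, ex_inj]
          omega
        rw [if_neg h1, if_pos rfl, Nat.choose_eq_zero_of_lt h0, Nat.cast_zero]
    · have h1 : ¬ (0 : Fin 2 →₀ ℕ) = ex i j := by
        rw [← ex_00, ex_inj]
        omega
      rw [if_neg h1, if_neg h]
  | succ l ih =>
    rw [Alg_succ, coeff_add, ih]
    rcases i with _ | i
    · rw [coeff_X0_mul_zero, add_zero]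
      simp
    · rw [coeff_X0_mul]
      rcases j with _ | j
      · rw [coeff_X1_mul_zero, add_zero]
        simp
      · rw [coeff_X1_mul, ih]
        by_cases h : i = j
        · subst h
          rw [if_pos rfl, if_pos rfl, if_pos rfl, Nat.choose_succ_succ]
          push_cast
          ring
        · have h1 : ¬ i + 1 = j + 1 := by omega
          rw [if_neg h, if_neg h1, if_neg h1, add_zero]

theorem realP_Ze (l : ℕ) : RealP (Ze l) := by
  intro i j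
  rw [coeff_Ze, coeff_Ze]
  by_cases h : i = j
  · subst h
    rw [if_pos rfl, Complex.conj_natCast]
  · rw [if_neg h, if_neg (Ne.symm h), map_zero]

theorem deg_Ze (l : ℕ) : degreeOf 0 (Ze l) ≤ l ∧ degreeOf 1 (Ze l) ≤ l := by
  rw [deg0_le_iff, deg1_le_iff]
  constructor
  · intro i j hi
    rw [coeff_Ze]
    split_ifs with h
    · rw [Nat.choose_eq_zero_of_lt hi, Nat.cast_zero]
    · rfl
  · intro i j hi
    rw [coeff_Ze]
    split_ifs with h
    · rw [h, Nat.choose_eq_zero_of_lt hi, Nat.cast_zero]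
    · rfl

theorem Dy_Ze (l : ℕ) : Dy (Ze l) = 0 := by
  apply ext_coeff
  intro i j
  rw [coeff_Dy, coeff_Ze, coeff_zero]
  split_ifs with h
  · rw [h, sub_self, mul_zero, zero_mul]
  · rw [mul_zero]

theorem Vf_Ze (l : ℕ) (w : ℂ) : Vf (Ze l) w = (1 + ‖w‖ ^ 2) ^ l := by
  unfold Vf Ze
  rw [map_pow, map_add, map_one, map_mul, eval_X, eval_X]
  have h1 : (![w, (starRingEnd ℂ) w] : Fin 2 → ℂ) 0 * (![w, (starRingEnd ℂ) w] : Fin 2 → ℂ) 1 =
      ((‖w‖ ^ 2 : ℝ) : ℂ) := by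
    rw [Matrix.cons_val_zero, Matrix.cons_val_one, Matrix.cons_val_zero, Complex.mul_conj, Complex.normSq_eq_norm_sq]
  rw [h1]
  have h2 : (1 + ((‖w‖ ^ 2 : ℝ) : ℂ)) ^ l = (((1 + ‖w‖ ^ 2) ^ l : ℝ) : ℂ) := by
    push_cast
    ring
  rw [h2, Complex.ofReal_re]

theorem Dx_lin (P Q : P2) (ε : ℝ) : Dx (P - C (ε : ℂ) * Q) = Dx P - C (ε : ℂ) * Dx Q := by
  apply ext_coeff
  intro i j
  rw [coeff_Dx, coeff_sub, coeff_sub, coeff_C_mul, coeff_C_mul, coeff_Dx, coeff_Dx]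
  ring

theorem Dy_lin (P Q : P2) (ε : ℝ) : Dy (P - C (ε : ℂ) * Q) = Dy P - C (ε : ℂ) * Dy Q := by
  apply ext_coeff
  intro i j
  rw [coeff_Dy, coeff_sub, coeff_sub, coeff_C_mul, coeff_C_mul, coeff_Dy, coeff_Dy]
  ring

theorem Vf_lin (P Q : P2) (ε : ℝ) (w : ℂ) : Vf (P - C (ε : ℂ) * Q) w = Vf P w - ε * Vf Q w := by
  unfold Vf
  rw [map_sub, map_mul, eval_C, Complex.sub_re, Complex.re_ofReal_mul]

theorem fn_lin (P Q : P2) (ε : ℝ) : fn (P - C (ε : ℂ) * Q) = fun z => fn P z - ε * fn Q z := by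
  funext z
  unfold fn
  exact Vf_lin P Q ε (E z)

theorem spin_Dy {l : ℕ} {U : P2} (hU : Spin l U) : Spin l (Dy U) where
  deg0 := (deg_Dy hU.deg0 hU.deg1).1
  deg1 := (deg_Dy hU.deg0 hU.deg1).2
  pde := by
    rw [← sub_eq_zero]
    apply ext_coeff
    intro i j
    rw [add_mul, one_mul, coeff_sub, coeff_add, coeff_pderiv01, coeff_XX_pderiv01, coeff_C_mul,
      coeff_sub, coeff_add, coeff_X0_pderiv, coeff_X1_pderiv, coeff_C_mul, coeff_Dy, coeff_Dy, coeff_zero]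
    have h := hU.rec_coeff i j
    push_cast
    linear_combination (Complex.I * ((i : ℂ) - j)) * h

/-- the coefficient of `f_x` in the equation -/
noncomputable def cc (l : ℕ) (z : ℝ × ℝ) : ℝ := 4 * l * ‖E z‖ ^ 2 / (1 + ‖E z‖ ^ 2)

/-- the inhomogeneous term of the equation -/
noncomputable def kk (l : ℕ) (z : ℝ × ℝ) : ℝ :=
  4 * l * (l + 1) * ‖E z‖ ^ 2 * (1 + ‖E z‖ ^ 2) ^ l / (1 + ‖E z‖ ^ 2) ^ 2

private theorem Alg_E_cont : Continuous E := by
  unfold E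
  exact Complex.continuous_exp.comp ((Complex.continuous_ofReal.comp continuous_fst).add
    ((Complex.continuous_ofReal.comp continuous_snd).mul continuous_const))

private theorem Alg_r_cont : Continuous fun z : ℝ × ℝ => ‖E z‖ ^ 2 := Alg_E_cont.norm.pow 2

private theorem Alg_pos (z : ℝ × ℝ) : 0 < 1 + ‖E z‖ ^ 2 := by positivity

theorem cc_cont (l : ℕ) : Continuous (cc l) := by
  unfold cc
  exact (continuous_const.mul Alg_r_cont).div (continuous_const.add Alg_r_cont) fun z => (Alg_pos z).ne'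

theorem kk_cont (l : ℕ) : Continuous (kk l) := by
  unfold kk
  exact ((continuous_const.mul Alg_r_cont).mul ((continuous_const.add Alg_r_cont).pow l)).div
    ((continuous_const.add Alg_r_cont).pow 2) fun z => (pow_pos (Alg_pos z) 2).ne'

theorem kk_nonneg (l : ℕ) (z : ℝ × ℝ) : 0 ≤ kk l z := by
  unfold kk
  positivity

private theorem Alg_Dx_mul (P Q : P2) : Dx (P * Q) = Dx P * Q + P * Dx Q := by
  unfold Dx
  rw [pderiv_mul, pderiv_mul]
  ring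

private theorem Alg_Dx_m : Dx (X 0 * X 1) = C 2 * (X 0 * X 1) := by
  apply ext_coeff
  intro i j
  rw [coeff_Dx, coeff_C_mul]
  rcases i with _ | i
  · rw [coeff_X0_mul_zero, mul_zero, mul_zero]
  · rw [coeff_X0_mul]
    rcases j with _ | j
    · have h1 : coeff (ex i 0) (X 1 : P2) = 0 := by
        have h2 := coeff_X1_mul_zero i (1 : P2)
        rwa [mul_one] at h2
      rw [h1, mul_zero, mul_zero]
    · have h1 : coeff (ex i (j + 1)) (X 1 : P2) = coeff (ex i j) (1 : P2) := by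
        have h2 := coeff_X1_mul i j (1 : P2)
        rwa [mul_one] at h2
      rw [h1, coeff_one]
      by_cases h3 : (0 : Fin 2 →₀ ℕ) = ex i j
      · rw [if_pos h3]
        rw [← ex_00, ex_inj] at h3
        rw [← h3.1, ← h3.2]
        norm_num
      · rw [if_neg h3, mul_zero, mul_zero]

private theorem Alg_Dx_m1 : Dx (1 + X 0 * X 1) = C 2 * (X 0 * X 1) := by
  have h1 : Dx (1 + X 0 * X 1 : P2) = Dx 1 + Dx (X 0 * X 1) := by
    unfold Dx
    rw [map_add, map_add]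
    ring
  have h2 : Dx (1 : P2) = 0 := by
    unfold Dx
    simp
  rw [h1, h2, zero_add, Alg_Dx_m]

private theorem Alg_Z1 (l : ℕ) : (1 + X 0 * X 1) * Dx (Ze l) = C (2 * l : ℂ) * (X 0 * X 1) * Ze l := by
  induction l with
  | zero =>
    have h2 : Dx (1 : P2) = 0 := by
      unfold Dx
      simp
    unfold Ze
    rw [pow_zero, h2]
    simp
  | succ l ih =>
    have h1 : Ze (l + 1) = (1 + X 0 * X 1) * Ze l := by
      unfold Ze
      ring
    rw [h1, Alg_Dx_mul, Alg_Dx_m1]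
    have h2 : (C (2 * ((l + 1 : ℕ) : ℂ)) : P2) = C (2 * l : ℂ) + C 2 := by
      rw [← C_add]
      congr 1
      push_cast
      ring
    rw [h2]
    linear_combination (1 + X 0 * X 1 : P2) * ih

private theorem Alg_Z2 (l : ℕ) : C 2 * (X 0 * X 1) * Dx (Ze l) + (1 + X 0 * X 1) * Dx (Dx (Ze l)) =
    C (2 * l : ℂ) * (C 2 * (X 0 * X 1) * Ze l + X 0 * X 1 * Dx (Ze l)) := by
  have h1 := congrArg Dx (Alg_Z1 l)
  rw [Alg_Dx_mul, Alg_Dx_m1, mul_assoc (C (2 * l : ℂ)), Alg_Dx_mul (C (2 * l : ℂ)), Alg_Dx_mul (X 0 * X 1), Alg_Dx_m] at h1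
  have h2 : Dx (C (2 * l : ℂ) : P2) = 0 := by
    unfold Dx
    simp
  rw [h2, zero_mul, zero_add] at h1
  exact h1

private theorem Alg_eval (P : P2) (z : ℝ × ℝ) : fn P z = (eval ![E z, (starRingEnd ℂ) (E z)] P).re := rfl

private theorem Alg_fn_rmul (P : P2) (a b : ℝ) (z : ℝ × ℝ) :
    ((((a : ℝ) : ℂ) + ((b : ℝ) : ℂ)) * eval ![E z, (starRingEnd ℂ) (E z)] P).re = (a + b) * fn P z := by
  rw [← Complex.ofReal_add, Complex.re_ofReal_mul]
  rfl

private theorem Alg_m (z : ℝ × ℝ) : eval ![E z, (starRingEnd ℂ) (E z)] (X 0 * X 1 : P2) = ((‖E z‖ ^ 2 : ℝ) : ℂ) := by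
  rw [map_mul, eval_X, eval_X, Matrix.cons_val_zero, Matrix.cons_val_one, Matrix.cons_val_zero, Complex.mul_conj,
    Complex.normSq_eq_norm_sq]

private theorem Alg_m' (z : ℝ × ℝ) : eval ![E z, (starRingEnd ℂ) (E z)] (X 0 : P2) *
    eval ![E z, (starRingEnd ℂ) (E z)] (X 1 : P2) = ((‖E z‖ ^ 2 : ℝ) : ℂ) := by
  rw [← map_mul, Alg_m]

private theorem Alg_key {l : ℕ} {U : P2} (hU : Spin l U) : (1 + X 0 * X 1) * (Dx (Dx U) + Dy (Dy U)) =
      C 4 * (X 0 * X 1) * (C (l : ℂ) * (Dx U - C (l : ℂ) * U)) := by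
  have h1 : Dx (Dx U) + Dy (Dy U) = C 4 * (X 0 * X 1) * pderiv 0 (pderiv 1 U) := by
    apply ext_coeff
    intro i j
    have h2 : (C 4 * (X 0 * X 1) * pderiv 0 (pderiv 1 U) : P2) =
        C 4 * (X 0 * X 1 * pderiv 0 (pderiv 1 U)) := by ring
    rw [h2, coeff_C_mul, coeff_XX_pderiv01, coeff_add, coeff_Dx, coeff_Dx, coeff_Dy, coeff_Dy]
    have hI : Complex.I ^ 2 = -1 := Complex.I_sq
    linear_combination ((i : ℂ) - j) ^ 2 * coeff (ex i j) U * hI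
  have h3 := hU.pde
  rw [h1]
  have h4 : Dx U = X 0 * pderiv 0 U + X 1 * pderiv 1 U := rfl
  rw [h4]
  linear_combination (C 4 * (X 0 * X 1) : P2) * h3

/-- from an identity of polynomials to an identity of functions -/
private theorem Alg_tr (a b c : ℝ) (P Q : P2) (z : ℝ × ℝ)
    (h : (1 + X 0 * X 1) * P = (C (a : ℂ) + C (b : ℂ) * (X 0 * X 1)) * Q + C (c : ℂ) * (X 0 * X 1) * P) :
    (1 + ‖E z‖ ^ 2) * fn P z = (a + b * ‖E z‖ ^ 2) * fn Q z + c * ‖E z‖ ^ 2 * fn P z := by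
  have h5 := congrArg (eval ![E z, (starRingEnd ℂ) (E z)]) h
  simp only [map_mul, map_add, map_one, eval_C] at h5
  simp only [Alg_m'] at h5
  have h6 := congrArg Complex.re h5
  have e1 : (1 + ((‖E z‖ ^ 2 : ℝ) : ℂ)) = ((1 + ‖E z‖ ^ 2 : ℝ) : ℂ) := by push_cast; ring
  have e2 : (a : ℂ) + (b : ℂ) * ((‖E z‖ ^ 2 : ℝ) : ℂ) = ((a + b * ‖E z‖ ^ 2 : ℝ) : ℂ) := by push_cast; ring
  have e3 : (c : ℂ) * ((‖E z‖ ^ 2 : ℝ) : ℂ) = ((c * ‖E z‖ ^ 2 : ℝ) : ℂ) := by push_cast; ring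
  rw [e1, e2, e3, Complex.add_re, Complex.re_ofReal_mul, Complex.re_ofReal_mul, Complex.re_ofReal_mul] at h6
  exact h6

theorem pde_Ue {l : ℕ} {U : P2} (hU : Spin l U) (ε : ℝ) (z : ℝ × ℝ)
    (hz : fn U z - ε * fn (Ze l) z = 0) :
    (fn (Dx (Dx U)) z - ε * fn (Dx (Dx (Ze l))) z) +
        (fn (Dy (Dy U)) z - ε * fn (Dy (Dy (Ze l))) z) =
      cc l z * (fn (Dx U) z - ε * fn (Dx (Ze l)) z) - ε * kk l z := by
  have hr := Alg_pos z
  have hS : fn (Ze l) z = (1 + ‖E z‖ ^ 2) ^ l := by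
    unfold fn
    exact Vf_Ze l (E z)
  have hY : fn (Dy (Dy (Ze l))) z = 0 := by
    rw [Dy_Ze]
    have h1 : Dy (0 : P2) = 0 := by
      unfold Dy rotW
      simp
    rw [h1, Alg_eval, map_zero, Complex.zero_re]
  have h1 : (1 + ‖E z‖ ^ 2) * (fn (Dx (Dx U)) z + fn (Dy (Dy U)) z) =
      4 * ‖E z‖ ^ 2 * (l * (fn (Dx U) z - l * fn U z)) := by
    have h2 := congrArg (eval ![E z, (starRingEnd ℂ) (E z)]) (Alg_key hU)
    simp only [map_mul, map_add, map_sub, map_one, eval_C] at h2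
    simp only [Alg_m'] at h2
    have h3 := congrArg Complex.re h2
    have e1 : (1 + ((‖E z‖ ^ 2 : ℝ) : ℂ)) = ((1 + ‖E z‖ ^ 2 : ℝ) : ℂ) := by push_cast; ring
    have e2 : (4 * ((‖E z‖ ^ 2 : ℝ) : ℂ) * ((l : ℂ) * (eval ![E z, (starRingEnd ℂ) (E z)] (Dx U) -
        (l : ℂ) * eval ![E z, (starRingEnd ℂ) (E z)] U))) =
        ((4 * ‖E z‖ ^ 2 * l : ℝ) : ℂ) * (eval ![E z, (starRingEnd ℂ) (E z)] (Dx U) -
        ((l : ℝ) : ℂ) * eval ![E z, (starRingEnd ℂ) (E z)] U) := by push_cast; ring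
    rw [e1, e2, Complex.re_ofReal_mul, Complex.re_ofReal_mul, Complex.sub_re, Complex.re_ofReal_mul, Complex.add_re,
      ← Alg_eval, ← Alg_eval, ← Alg_eval, ← Alg_eval] at h3
    rw [h3]
    ring
  have h2 : (1 + ‖E z‖ ^ 2) * fn (Dx (Ze l)) z = 2 * l * ‖E z‖ ^ 2 * fn (Ze l) z := by
    have h3 := Alg_tr 0 (2 * l) 0 (Dx (Ze l)) (Ze l) z (by
      rw [Alg_Z1]
      push_cast
      rw [C_0]
      ring)
    rw [h3]
    ring
  have h3 : 2 * ‖E z‖ ^ 2 * fn (Dx (Ze l)) z + (1 + ‖E z‖ ^ 2) * fn (Dx (Dx (Ze l))) z =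
      2 * l * (2 * ‖E z‖ ^ 2 * fn (Ze l) z + ‖E z‖ ^ 2 * fn (Dx (Ze l)) z) := by
    have h4 := congrArg (eval ![E z, (starRingEnd ℂ) (E z)]) (Alg_Z2 l)
    simp only [map_mul, map_add, map_one, eval_C] at h4
    simp only [Alg_m'] at h4
    have h5 := congrArg Complex.re h4
    have e1 : (2 : ℂ) * ((‖E z‖ ^ 2 : ℝ) : ℂ) = ((2 * ‖E z‖ ^ 2 : ℝ) : ℂ) := by push_cast; ring
    have e2 : (1 + ((‖E z‖ ^ 2 : ℝ) : ℂ)) = ((1 + ‖E z‖ ^ 2 : ℝ) : ℂ) := by push_cast; ring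
    have e3 : (2 : ℂ) * (l : ℂ) = ((2 * l : ℝ) : ℂ) := by push_cast; ring
    rw [e1, e2, e3, Complex.add_re, Complex.re_ofReal_mul, Complex.re_ofReal_mul, Complex.re_ofReal_mul, Complex.add_re,
      Complex.re_ofReal_mul, Complex.re_ofReal_mul, ← Alg_eval, ← Alg_eval, ← Alg_eval] at h5
    exact h5
  have hf : fn U z = ε * fn (Ze l) z := by linarith
  rw [hY]
  unfold cc kk
  rw [← hS]
  rw [hf] at h1
  obtain ⟨ρ, hρ⟩ : ∃ ρ, ρ = ‖E z‖ ^ 2 := ⟨_, rfl⟩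
  rw [← hρ] at h1 h2 h3 hr ⊢
  have hρ1 : (1 + ρ) ≠ 0 := hr.ne'
  have g1 : fn (Dx (Dx U)) z + fn (Dy (Dy U)) z =
      4 * ρ * (l * (fn (Dx U) z - l * (ε * fn (Ze l) z))) / (1 + ρ) := by
    rw [eq_div_iff hρ1]
    linear_combination h1
  have g2 : fn (Dx (Ze l)) z = 2 * l * ρ * fn (Ze l) z / (1 + ρ) := by
    rw [eq_div_iff hρ1]
    linear_combination h2
  have g3 : fn (Dx (Dx (Ze l))) z = (2 * l * (2 * ρ * fn (Ze l) z + ρ * fn (Dx (Ze l)) z) -
      2 * ρ * fn (Dx (Ze l)) z) / (1 + ρ) := by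
    rw [eq_div_iff hρ1]
    linear_combination h3
  have g4 : fn (Dx (Dx U)) z - ε * fn (Dx (Dx (Ze l))) z + (fn (Dy (Dy U)) z - ε * 0) =
      (fn (Dx (Dx U)) z + fn (Dy (Dy U)) z) - ε * fn (Dx (Dx (Ze l))) z := by ring
  rw [g4, g1, g3, g2]
  field_simp
  ring

end Pool.Agent.EVS
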