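import Pool.Agent.EVS.Alg

/-!
# Project EVS, module BzW: few common zeros

`zeros_cardW`: the theorem of Bezout on the plane for an admissible `W`.  `pertW`: a small multiple of `Dy W` added to `Dy (Dy W)`
gives a polynomial without common factor with `W`.  `adm_Ue`: the polynomials `Ue l U ε`, `ε > 0` small, are admissible.
-/

set_option autoImplicit false

namespace Pool.Agent.EVS

open MvPolynomial Pool.Agent.SHB Pool.Agent.OVL

theorem zeros_cardW {l : ℕ} {W : P2} (h : Adm l W) (Q : P2) (hQ0 : degreeOf 0 Q ≤ l)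
    (hQ1 : degreeOf 1 Q ≤ l) (hQR : RealP Q) (hrel : IsRelPrime W Q) (S : Finset ℂ)
    (hS : ∀ w ∈ S, Vf W w = 0 ∧ Vf Q w = 0) : S.card ≤ 2 * l ^ 2 := by
  classical
  have hinj : Function.Injective (fun w : ℂ => (w, (starRingEnd ℂ) w)) := by
    intro w w' h
    exact congrArg Prod.fst h
  have hd0 : degreeOf 0 W = l := by
    refine le_antisymm h.deg0 ?_
    by_contra hlt
    exact h.cll (coeff_eq_zero_of_deg0 le_rfl (not_le.1 hlt))
  have hd1 : degreeOf 1 W = l := by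
    refine le_antisymm h.deg1 ?_
    by_contra hlt
    exact h.cll (coeff_eq_zero_of_deg1 le_rfl (not_le.1 hlt))
  have h1 := bezout l W Q hd0 hd1 hQ0 hQ1 hrel
    (S.image fun w => (w, (starRingEnd ℂ) w)) (fun _ => 1) (fun _ => 1) (by
      intro s hs
      obtain ⟨w, hw, rfl⟩ := Finset.mem_image.1 hs
      rw [pow_one, mem_ptI_iff]
      exact real_eval h.real w (hS w hw).1) (by
      intro s hs
      obtain ⟨w, hw, rfl⟩ := Finset.mem_image.1 hs
      rw [pow_one, mem_ptI_iff]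
      exact real_eval hQR w (hS w hw).2)
  rw [Finset.sum_const, Finset.card_image_of_injective _ hinj] at h1
  simpa using h1

theorem pertW {l : ℕ} {W : P2} (h : Adm l W) (ε0 : ℝ) (hε : 0 < ε0) :
    ∃ ε : ℝ, 0 < ε ∧ ε < ε0 ∧ ∀ S : Finset ℂ,
      (∀ w ∈ S, Vf W w = 0 ∧ Vf (Dy (Dy W)) w + ε * Vf (Dy W) w = 0) → S.card ≤ 2 * l ^ 2 := by
  have hU0 : W ≠ 0 := by
    rintro rfl
    exact h.c00 (coeff_zero _)
  have hfin := coprime_perturb W (Dy (Dy W)) (Dy W) hU0 h.rel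
  obtain ⟨ε, hε1, hε2⟩ := ((Set.Ioo_infinite hε).sdiff hfin).nonempty
  refine ⟨ε, hε1.1, hε1.2, ?_⟩
  intro S hS
  have hrel : IsRelPrime W (Dy (Dy W) + C (ε : ℂ) * Dy W) := by
    by_contra hcon
    exact hε2 hcon
  have hd1 := deg_Dy h.deg0 h.deg1
  have hd2 := deg_Dy hd1.1 hd1.2
  have hdeg : ∀ k : Fin 2, degreeOf k (Dy (Dy W)) ≤ l → degreeOf k (Dy W) ≤ l →
      degreeOf k (Dy (Dy W) + C (ε : ℂ) * Dy W) ≤ l := by
    intro k h2 h3
    refine (degreeOf_add_le _ _ _).trans (max_le h2 ?_)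
    exact (degreeOf_C_mul_le _ _ _).trans h3
  have hR1 := realP_Dy h.real
  have hR2 := realP_Dy hR1
  refine zeros_cardW h (Dy (Dy W) + C (ε : ℂ) * Dy W) (hdeg 0 hd2.1 hd1.1)
    (hdeg 1 hd2.2 hd1.2) ?_ hrel S ?_
  · intro i j
    rw [coeff_add, coeff_add, coeff_C_mul, coeff_C_mul, map_add, map_mul, hR2 i j, hR1 i j,
      Complex.conj_ofReal]
  · intro w hw
    refine ⟨(hS w hw).1, ?_⟩
    rw [← (hS w hw).2]
    unfold Vf
    simp

private theorem BzW_coeff (l : ℕ) (U : P2) (ε : ℝ) (i j : ℕ) :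
    coeff (ex i j) (Ue l U ε) = coeff (ex i j) U - ε * (if i = j then (l.choose i : ℂ) else 0) := by
  rw [Ue, coeff_sub, coeff_C_mul, coeff_Ze]

private theorem BzW_norm {c : ℂ} {ε : ℝ} (h : 0 < ε) (h' : ε < ‖c‖) : c - (ε : ℂ) ≠ 0 := by
  intro h1
  have h2 : c = (ε : ℂ) := sub_eq_zero.1 h1
  rw [h2, Complex.norm_real, Real.norm_eq_abs, abs_of_pos h] at h'
  exact lt_irrefl _ h'

private theorem BzW_rel {l : ℕ} {U : P2} (hU : Spin l U) (h : Dy U ≠ 0) : IsRelPrime (Dy U) (-(Ze l)) := by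
  have h1 := (spin_Dy hU).not_dvd_one_add h
  have h2 : IsRelPrime (1 + X 0 * X 1 : P2) (Dy U) := (irreducible_one_add.isRelPrime_iff_not_dvd).2 h1
  unfold Ze
  exact (h2.symm.pow_right).neg_right

theorem adm_Ue {l : ℕ} {U : P2} (hU : Spin l U) (hR : RealP U)
    (h0 : coeff (ex 0 0) U ≠ 0) (h1 : coeff (ex 1 0) U ≠ 0) :
    ∃ ε1 : ℝ, 0 < ε1 ∧ ∀ ε : ℝ, 0 < ε → ε < ε1 → Adm l (Ue l U ε) := by
  have hD : Dy U ≠ 0 := by
    intro h2
    have h3 := coeff_Dy 1 0 U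
    rw [h2, coeff_zero] at h3
    apply h1
    have h4 : Complex.I * (((1 : ℕ) : ℂ) - ((0 : ℕ) : ℂ)) ≠ 0 := by
      rw [Nat.cast_one, Nat.cast_zero, sub_zero, mul_one]
      exact Complex.I_ne_zero
    exact (mul_eq_zero.1 h3.symm).resolve_left h4
  have hfin := coprime_perturb (Dy U) U (-(Ze l)) hD (BzW_rel hU hD)
  have hop := ((hfin.subset (Set.sdiff_subset (t := {0}))).isClosed).isOpen_compl
  obtain ⟨δ, hδ, hball⟩ := Metric.isOpen_iff.1 hop 0 (fun h2 => h2.2 rfl)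
  refine ⟨min δ ‖coeff (ex 0 0) U‖, lt_min hδ (norm_pos_iff.2 h0), fun ε he he1 => ?_⟩
  have he2 : ε < δ := he1.trans_le (min_le_left _ _)
  have he3 : ε < ‖coeff (ex 0 0) U‖ := he1.trans_le (min_le_right _ _)
  have hDU : Dy (Ue l U ε) = Dy U := by
    rw [Ue, Dy_lin, Dy_Ze, mul_zero, sub_zero]
  have hrel : IsRelPrime (Dy U) (U + C (ε : ℂ) * -(Ze l)) := by
    by_contra hcon
    have h2 : ε ∈ Metric.ball (0 : ℝ) δ := by
      rw [Metric.mem_ball, Real.dist_eq, sub_zero, abs_of_pos he]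
      exact he2
    exact hball h2 ⟨hcon, fun h3 => he.ne' h3⟩
  refine ⟨?_, ?_, ?_, ?_, ?_, ?_⟩
  · intro i j
    rw [BzW_coeff, BzW_coeff, map_sub, map_mul, hR i j, Complex.conj_ofReal]
    congr 2
    by_cases hij : i = j
    · subst hij
      simp
    · rw [if_neg hij, if_neg (Ne.symm hij), map_zero]
  · rw [deg0_le_iff]
    intro i j hi
    rw [BzW_coeff, coeff_eq_zero_of_deg0 hU.deg0 hi, Nat.choose_eq_zero_of_lt hi]
    simp
  · rw [deg1_le_iff]
    intro i j hj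
    rw [BzW_coeff, coeff_eq_zero_of_deg1 hU.deg1 hj]
    by_cases hij : i = j
    · subst hij
      rw [Nat.choose_eq_zero_of_lt hj]
      simp
    · rw [if_neg hij, mul_zero, sub_zero]
  · rw [BzW_coeff, if_pos rfl, Nat.choose_zero_right, Nat.cast_one, mul_one]
    exact BzW_norm he he3
  · rw [BzW_coeff, if_pos rfl, Nat.choose_self, Nat.cast_one, mul_one]
    refine BzW_norm he ?_
    rw [hU.coeff_top, norm_mul, norm_pow, norm_neg, norm_one, one_pow, one_mul]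
    exact he3
  · rw [hDU]
    have h2 : Ue l U ε = U + C (ε : ℂ) * -(Ze l) := by
      rw [Ue]
      ring
    rw [h2]
    exact hrel.symm

end Pool.Agent.EVS
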