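import Pool.Agent.EVS.BzW

/-!
# Project EVS, module CylW: the structure `Cyl0` for an admissible polynomial; zeros on a line

As `Pool/Agent/OVL/CylU.lean`, for an admissible polynomial instead of a spherical harmonic.
-/

set_option autoImplicit false

namespace Pool.Agent.EVS

open MvPolynomial Pool.Agent.SHB Pool.Agent.OVL

private lemma CylW_re00 {U : P2} (hR : RealP U) (h0 : coeff (ex 0 0) U ≠ 0) :
    (coeff (ex 0 0) U).re ≠ 0 := by
  intro h
  apply h0
  have h1 := hR 0 0
  rw [Complex.conj_eq_iff_im] at h1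
  exact Complex.ext h h1

private noncomputable def CylW_poly (U : P2) (l : ℕ) (c : ℂ) : Polynomial ℝ :=
  ∑ i ∈ Finset.range (l + 1), ∑ j ∈ Finset.range (l + 1),
    Polynomial.C (coeff (ex i j) U * c ^ i * ((starRingEnd ℂ) c) ^ j).re * Polynomial.X ^ (i + j)

private lemma CylW_poly_eval {l : ℕ} {U : P2} (h0 : degreeOf 0 U ≤ l) (h1 : degreeOf 1 U ≤ l) (c : ℂ)
    (t : ℝ) : (CylW_poly U l c).eval t = Vf U ((t : ℂ) * c) := by
  rw [Vf, eval_eq_sum h0 h1, CylW_poly, Polynomial.eval_finsetSum, Complex.re_sum]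
  refine Finset.sum_congr rfl fun i _ => ?_
  rw [Polynomial.eval_finsetSum, Complex.re_sum]
  refine Finset.sum_congr rfl fun j _ => ?_
  rw [Polynomial.eval_mul, Polynomial.eval_C, Polynomial.eval_pow, Polynomial.eval_X]
  rw [map_mul, Complex.conj_ofReal]
  have e : coeff (ex i j) U * ((t : ℂ) * c) ^ i * ((t : ℂ) * (starRingEnd ℂ) c) ^ j =
      ((t ^ (i + j) : ℝ) : ℂ) * (coeff (ex i j) U * c ^ i * ((starRingEnd ℂ) c) ^ j) := by
    push_cast
    ring
  rw [e, Complex.re_ofReal_mul]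
  ring

private lemma CylW_poly_coeff_zero (U : P2) (l : ℕ) (c : ℂ) :
    (CylW_poly U l c).coeff 0 = (coeff (ex 0 0) U).re := by
  rw [CylW_poly, Polynomial.finsetSum_coeff]
  rw [Finset.sum_eq_single 0]
  · rw [Polynomial.finsetSum_coeff, Finset.sum_eq_single 0]
    · simp
    · intro j _ hj
      rw [Polynomial.coeff_C_mul_X_pow, if_neg (by omega)]
    · intro h; simp at h
  · intro i _ hi
    rw [Polynomial.finsetSum_coeff]
    refine Finset.sum_eq_zero fun j _ => ?_
    rw [Polynomial.coeff_C_mul_X_pow, if_neg (by omega)]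
  · intro h; simp at h

private lemma CylW_poly_deg (U : P2) (l : ℕ) (c : ℂ) : (CylW_poly U l c).natDegree ≤ 2 * l := by
  refine Polynomial.natDegree_sum_le_of_forall_le _ _ fun i hi => ?_
  refine Polynomial.natDegree_sum_le_of_forall_le _ _ fun j hj => ?_
  rw [Finset.mem_range] at hi hj
  exact (Polynomial.natDegree_C_mul_X_pow_le _ _).trans (by omega)

theorem line_cardW {l : ℕ} {W : P2} (h : Adm l W) (c : ℂ) (S : Finset ℝ)
    (hS : ∀ t ∈ S, Vf W ((t : ℂ) * c) = 0) : S.card ≤ 2 * l := by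
  have hp : CylW_poly W l c ≠ 0 := by
    intro hh
    have h1 := CylW_poly_coeff_zero W l c
    rw [hh, Polynomial.coeff_zero] at h1
    exact CylW_re00 h.real h.c00 h1.symm
  refine le_trans ?_ (CylW_poly_deg W l c)
  refine le_trans ?_ (Polynomial.card_roots' _)
  refine le_trans ?_ (Multiset.toFinset_card_le _)
  refine Finset.card_le_card fun t ht => ?_
  rw [Multiset.mem_toFinset, Polynomial.mem_roots hp, Polynomial.IsRoot,
    CylW_poly_eval h.deg0 h.deg1]
  exact hS t ht

private lemma CylW_normE (z : ℝ × ℝ) : ‖E z‖ = Real.exp z.1 := by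
  rw [E, Complex.norm_exp]
  simp

private lemma CylW_E (x y : ℝ) : E (x, y) = ((Real.exp x : ℝ) : ℂ) * Complex.exp (y * Complex.I) := by
  rw [E, Complex.exp_add, Complex.ofReal_exp]

private lemma CylW_cont_E : Continuous E := by
  unfold E
  fun_prop

private lemma CylW_ray {l : ℕ} {U : P2} (h : Adm l U) (a b y : ℝ) (hab : a < b) :
    ∃ x ∈ Set.Ioo a b, fn U (x, y) ≠ 0 := by
  by_contra hcon
  push Not at hcon
  obtain ⟨T, hT1, hT2⟩ := (Set.Ioo_infinite hab).exists_subset_card_eq (2 * l + 1)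
  have h1 := line_cardW h (Complex.exp (y * Complex.I)) (T.image Real.exp) (by
    intro t ht
    obtain ⟨x, hx, rfl⟩ := Finset.mem_image.1 ht
    have := hcon x (hT1 hx)
    rw [fn, CylW_E] at this
    exact this)
  rw [Finset.card_image_of_injective _ Real.exp_injective, hT2] at h1
  omega

private lemma CylW_E_inj {a b x : ℝ} (hab : b - a ≤ 2 * Real.pi) :
    Set.InjOn (fun y : ℝ => E (x, y)) (Set.Ioo a b) := by
  intro y hy y' hy' h
  simp only [E] at h
  rw [Complex.exp_eq_exp_iff_exists_int] at h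
  obtain ⟨n, hn⟩ := h
  have him := congrArg Complex.im hn
  simp at him
  have h2 : y - y' = n * (2 * Real.pi) := by linarith
  have hp := Real.pi_pos
  have h3 : |y - y'| < 2 * Real.pi := by
    rw [abs_lt]
    constructor <;> linarith [hy.1, hy.2, hy'.1, hy'.2]
  rw [h2, abs_mul, abs_of_pos (show 0 < 2 * Real.pi by positivity)] at h3
  have h4 : |(n : ℝ)| < 1 := by
    by_contra h
    have := mul_le_mul_of_nonneg_right (not_lt.1 h) (show 0 ≤ 2 * Real.pi by positivity)
    linarith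
  have h5 : n = 0 := by
    have : |n| < 1 := by exact_mod_cast h4
    exact Int.abs_lt_one_iff.1 this
  rw [h5] at h2
  simp at h2
  linarith

private lemma CylW_arc {l : ℕ} {U : P2} (h : Adm l U) (a b x : ℝ) (hab : a < b) :
    ∃ y ∈ Set.Ioo a b, fn U (x, y) ≠ 0 := by
  by_contra hcon
  push Not at hcon
  have hp := Real.pi_pos
  set b' : ℝ := min b (a + Real.pi) with hb'
  have hab' : a < b' := lt_min hab (by linarith)
  have hsub : Set.Ioo a b' ⊆ Set.Ioo a b := fun y hy => ⟨hy.1, hy.2.trans_le (min_le_left _ _)⟩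
  have hder : ∀ y ∈ Set.Ioo a b, fn (Dy U) (x, y) = 0 := by
    intro y hy
    have h2 : HasDerivAt (fun t : ℝ => fn U (x, t)) (fn (Dy U) (x, y)) y := by
      have h3 := (hasF U (x, y)).comp_hasDerivAt y
        ((hasDerivAt_const y x).prodMk (hasDerivAt_id y))
      have h4 : fn U ∘ Prod.mk x = fun t : ℝ => fn U (x, t) := rfl
      have h5 : (lin (fn (Dx U) (x, y)) (fn (Dy U) (x, y))) ((0 : ℝ), (1 : ℝ)) =
          fn (Dy U) (x, y) := by simp [lin]
      rw [h5] at h3
      exact h3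
    have h4 : HasDerivAt (fun t : ℝ => fn U (x, t)) 0 y := by
      refine (hasDerivAt_const y (0 : ℝ)).congr_of_eventuallyEq ?_
      filter_upwards [Ioo_mem_nhds hy.1 hy.2] with t ht
      exact hcon t ht
    exact h2.unique h4
  obtain ⟨T, hT1, hT2⟩ := (Set.Ioo_infinite hab').exists_subset_card_eq (2 * l ^ 2 + 1)
  have hdeg := deg_Dy h.deg0 h.deg1
  have hinj : Set.InjOn (fun y : ℝ => E (x, y)) (Set.Ioo a b') := by
    apply CylW_E_inj
    have := min_le_right b (a + Real.pi)
    linarith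
  have h2 := zeros_cardW h (Dy U) hdeg.1 hdeg.2 (realP_Dy h.real)
    h.rel (T.image fun y => E (x, y)) (by
      intro w hw
      obtain ⟨y, hy, rfl⟩ := Finset.mem_image.1 hw
      exact ⟨hcon y (hsub (hT1 hy)), hder y (hsub (hT1 hy))⟩)
  rw [Finset.card_image_of_injOn (hinj.mono hT1), hT2] at h2
  omega

theorem cylW {l : ℕ} {W : P2} (h : Adm l W) (R : ℝ) (hR : ∀ z, fn W z = 0 → |z.1| ≤ R) :
    Cyl0 (Vf W) (fn W) (fn (Dx W)) (fn (Dy W)) (fn (Dx (Dx W))) (fn (Dy (Dx W)))
      (fn (Dy (Dy W))) := by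
  have hV0 : Vf W 0 ≠ 0 := by
    have h2 := CylW_poly_eval h.deg0 h.deg1 0 0
    rw [← Polynomial.coeff_zero_eq_eval_zero, CylW_poly_coeff_zero] at h2
    rw [mul_zero] at h2
    rw [← h2]
    exact CylW_re00 h.real h.c00
  exact { toC2 := c2 W, V_cont := Vf_cont W, V_exp := fun z => rfl, V_zero := hV0,
          px := fn_per _, py := fn_per _, bdd := ⟨R, hR⟩,
          ray := CylW_ray h, arc := CylW_arc h }

end Pool.Agent.EVS
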