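import Pool.Agent.OVL.Cnt
import Pool.Agent.OVL.Gr
import Pool.Agent.OVL.RobM
import Pool.Agent.OVL.Side
import Pool.Agent.OVL.Bz

/-!
# Project EVS (MP_f77893_an), definitions

Components of `{u > 0}` and of `{u ≤ 0}` on the sphere, for every spherical harmonic `u` of degree `l ≥ 1`:
together at most `l (l + 1) / 2 + 1`. The level sets `{u = ε}`, `ε > 0` small, are smooth; in the plane of `Pool/Agent/SHB` they are
the zero sets of `Ue l U ε = U - ε (1 + X 0 X 1)^l`; on every closed curve of such a level set which does not separate the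
poles the function `∂_φ ∂_φ U` has at least four zeros.
-/

set_option autoImplicit false

namespace Pool.Agent.EVS

open MvPolynomial Pool.Agent.SHB Pool.Agent.OVL

/-- `(1 + X 0 X 1)^l`, on `(w, conj w)` it is `(1 + |w|^2)^l` -/
noncomputable def Ze (l : ℕ) : P2 := (1 + X 0 * X 1) ^ l

/-- `U - ε (1 + X 0 X 1)^l` -/
noncomputable def Ue (l : ℕ) (U : P2) (ε : ℝ) : P2 := U - C (ε : ℂ) * Ze l

/-- a polynomial of bidegree exactly `(l, l)`, real, with nonzero constant coefficient, without common factor with its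
rotational derivative -/
structure Adm (l : ℕ) (W : P2) : Prop where
  real : RealP W
  deg0 : degreeOf 0 W ≤ l
  deg1 : degreeOf 1 W ≤ l
  c00 : coeff (ex 0 0) W ≠ 0
  cll : coeff (ex l l) W ≠ 0
  rel : IsRelPrime W (Dy W)

/-- `Cyl` without the differential equation -/
structure Cyl0 (V : ℂ → ℝ) (f fx fy fxx fxy fyy : ℝ × ℝ → ℝ) : Prop extends
    C2 f fx fy fxx fxy fyy where
  V_cont : Continuous V
  V_exp : ∀ z, V (E z) = f z
  V_zero : V 0 ≠ 0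
  px : ∀ z : ℝ × ℝ, fx (z.1, z.2 + 2 * Real.pi) = fx z
  py : ∀ z : ℝ × ℝ, fy (z.1, z.2 + 2 * Real.pi) = fy z
  bdd : ∃ R : ℝ, ∀ z : ℝ × ℝ, f z = 0 → |z.1| ≤ R
  ray : ∀ a b y : ℝ, a < b → ∃ x ∈ Set.Ioo a b, f (x, y) ≠ 0
  arc : ∀ a b x : ℝ, a < b → ∃ y ∈ Set.Ioo a b, f (x, y) ≠ 0

/-- on a trajectory in the zero set, with the point `w` of extreme `y` (minimal `s y`, `s = ±1`), there is a point `w'`, reached
from `w` without a zero of `fy`, with the right sign of `fyy` -/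
def YPt (fy fyy : ℝ × ℝ → ℝ) (x y : ℝ → ℝ) (s w : ℝ) : Prop :=
  ∃ w' : ℝ, (∀ r ∈ Set.uIcc w w', fy (x r, y r) ≠ 0) ∧
    0 < s * (fy (x w, y w) * fyy (x w', y w'))

/-- `YPt` for all trajectories in the zero set -/
def YP (f fx fy fyy : ℝ × ℝ → ℝ) : Prop :=
  ∀ x y : ℝ → ℝ, Flow fx fy x y → (∀ t, f (x t, y t) = 0) →
    (∀ t, fx (x t, y t) ≠ 0 ∨ fy (x t, y t) ≠ 0) →
    ∀ s : ℝ, (s = 1 ∨ s = -1) → ∀ w : ℝ, (∀ t, s * y w ≤ s * y t) → YPt fy fyy x y s w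

/-- `YP` for the functions `f - ε g`, `ε > 0` small, and for `(x w, y w)` near `z0` -/
def LocY (f fx fy fyy g gx gy gyy : ℝ × ℝ → ℝ) (z0 : ℝ × ℝ) : Prop :=
  ∃ ρ : ℝ, 0 < ρ ∧ ∀ ε : ℝ, 0 < ε → ε < ρ → ∀ x y : ℝ → ℝ,
    Flow (fun z => fx z - ε * gx z) (fun z => fy z - ε * gy z) x y →
    (∀ t, f (x t, y t) - ε * g (x t, y t) = 0) →
    (∀ t, fx (x t, y t) - ε * gx (x t, y t) ≠ 0 ∨ fy (x t, y t) - ε * gy (x t, y t) ≠ 0) →
    ∀ s : ℝ, (s = 1 ∨ s = -1) → ∀ w : ℝ, |x w - z0.1| < ρ → |y w - z0.2| < ρ →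
    (∀ t, s * y w ≤ s * y t) →
    YPt (fun z => fy z - ε * gy z) (fun z => fyy z - ε * gyy z) x y s w

/-- all zeros of `f - ε g` near `z0` are regular -/
def LocR (f fx fy g gx gy : ℝ × ℝ → ℝ) (z0 : ℝ × ℝ) : Prop :=
  ∃ ρ : ℝ, 0 < ρ ∧ ∀ ε : ℝ, 0 < ε → ε < ρ → ∀ z : ℝ × ℝ, |z.1 - z0.1| < ρ → |z.2 - z0.2| < ρ →
    f z - ε * g z = 0 → fx z - ε * gx z ≠ 0 ∨ fy z - ε * gy z ≠ 0

/-- the zero `w0` of `U` of order `n ≥ 2` is in general position with respect to the axis: the meridian is not tangent to the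
zero set -/
def GenAt (U : P2) (w0 : ℂ) : Prop :=
  ∃ n : ℕ, 2 ≤ n ∧ U ∈ ptI w0 ((starRingEnd ℂ) w0) ^ n ∧
    (coeff (ex n 0) (shift w0 ((starRingEnd ℂ) w0) U) * w0 ^ n).re ≠ 0

/-- `P = α (X 0 - w0)^m + conj α (X 1 - conj w0)^m +` terms of higher order at `w0` -/
def Lead (P : P2) (w0 : ℂ) (m : ℕ) (α : ℂ) : Prop :=
  P - C α * (X 0 - C w0) ^ m - C ((starRingEnd ℂ) α) * (X 1 - C ((starRingEnd ℂ) w0)) ^ m ∈
    ptI w0 ((starRingEnd ℂ) w0) ^ (m + 1)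

/-- `x` and `y` are joined by a connected subset of `A` -/
def Jn {X : Type*} [TopologicalSpace X] (A : Set X) (x y : X) : Prop :=
  ∃ K ⊆ A, IsPreconnected K ∧ x ∈ K ∧ y ∈ K

/-- the unit sphere -/
def Sph : Set (Fin 3 → ℝ) := {x | ∑ i : Fin 3, x i ^ 2 = 1}

/-- the map from the plane to the sphere -/
noncomputable def gg (a w : ℂ) : Fin 3 → ℝ := ((1 + ‖a‖ ^ 2) * (1 + ‖w‖ ^ 2))⁻¹ • sphV a w

end Pool.Agent.EVS
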