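import Pool.Agent.EVS.Defs

/-!
# Project EVS, module Gnr: an axis in general position also for finitely many forms
-/

set_option autoImplicit false

namespace Pool.Agent.EVS

open MvPolynomial Pool.Agent.SHB Pool.Agent.OVL

private lemma Gnr_eval_aeval {σ : Type*} (x : Fin 2 → ℂ) (g : σ → P2) (u : MvPolynomial σ ℂ) :
    eval x (aeval g u) = eval (fun i => eval x (g i)) u := by
  have h := comp_aeval_apply (R := ℂ) (f := g) (aeval x : P2 →ₐ[ℂ] ℂ) u
  simpa only [aeval_eq_eval] using h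

/-- `u (P)` -/
private noncomputable def Gnr_QQ (u : MvPolynomial (Fin 3) ℂ) : P2 :=
  aeval (![X 0 + X 1, C Complex.I * (X 0 - X 1), 1 - X 0 * X 1] : Fin 3 → P2) u

private lemma Gnr_eval_QQ (u : MvPolynomial (Fin 3) ℂ) (a b : ℂ) :
    eval ![a, b] (Gnr_QQ u) = eval (frP a b) u := by
  rw [Gnr_QQ, Gnr_eval_aeval]
  have : (fun i => eval ![a, b] ((![X 0 + X 1, C Complex.I * (X 0 - X 1), 1 - X 0 * X 1] :
      Fin 3 → P2) i)) = frP a b := by
    funext i
    fin_cases i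
    · simp [frP]
    · simp [frP]
    · simp [frP]
  rw [this]

private lemma Gnr_coeff00 (U : P2) : coeff (ex 0 0) U = eval ![0, 0] U := by
  have h : (![0, 0] : Fin 2 → ℂ) = fun _ => 0 := by
    funext i
    fin_cases i <;> rfl
  rw [h, eval_zero', ex_00]
  rfl

private lemma Gnr_eval00_phi (a b : ℂ) :
    (fun i => eval ![0, 0] (phi a b i)) = frP a b := by
  funext i
  simp [phi]

private lemma Gnr_coeff00_UU (u : MvPolynomial (Fin 3) ℂ) (a b : ℂ) :
    coeff (ex 0 0) (UU u a b) = eval ![a, b] (Gnr_QQ u) := by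
  rw [Gnr_coeff00, UU, Gnr_eval_aeval, Gnr_eval00_phi, Gnr_eval_QQ]

/-- the Gnr_chain rule -/
private lemma Gnr_chain (D : Derivation ℂ P2 P2) (g : Fin 3 → P2) (u : MvPolynomial (Fin 3) ℂ) :
    D (aeval g u) = ∑ i, aeval g (pderiv i u) * D (g i) := by
  induction u using MvPolynomial.induction_on with
  | C c =>
    rw [aeval_C, Derivation.map_algebraMap]
    simp
  | add p q hp hq =>
    rw [map_add, map_add, hp, hq, ← Finset.sum_add_distrib]
    refine Finset.sum_congr rfl fun i _ => ?_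
    rw [map_add, map_add, add_mul]
  | mul_X p j hp =>
    rw [map_mul, aeval_X, Derivation.leibniz, hp]
    have h1 : ∀ i, aeval g (pderiv i (p * X j)) * D (g i) =
        g j * (aeval g (pderiv i p) * D (g i)) +
          (if i = j then aeval g p * D (g i) else 0) := by
      intro i
      rw [Derivation.leibniz, pderiv_X, map_add, smul_eq_mul, smul_eq_mul, map_mul, map_mul,
        aeval_X]
      by_cases h : i = j
      · subst h
        simp only [Pi.single_eq_same, map_one, if_true]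
        ring
      · have h2 : (Pi.single i (1 : MvPolynomial (Fin 3) ℂ) : Fin 3 → MvPolynomial (Fin 3) ℂ) j
            = 0 := Pi.single_eq_of_ne (Ne.symm h) _
        rw [h2, map_zero, if_neg h]
        ring
    rw [Finset.sum_congr rfl (fun i _ => h1 i), Finset.sum_add_distrib, ← Finset.mul_sum,
      Finset.sum_ite_eq' Finset.univ j]
    simp only [Finset.mem_univ, if_true, smul_eq_mul]
    ring

private noncomputable def Gnr_QQ1 (l : ℕ) (u : MvPolynomial (Fin 3) ℂ) : P2 :=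
  C (l : ℂ) * X 0 * Gnr_QQ u - (1 + X 0 * X 1) * pderiv 1 (Gnr_QQ u)

private lemma Gnr_coeff10_UU (l : ℕ) (u : MvPolynomial (Fin 3) ℂ) (hu : u.IsHomogeneous l) (a b : ℂ) :
    coeff (ex 1 0) (UU u a b) = eval ![a, b] (Gnr_QQ1 l u) := by
  have h1 : coeff (ex 1 0) (UU u a b) = eval ![0, 0] (pderiv 0 (UU u a b)) := by
    rw [← Gnr_coeff00, coeff_pderiv0]
    simp
  have h2 : eval ![0, 0] (pderiv 0 (UU u a b)) =
      ∑ i, eval (frP a b) (pderiv i u) * frA a i := by
    rw [UU, Gnr_chain, map_sum]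
    refine Finset.sum_congr rfl fun i _ => ?_
    rw [map_mul, Gnr_eval_aeval, Gnr_eval00_phi]
    congr 1
    simp [phi, pderiv_X]
  have h3 : eval ![a, b] (pderiv 1 (Gnr_QQ u)) =
      ∑ i, eval (frP a b) (pderiv i u) * (![1, -Complex.I, -a] : Fin 3 → ℂ) i := by
    rw [Gnr_QQ, Gnr_chain, map_sum]
    refine Finset.sum_congr rfl fun i _ => ?_
    have h4 : eval ![a, b] (aeval (![X 0 + X 1, C Complex.I * (X 0 - X 1), 1 - X 0 * X 1] :
        Fin 3 → P2) (pderiv i u)) = eval (frP a b) (pderiv i u) := Gnr_eval_QQ (pderiv i u) a b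
    rw [map_mul, h4]
    congr 1
    fin_cases i
    · simp [pderiv_X]
    · simp [pderiv_X]
    · simp [pderiv_X]
  have h5 : ∑ i, frP a b i * eval (frP a b) (pderiv i u) = (l : ℂ) * eval (frP a b) u := by
    have h6 := congrArg (eval (frP a b)) hu.sum_X_mul_pderiv
    rw [map_sum, map_nsmul, nsmul_eq_mul] at h6
    rw [← h6]
    refine Finset.sum_congr rfl fun i _ => ?_
    rw [map_mul, eval_X]
  rw [h1, h2, Gnr_QQ1, map_sub, map_mul, map_mul, map_mul, h3, Gnr_eval_QQ]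
  simp only [eval_C, eval_X, map_add, map_one, map_mul, Matrix.cons_val_zero, Matrix.cons_val_one]
  have h7 : (l : ℂ) * a * eval (frP a b) u = a * ((l : ℂ) * eval (frP a b) u) := by ring
  rw [h7, ← h5]
  simp only [Fin.sum_univ_three, frA, frP, Matrix.cons_val_zero, Matrix.cons_val_one,
    Matrix.cons_val_two, Matrix.tail_cons, Matrix.head_cons]
  ring

private noncomputable def Gnr_theta (U : P2) : P2 := aeval (![-X 1, -X 0] : Fin 2 → P2) U

private lemma Gnr_theta_monomial (d : Fin 2 →₀ ℕ) (c : ℂ) :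
    Gnr_theta (monomial d c) = monomial (ex (d 1) (d 0)) ((-1) ^ (d 0 + d 1) * c) := by
  rw [Gnr_theta, aeval_monomial, Finsupp.prod_fintype _ _ (fun i => pow_zero _), Fin.prod_univ_two]
  simp only [Matrix.cons_val_zero, Matrix.cons_val_one, algebraMap_eq]
  rw [neg_pow (X 1 : P2), neg_pow (X 0 : P2), X_pow_eq_monomial, X_pow_eq_monomial, single0, single1]
  have h1 : (monomial (ex (d 1) (d 0)) ((-1) ^ (d 0 + d 1) * c) : P2) =
      C ((-1) ^ (d 0 + d 1) * c) * (monomial (ex 0 (d 0)) 1 * monomial (ex (d 1) 0) 1) := by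
    rw [monomial_mul, ex_add, C_mul_monomial]
    simp
  rw [h1, C_mul, C_pow, C_neg, C_1, pow_add]
  ring

private lemma Gnr_coeff_theta (U : P2) (i j : ℕ) :
    coeff (ex i j) (Gnr_theta U) = (-1) ^ (i + j) * coeff (ex j i) U := by
  induction U using MvPolynomial.induction_on' with
  | monomial d c =>
    rw [Gnr_theta_monomial, coeff_monomial, coeff_monomial, ← ex_eta d]
    simp only [ex_zero_apply, ex_one_apply]
    by_cases h : ex (d 1) (d 0) = ex i j
    · obtain ⟨h0, h1⟩ := ex_inj.1 h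
      rw [if_pos h, if_pos (by rw [h0, h1]), h0, h1, add_comm j i]
    · rw [if_neg h, if_neg, mul_zero]
      intro h'
      obtain ⟨h0, h1⟩ := ex_inj.1 h'
      exact h (by rw [h0, h1])
  | add p q hp hq =>
    have h : Gnr_theta (p + q) = Gnr_theta p + Gnr_theta q := by rw [Gnr_theta, map_add]; rfl
    rw [h, coeff_add, coeff_add, hp, hq, mul_add]

private lemma Gnr_spin_theta {l : ℕ} {U : P2} (hU : Spin l U) : Spin l (Gnr_theta U) where
  deg0 := by
    rw [deg0_le_iff]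
    intro i j hi
    rw [Gnr_coeff_theta, coeff_eq_zero_of_deg1 hU.deg1 hi, mul_zero]
  deg1 := by
    rw [deg1_le_iff]
    intro i j hj
    rw [Gnr_coeff_theta, coeff_eq_zero_of_deg0 hU.deg0 hj, mul_zero]
  pde := by
    have key : ∀ (V : P2) (i j : ℕ), coeff (ex i j) ((1 + X 0 * X 1) * pderiv 0 (pderiv 1 V) -
        C (l : ℂ) * (X 0 * pderiv 0 V + X 1 * pderiv 1 V - C (l : ℂ) * V)) =
        ((i : ℂ) + 1) * ((j : ℂ) + 1) * coeff (ex (i + 1) (j + 1)) V
          + (i : ℂ) * j * coeff (ex i j) V - l * ((i : ℂ) * coeff (ex i j) V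
          + (j : ℂ) * coeff (ex i j) V - l * coeff (ex i j) V) := by
      intro V i j
      rw [add_mul, one_mul, coeff_sub, coeff_add, coeff_pderiv01, coeff_XX_pderiv01, coeff_C_mul,
        coeff_sub, coeff_add, coeff_X0_pderiv, coeff_X1_pderiv, coeff_C_mul]
    rw [← sub_eq_zero]
    apply ext_coeff
    intro i j
    rw [key, Gnr_coeff_theta, Gnr_coeff_theta, coeff_zero]
    have h1 := key U j i
    rw [sub_eq_zero.2 hU.pde, coeff_zero] at h1
    have h2 : ((-1 : ℂ)) ^ (i + 1 + (j + 1)) = (-1) ^ (i + j) := by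
      rw [show i + 1 + (j + 1) = i + j + 2 by ring, pow_add]
      norm_num
    rw [h2]
    linear_combination -((-1 : ℂ) ^ (i + j)) * h1

private lemma Gnr_QQ_eq_theta (u : MvPolynomial (Fin 3) ℂ) : Gnr_QQ u = Gnr_theta (UU u 0 0) := by
  rw [Gnr_theta, UU, comp_aeval_apply (R := ℂ) (f := phi 0 0)
    (aeval (![-X 1, -X 0] : Fin 2 → P2) : P2 →ₐ[ℂ] P2) u, Gnr_QQ]
  have h : (![X 0 + X 1, C Complex.I * (X 0 - X 1), 1 - X 0 * X 1] : Fin 3 → P2) =
      fun i => aeval (![-X 1, -X 0] : Fin 2 → P2) (phi 0 0 i) := by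
    funext i
    fin_cases i
    · simp [phi, frA, frB, frP]
      ring
    · simp [phi, frA, frB, frP]
      ring
    · simp [phi, frA, frB, frP]
      ring
  rw [h]

private lemma Gnr_eval_smul_hom {u : MvPolynomial (Fin 3) ℝ} {l : ℕ} (hu : u.IsHomogeneous l)
    (c : ℝ) (x : Fin 3 → ℝ) : eval (fun i => c * x i) u = c ^ l * eval x u := by
  rw [eval_eq', eval_eq', Finset.mul_sum]
  refine Finset.sum_congr rfl fun d hd => ?_
  have h1 : ∑ i, d i = l := by
    have h2 := hu (mem_support_iff.1 hd)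
    rw [Finsupp.weight_apply, Finsupp.sum_fintype _ _ (fun i => by simp)] at h2
    simpa using h2
  simp only [mul_pow]
  rw [Finset.prod_mul_distrib, Finset.prod_pow_eq_pow_sum, h1]
  ring

private lemma Gnr_QQ_ne_zero {u : MvPolynomial (Fin 3) ℝ} {l : ℕ} (hu : u.IsHomogeneous l)
    (h : u ≠ 0) : Gnr_QQ (cx u) ≠ 0 := by
  intro h0
  apply h
  apply funext_set (fun _ : Fin 3 => Set.Ioi (0 : ℝ)) (fun _ => Set.Ioi_infinite 0)
  intro x hx
  have hx2 : 0 < x 2 := hx 2 (Set.mem_univ _)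
  rw [map_zero]
  set r : ℝ := Real.sqrt (x 0 ^ 2 + x 1 ^ 2 + x 2 ^ 2) with hr
  have hr2 : r ^ 2 = x 0 ^ 2 + x 1 ^ 2 + x 2 ^ 2 := Real.sq_sqrt (by positivity)
  have hr0 : 0 ≤ r := Real.sqrt_nonneg _
  have hs : 0 < r + x 2 := by linarith
  set a : ℂ := ((x 0 / (r + x 2) : ℝ) : ℂ) - Complex.I * ((x 1 / (r + x 2) : ℝ) : ℂ) with ha
  have hP : frP a ((starRingEnd ℂ) a) = fun i => (((2 / (r + x 2)) * x i : ℝ) : ℂ) := by
    have hc : (starRingEnd ℂ) a =
        ((x 0 / (r + x 2) : ℝ) : ℂ) + Complex.I * ((x 1 / (r + x 2) : ℝ) : ℂ) := by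
      simp [ha, Complex.conj_ofReal]
    rw [hc, ha]
    funext i
    fin_cases i
    · simp only [frP, Fin.zero_eta, Matrix.cons_val_zero]
      push_cast
      ring
    · simp only [frP, Fin.mk_one, Matrix.cons_val_one, Matrix.cons_val_zero]
      push_cast
      linear_combination (-2 * ((x 1 : ℂ) / ((r : ℂ) + (x 2 : ℂ)))) * Complex.I_mul_I
    · simp only [frP, Fin.reduceFinMk, Matrix.cons_val]
      have h3 : (1 : ℝ) - ((x 0 / (r + x 2)) ^ 2 + (x 1 / (r + x 2)) ^ 2) =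
          2 / (r + x 2) * x 2 := by
        field_simp
        nlinarith [hr2]
      rw [← h3]
      push_cast
      linear_combination (((x 1 : ℂ) / ((r : ℂ) + (x 2 : ℂ))) ^ 2) * Complex.I_mul_I
  have h1 : eval (frP a ((starRingEnd ℂ) a)) (cx u) = 0 := by
    rw [← Gnr_eval_QQ, h0, map_zero]
  have h2 : eval (fun i => (((2 / (r + x 2)) * x i : ℝ) : ℂ)) (cx u) =
      ((eval (fun i => (2 / (r + x 2)) * x i) u : ℝ) : ℂ) := by
    rw [cx, eval_map]
    exact (eval₂_comp (Complex.ofRealHom) (fun i => (2 / (r + x 2)) * x i) u).symm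
  rw [hP, h2, Gnr_eval_smul_hom hu] at h1
  have h3 : (2 / (r + x 2)) ^ l * eval x u = 0 := by exact_mod_cast h1
  rcases mul_eq_zero.1 h3 with h4 | h4
  · exact absurd h4 (by positivity)
  · exact h4

private lemma Gnr_QQ1_ne_zero {u : MvPolynomial (Fin 3) ℂ} {l : ℕ} (hl : 1 ≤ l)
    (hS : Spin l (Gnr_QQ u)) (h : Gnr_QQ u ≠ 0) : Gnr_QQ1 l u ≠ 0 := by
  intro h0
  apply h
  have hc0 : ∀ j, coeff (ex 0 (j + 1)) (Gnr_QQ u) = 0 := by
    intro j
    have h1 := congrArg (coeff (ex 0 j)) h0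
    rw [Gnr_QQ1, add_mul, one_mul, coeff_sub, coeff_add, mul_assoc (C (l : ℂ)), coeff_C_mul,
      coeff_X0_mul_zero, coeff_pderiv1, mul_assoc (X 0 : P2), coeff_X0_mul_zero, coeff_zero] at h1
    have h2 : ((j : ℂ) + 1) * coeff (ex 0 (j + 1)) (Gnr_QQ u) = 0 := by linear_combination -h1
    rcases mul_eq_zero.1 h2 with h3 | h3
    · exact absurd h3 (by exact_mod_cast Nat.succ_ne_zero j)
    · exact h3
  have hc1 : ∀ i, coeff (ex i 0) (Gnr_QQ u) = 0 := by
    intro i
    have h1 := congrArg (coeff (ex (i + 1) 0)) h0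
    rw [Gnr_QQ1, add_mul, one_mul, coeff_sub, coeff_add, mul_assoc (C (l : ℂ)), coeff_C_mul,
      coeff_X0_mul, coeff_pderiv1, mul_assoc (X 0 : P2), coeff_X0_mul, coeff_X1_pderiv,
      coeff_zero] at h1
    have h2 := hS.rec_coeff i 0
    simp only [Nat.cast_zero, zero_add, zero_mul, add_zero, one_mul, mul_one, sub_zero] at h1 h2
    have hl' : (l : ℂ) ≠ 0 := by exact_mod_cast (show l ≠ 0 by omega)
    have hl1 : (l : ℂ) + 1 ≠ 0 := by exact_mod_cast Nat.succ_ne_zero l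
    have h3 : (l : ℂ) * (((l : ℂ) + 1) * coeff (ex i 0) (Gnr_QQ u)) = 0 := by
      linear_combination ((i : ℂ) + 1) * h1 + h2
    rcases mul_eq_zero.1 h3 with h4 | h4
    · exact absurd h4 hl'
    · rcases mul_eq_zero.1 h4 with h5 | h5
      · exact absurd h5 hl1
      · exact h5
  apply hS.eq_zero_of_edges hc1
  intro j
  rcases j with _ | j
  · exact hc1 0
  · exact hc0 j

theorem exists_generic2 (u : MvPolynomial (Fin 3) ℝ) (l : ℕ) (hl : 1 ≤ l) (hu : u.IsHomogeneous l)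
    (hS : Spin l (UU (cx u) 0 0)) (h : u ≠ 0) (F : Finset (MvPolynomial (Fin 3) ℝ))
    (hF : ∀ q ∈ F, q ≠ 0 ∧ ∃ d : ℕ, q.IsHomogeneous d) :
    ∃ a : ℂ, coeff (ex 0 0) (UU (cx u) a ((starRingEnd ℂ) a)) ≠ 0 ∧
      coeff (ex 1 0) (UU (cx u) a ((starRingEnd ℂ) a)) ≠ 0 ∧
      ∀ q ∈ F, eval (sphV a 0) q ≠ 0 := by
  have hS' : Spin l (Gnr_QQ (cx u)) := by
    rw [Gnr_QQ_eq_theta]
    exact Gnr_spin_theta hS
  have hQ : Gnr_QQ (cx u) ≠ 0 := Gnr_QQ_ne_zero hu h
  have hQ1 : Gnr_QQ1 l (cx u) ≠ 0 := Gnr_QQ1_ne_zero hl hS' hQ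
  have hT : (∏ q ∈ F, Gnr_QQ (cx q) : P2) ≠ 0 := by
    apply Finset.prod_ne_zero_iff.2
    intro q hq
    obtain ⟨h1, d, h2⟩ := hF q hq
    exact Gnr_QQ_ne_zero h2 h1
  obtain ⟨a, ha⟩ := exists_conj (mul_ne_zero (mul_ne_zero hQ hQ1) hT)
  rw [map_mul, map_mul] at ha
  have h1 := left_ne_zero_of_mul (left_ne_zero_of_mul ha)
  have h2 := right_ne_zero_of_mul (left_ne_zero_of_mul ha)
  have h4 := right_ne_zero_of_mul ha
  rw [map_prod] at h4
  have h5 := Finset.prod_ne_zero_iff.1 h4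
  refine ⟨a, by rw [Gnr_coeff00_UU]; exact h1,
    by rw [Gnr_coeff10_UU l (cx u) (hu.map _)]; exact h2, ?_⟩
  intro q hq h0
  apply h5 q hq
  have h6 := eval_UU q a 0
  rw [h0, Complex.ofReal_zero, map_zero] at h6
  rw [← Gnr_coeff00_UU, Gnr_coeff00]
  exact h6

end Pool.Agent.EVS
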