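import Pool.Agent.EVS.Exp

/-!
# Project EVS, module PlL: the order along a meridian

The leading term of `U` at a zero of order `n` gives the limit of `Vf U (s w0) / (1 - s)^n` for `s → 1`.
-/

set_option autoImplicit false

namespace Pool.Agent.EVS

open MvPolynomial Pool.Agent.SHB Pool.Agent.OVL Filter Topology

/-- the main term along the meridian -/
private theorem PlL_main (c w0 : ℂ) (n : ℕ) (s : ℝ) :
    (c * (((s - 1 : ℝ) : ℂ) * w0) ^ n).re = (-1) ^ n * (1 - s) ^ n * (c * w0 ^ n).re := by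
  have h1 : c * (((s - 1 : ℝ) : ℂ) * w0) ^ n = (((s - 1) ^ n : ℝ) : ℂ) * (c * w0 ^ n) := by
    rw [mul_pow, Complex.ofReal_pow]
    ring
  rw [h1, Complex.re_ofReal_mul]
  have h2 : (s - 1) ^ n = (-1) ^ n * (1 - s) ^ n := by
    rw [← mul_pow]
    congr 1
    ring
  rw [h2]

theorem plane_lim {l : ℕ} {U : P2} (hU : Spin l U) (hR : RealP U) (w0 : ℂ) (n : ℕ) (hn : 1 ≤ n)
    (h : U ∈ ptI w0 ((starRingEnd ℂ) w0) ^ n) :
    Tendsto (fun s : ℝ => Vf U ((s : ℂ) * w0) / (1 - s) ^ n) (𝓝[≠] 1)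
      (𝓝 ((-1) ^ n * (2 * (coeff (ex n 0) (shift w0 ((starRingEnd ℂ) w0) U) * w0 ^ n).re))) := by
  obtain ⟨K, hK0, hK⟩ := lead_bd (lead_U hU hR w0 n hn h)
  set c := coeff (ex n 0) (shift w0 ((starRingEnd ℂ) w0) U) with hc
  rw [tendsto_iff_norm_sub_tendsto_zero]
  have hlim : Tendsto (fun s : ℝ => K * ‖w0‖ ^ (n + 1) * |s - 1|) (𝓝[≠] 1) (𝓝 0) := by
    have h1 : Tendsto (fun s : ℝ => K * ‖w0‖ ^ (n + 1) * |s - 1|) (𝓝 1) (𝓝 (K * ‖w0‖ ^ (n + 1) * |(1 : ℝ) - 1|)) :=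
      (continuous_const.mul (continuous_abs.comp (continuous_id.sub continuous_const))).tendsto 1
    rw [sub_self, abs_zero, mul_zero] at h1
    exact h1.mono_left nhdsWithin_le_nhds
  refine squeeze_zero' (Eventually.of_forall fun s => norm_nonneg _) ?_ hlim
  have hsmall : ∀ᶠ s : ℝ in 𝓝[≠] 1, |s - 1| * ‖w0‖ ≤ 1 := by
    have h1 : Tendsto (fun s : ℝ => |s - 1| * ‖w0‖) (𝓝 1) (𝓝 (|(1 : ℝ) - 1| * ‖w0‖)) :=
      ((continuous_abs.comp (continuous_id.sub continuous_const)).mul continuous_const).tendsto 1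
    rw [sub_self, abs_zero, zero_mul] at h1
    exact ((h1.mono_left nhdsWithin_le_nhds).eventually_lt_const zero_lt_one).mono fun s hs => hs.le
  filter_upwards [hsmall, self_mem_nhdsWithin] with s hs hs1
  have hs2 : (1 - s) ≠ 0 := sub_ne_zero.2 (Ne.symm hs1)
  have hpos : 0 < |1 - s| := abs_pos.2 hs2
  have hn1 : ‖((s - 1 : ℝ) : ℂ) * w0‖ = |s - 1| * ‖w0‖ := by
    rw [norm_mul, Complex.norm_real, Real.norm_eq_abs]
  have h1 := hK (((s - 1 : ℝ) : ℂ) * w0) (by rw [hn1]; exact hs)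
  have e1 : w0 + ((s - 1 : ℝ) : ℂ) * w0 = (s : ℂ) * w0 := by
    push_cast
    ring
  rw [e1, PlL_main, hn1, mul_pow] at h1
  have e2 : Vf U ((s : ℂ) * w0) / (1 - s) ^ n - (-1) ^ n * (2 * (c * w0 ^ n).re) =
      (Vf U ((s : ℂ) * w0) - 2 * ((-1) ^ n * (1 - s) ^ n * (c * w0 ^ n).re)) / (1 - s) ^ n := by
    field_simp
  rw [e2, Real.norm_eq_abs, abs_div, abs_pow, div_le_iff₀ (pow_pos hpos n)]
  refine h1.trans (le_of_eq ?_)
  rw [abs_sub_comm 1 s, pow_succ (|s - 1|) n]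
  ring

end Pool.Agent.EVS
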