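import Pool.Agent.EVS.Defs

/-!
# Project EVS, module Tay: the Taylor form of lowest degree of `u` at a point

`T = aeval (fun i => X i + C (x i)) u`, `n` is the least `k` with `homogeneousComponent k T ≠ 0`, `q = homogeneousComponent n T`.
`u = aeval (fun i => X i - C (x i)) T` is in `ptJ x ^ n`; `2 ≤ n` at a critical zero, as the coefficients of `T` in the degrees
`0`, `1` are the value and the derivatives of `u` at `x`; the limit: for `s ≠ 0, 1` the quotient is
`(s t)^l ∑_{k ≥ n} (1 - s)^(k - n) (κ s / (s t))^k eval A (homogeneousComponent k T)`, which is continuous at `s = 1`.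
-/

set_option autoImplicit false

namespace Pool.Agent.EVS

open MvPolynomial Pool.Agent.SHB Pool.Agent.OVL Filter Topology

/-- the polynomial `u (X + x)` -/
private noncomputable def Tay_T (x : Fin 3 → ℝ) (u : MvPolynomial (Fin 3) ℝ) : MvPolynomial (Fin 3) ℝ :=
  aeval (fun i => X i + C (x i)) u

private theorem Tay_eval (x v : Fin 3 → ℝ) (u : MvPolynomial (Fin 3) ℝ) :
    eval v (Tay_T x u) = eval (fun i => v i + x i) u := by
  unfold Tay_T
  induction u using MvPolynomial.induction_on with
  | C a => simp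
  | add p q hp hq => rw [map_add, map_add, map_add, hp, hq]
  | mul_X p i hp => rw [map_mul, map_mul, map_mul, hp]; simp

private theorem Tay_back (x : Fin 3 → ℝ) (u : MvPolynomial (Fin 3) ℝ) :
    aeval (fun i => X i - C (x i)) (Tay_T x u) = u := by
  unfold Tay_T
  induction u using MvPolynomial.induction_on with
  | C a => simp
  | add p q hp hq => rw [map_add, map_add, hp, hq]
  | mul_X p i hp => rw [map_mul, map_mul, hp]; simp

private theorem Tay_pderiv (x : Fin 3 → ℝ) (u : MvPolynomial (Fin 3) ℝ) (i : Fin 3) :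
    pderiv i (Tay_T x u) = Tay_T x (pderiv i u) := by
  unfold Tay_T
  induction u using MvPolynomial.induction_on with
  | C a => simp
  | add p q hp hq => simp only [map_add, hp, hq]
  | mul_X p j hp =>
    rw [map_mul, Derivation.leibniz, Derivation.leibniz, map_add, hp]
    simp only [aeval_X, smul_eq_mul, map_mul, map_add, pderiv_C, add_zero]
    congr 2
    by_cases h : j = i
    · subst h; simp
    · rw [pderiv_X_of_ne h]; simp

private theorem Tay_pow (x : Fin 3 → ℝ) (p : MvPolynomial (Fin 3) ℝ) (k : ℕ) (hp : p.IsHomogeneous k) :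
    aeval (fun i => X i - C (x i)) p ∈ ptJ x ^ k := by
  rw [p.as_sum, map_sum]
  refine Ideal.sum_mem _ fun d hd => ?_
  rw [aeval_monomial]
  refine Ideal.mul_mem_left _ _ ?_
  have hdeg : Finsupp.degree d = k := by
    by_contra hne
    exact (mem_support_iff.1 hd) (hp.coeff_eq_zero hne)
  rw [Finsupp.prod, ← hdeg, Finsupp.degree_apply, ← Finset.prod_pow_eq_pow_sum]
  refine Ideal.prod_mem_prod fun i _ => ?_
  have h1 : (X i - C (x i) : MvPolynomial (Fin 3) ℝ) ∈ ptJ x := Ideal.subset_span ⟨i, rfl⟩
  exact Ideal.pow_mem_pow h1 _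

private theorem Tay_smul (p : MvPolynomial (Fin 3) ℝ) (k : ℕ) (hp : p.IsHomogeneous k) (c : ℝ) (v : Fin 3 → ℝ) :
    eval (fun i => c * v i) p = c ^ k * eval v p := by
  rw [eval_eq, eval_eq, Finset.mul_sum]
  refine Finset.sum_congr rfl fun d hd => ?_
  have hdeg : Finsupp.degree d = k := by
    by_contra hne
    exact (mem_support_iff.1 hd) (hp.coeff_eq_zero hne)
  have h1 : ∏ i ∈ d.support, (c * v i) ^ d i = c ^ k * ∏ i ∈ d.support, v i ^ d i := by
    rw [← hdeg, Finsupp.degree_apply, ← Finset.prod_pow_eq_pow_sum, ← Finset.prod_mul_distrib]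
    exact Finset.prod_congr rfl fun i _ => mul_pow _ _ _
  rw [h1]
  ring

theorem taylor_form (u : MvPolynomial (Fin 3) ℝ) (l : ℕ) (hu : u.IsHomogeneous l) (h0 : u ≠ 0)
    (x : Fin 3 → ℝ) :
    ∃ (n : ℕ) (q : MvPolynomial (Fin 3) ℝ), q.IsHomogeneous n ∧ q ≠ 0 ∧ u ∈ ptJ x ^ n ∧
      (eval x u = 0 → (∀ i : Fin 3, eval x (pderiv i u) = 0) → 2 ≤ n) ∧
      ∀ (A : Fin 3 → ℝ) (t : ℝ) (κ : ℝ → ℝ), t ≠ 0 → Continuous κ →
        Tendsto (fun s : ℝ => eval (fun i => s * (t * x i) + (1 - s) * κ s * A i) u / (1 - s) ^ n)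
          (𝓝[≠] 1) (𝓝 (t ^ l * (κ 1 / t) ^ n * eval A q)) := by
  classical
  have hT0 : Tay_T x u ≠ 0 := by
    intro h
    apply h0
    rw [← Tay_back x u, h, map_zero]
  have hsum := sum_homogeneousComponent (Tay_T x u)
  have hex : ∃ k, homogeneousComponent k (Tay_T x u) ≠ 0 := by
    by_contra hcon
    push Not at hcon
    apply hT0
    rw [← hsum]
    exact Finset.sum_eq_zero fun k _ => hcon k
  have hmin : ∀ k, k < Nat.find hex → homogeneousComponent k (Tay_T x u) = 0 := by
    intro k hk
    by_contra hne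
    exact Nat.find_min hex hk hne
  have hn := Nat.find_spec hex
  generalize hN : Nat.find hex = n at hmin hn
  clear hN
  refine ⟨n, homogeneousComponent n (Tay_T x u), homogeneousComponent_isHomogeneous n _, hn, ?_, ?_, ?_⟩
  · rw [← Tay_back x u]
    nth_rewrite 1 [← hsum]
    rw [map_sum]
    refine Ideal.sum_mem _ fun k _ => ?_
    rcases lt_or_ge k n with hk | hk
    · rw [hmin k hk, map_zero]
      exact Ideal.zero_mem _
    · exact Ideal.pow_le_pow_right hk (Tay_pow x _ k (homogeneousComponent_isHomogeneous k _))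
  · intro hx hdx
    by_contra hlt
    have hn01 : n = 0 ∨ n = 1 := by omega
    have hc0 : coeff 0 (Tay_T x u) = 0 := by
      have h1 := Tay_eval x 0 u
      rw [eval_zero, constantCoeff_eq] at h1
      rw [h1]
      simpa using hx
    rcases hn01 with h | h
    · apply hn
      rw [h, homogeneousComponent_zero, hc0, C_0]
    · apply hn
      rw [h]
      ext d
      rw [coeff_homogeneousComponent, coeff_zero]
      split_ifs with hd
      · obtain ⟨i, hi⟩ : ∃ i, d = Finsupp.single i 1 := by
          exact (Finsupp.sum_eq_one_iff d).1 hd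
        have h2 : eval 0 (pderiv i (Tay_T x u)) = 0 := by
          rw [Tay_pderiv, Tay_eval]
          simpa using hdx i
        rw [eval_zero, constantCoeff_eq, coeff_pderiv] at h2
        rw [hi]
        simpa using h2
      · rfl
  · intro A t κ ht hκ
    set D := (Tay_T x u).totalDegree + 1 with hD
    have hnD : n ∈ Finset.range D := by
      rw [Finset.mem_range]
      by_contra hge
      exact hn (homogeneousComponent_eq_zero n _ (by omega))
    let G : ℝ → ℝ := fun s => (s * t) ^ l *
      ∑ k ∈ Finset.range D, (1 - s) ^ (k - n) * (κ s / (s * t)) ^ k * eval A (homogeneousComponent k (Tay_T x u))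
    have hG1 : G 1 = t ^ l * (κ 1 / t) ^ n * eval A (homogeneousComponent n (Tay_T x u)) := by
      show (1 * t) ^ l * ∑ k ∈ Finset.range D, (1 - 1) ^ (k - n) * (κ 1 / (1 * t)) ^ k *
        eval A (homogeneousComponent k (Tay_T x u)) = _
      rw [Finset.sum_eq_single n]
      · simp [mul_assoc]
      · intro k _ hk
        rcases lt_or_gt_of_ne hk with h | h
        · rw [hmin k h, map_zero, mul_zero]
        · have h3 : k - n ≠ 0 := by omega
          rw [sub_self, zero_pow h3, zero_mul, zero_mul]
      · intro h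
        exact absurd hnD h
    have hGc : ContinuousAt G 1 := by
      have h1 : ContinuousAt (fun s : ℝ => κ s / (s * t)) 1 :=
        hκ.continuousAt.div (continuousAt_id.mul continuousAt_const) (by simpa using ht)
      refine ContinuousAt.mul ((continuousAt_id.mul continuousAt_const).pow l) ?_
      refine tendsto_finsetSum _ fun k _ => ?_
      exact (((continuousAt_const.sub continuousAt_id).pow _).mul (h1.pow k)).mul continuousAt_const
    rw [← hG1]
    refine Tendsto.congr' ?_ (hGc.tendsto.mono_left nhdsWithin_le_nhds)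
    have hne0 : ∀ᶠ s : ℝ in 𝓝[≠] 1, s ≠ 0 :=
      (eventually_ne_nhds (one_ne_zero)).filter_mono nhdsWithin_le_nhds
    filter_upwards [hne0, self_mem_nhdsWithin] with s hs0 hs1
    have hs1' : (1 - s) ≠ 0 := fun h => hs1 (by
      have : s = 1 := by linarith
      simpa using this)
    have hst : s * t ≠ 0 := mul_ne_zero hs0 ht
    have e1 : (fun i => s * (t * x i) + (1 - s) * κ s * A i) =
        fun i => (s * t) * (((1 - s) * κ s / (s * t)) * A i + x i) := by
      funext i
      field_simp
      ring
    have e2 : eval (fun i => s * (t * x i) + (1 - s) * κ s * A i) u = (s * t) ^ l *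
        ∑ k ∈ Finset.range D, ((1 - s) * κ s / (s * t)) ^ k * eval A (homogeneousComponent k (Tay_T x u)) := by
      rw [e1, Tay_smul u l hu, ← Tay_eval x (fun i => ((1 - s) * κ s / (s * t)) * A i) u]
      nth_rewrite 1 [← hsum]
      rw [map_sum]
      congr 1
      refine Finset.sum_congr rfl fun k _ => ?_
      exact Tay_smul _ k (homogeneousComponent_isHomogeneous k _) _ _
    rw [e2, eq_div_iff (pow_ne_zero n hs1')]
    show (s * t) ^ l * (∑ k ∈ Finset.range D, (1 - s) ^ (k - n) * (κ s / (s * t)) ^ k *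
      eval A (homogeneousComponent k (Tay_T x u))) * (1 - s) ^ n = _
    rw [mul_assoc, Finset.sum_mul]
    congr 1
    refine Finset.sum_congr rfl fun k _ => ?_
    rcases lt_or_ge k n with hk | hk
    · rw [hmin k hk, map_zero, mul_zero, mul_zero, zero_mul]
    · have h4 : (1 - s) ^ k = (1 - s) ^ (k - n) * (1 - s) ^ n := by
        rw [← pow_add, Nat.sub_add_cancel hk]
      have h5 : ((1 - s) * κ s / (s * t)) ^ k = (1 - s) ^ (k - n) * (1 - s) ^ n * (κ s / (s * t)) ^ k := by
        rw [← h4, ← mul_pow, mul_div_assoc]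
      rw [h5]
      ring

end Pool.Agent.EVS
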