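import Pool.Agent.EVS.Sing
import Pool.Agent.EVS.Tay
import Pool.Agent.EVS.PlL
import Pool.Agent.EVS.Gnr

/-!
# Project EVS, module GenD: an axis in general position

PLAN. Let `Σ` be the finite set of `sing_finite`. For `x ∈ Σ` let `n x`, `q x` be as in `taylor_form u l hu h0 x` (`choose`); `F` = image of `q` on `Σ.toFinset` (`Finset.image`, classical). `exists_generic2` gives `a`. Let `U = UU (cx u) a (conj a)`, `Vf U w = 0`, `eval .. (pderiv 0 U) = 0`. `x = gg a w ∈ Σ` (`gg_sph`, `grad_zero`), `n = n x`, `q = q x`, `T = (1 + ‖a‖^2) (1 + ‖w‖^2)`,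
`sphV a w = T • x` (`sphV_gg`). `eval x u = 0` (`Vf_gg`), so `2 ≤ n`. `U ∈ ptI w (conj w) ^ n` by `real_pt u l hu a w x T _ (sphV_gg a w) n`. By `Vf_UU` and `sphV_line`, `Vf U (s w) = eval (fun i => s (T x i) + (1 - s) (1 + s ‖w‖^2) A i) u` with `A = sphV a 0`; the limits of `taylor_form` (`t = T`, `κ s = 1 + s ‖w‖^2`) and `plane_lim` agree
(`tendsto_nhds_unique`, `𝓝[≠] 1` is `NeBot`): `(-1)^n 2 Re (c w^n) = T^l ((1 + ‖w‖^2)/T)^n eval A q ≠ 0`, so `Re (c w^n) ≠ 0`.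
-/

set_option autoImplicit false

namespace Pool.Agent.EVS

open MvPolynomial Pool.Agent.SHB Pool.Agent.OVL

theorem exists_axis (u : MvPolynomial (Fin 3) ℝ) (l : ℕ) (hl : 1 ≤ l) (hu : u.IsHomogeneous l)
    (harm : ∑ i : Fin 3, pderiv i (pderiv i u) = 0) (h0 : u ≠ 0) :
    ∃ a : ℂ, coeff (ex 0 0) (UU (cx u) a ((starRingEnd ℂ) a)) ≠ 0 ∧
      coeff (ex 1 0) (UU (cx u) a ((starRingEnd ℂ) a)) ≠ 0 ∧
      ∀ w : ℂ, Vf (UU (cx u) a ((starRingEnd ℂ) a)) w = 0 →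
        eval ![w, (starRingEnd ℂ) w] (pderiv 0 (UU (cx u) a ((starRingEnd ℂ) a))) = 0 →
        GenAt (UU (cx u) a ((starRingEnd ℂ) a)) w := by
  classical
  have hfin := sing_finite u l hl hu harm h0
  choose n q hq1 hq2 hq3 hq4 hq5 using fun x : Fin 3 → ℝ => taylor_form u l hu h0 x
  obtain ⟨a, hc0, hc1, hF⟩ := exists_generic2 u l hl hu
    (spin_UU (cx u) l (cx_homog hu) (cx_harm harm) 0 0) h0 (hfin.toFinset.image q) (by
      intro p hp
      obtain ⟨x, _, rfl⟩ := Finset.mem_image.1 hp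
      exact ⟨hq2 x, n x, hq1 x⟩)
  refine ⟨a, hc0, hc1, ?_⟩
  intro w hw hw1
  have hsp : Spin l (UU (cx u) a ((starRingEnd ℂ) a)) :=
    spin_UU (cx u) l (cx_homog hu) (cx_harm harm) a _
  set x : Fin 3 → ℝ := gg a w with hx
  have hgrad : ∀ i : Fin 3, eval x (pderiv i u) = 0 := grad_zero u l hu a w hw hw1
  have hTpos : 0 < (1 + ‖a‖ ^ 2) * (1 + ‖w‖ ^ 2) := by positivity
  have hux : eval x u = 0 := by
    have h1 := Vf_gg u l hu a w
    rw [hw] at h1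
    exact (mul_eq_zero.1 h1.symm).resolve_left (pow_ne_zero _ hTpos.ne')
  have hxS : x ∈ hfin.toFinset := by
    rw [Set.Finite.mem_toFinset]
    exact ⟨gg_sph a w, hgrad⟩
  have hn := hq4 x hux hgrad
  have hsv : sphV a w = ((1 + ‖a‖ ^ 2) * (1 + ‖w‖ ^ 2)) • x := sphV_gg a w
  have hptI := real_pt u l hu a w x _ hTpos.ne' hsv (n x) (hq3 x)
  refine ⟨n x, hn, hptI, ?_⟩
  have hA : eval (sphV a 0) (q x) ≠ 0 := hF _ (Finset.mem_image_of_mem q hxS)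
  have l1 := hq5 x (sphV a 0) ((1 + ‖a‖ ^ 2) * (1 + ‖w‖ ^ 2)) (fun s => 1 + s * ‖w‖ ^ 2)
    hTpos.ne' (by fun_prop)
  have l2 := plane_lim hsp (real_UU u a) w (n x) (by omega) hptI
  have hfun : (fun s : ℝ => Vf (UU (cx u) a ((starRingEnd ℂ) a)) ((s : ℂ) * w) / (1 - s) ^ n x) =
      fun s : ℝ => eval (fun i => s * ((1 + ‖a‖ ^ 2) * (1 + ‖w‖ ^ 2) * x i) +
        (1 - s) * (1 + s * ‖w‖ ^ 2) * sphV a 0 i) u / (1 - s) ^ n x := by
    funext s
    congr 1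
    rw [Vf_UU]
    congr 1
    congr 1
    funext i
    rw [sphV_line, hsv]
    rfl
  rw [hfun] at l2
  have heq := tendsto_nhds_unique l1 l2
  intro hcon
  rw [hcon, mul_zero, mul_zero] at heq
  have hw2 : (1 : ℝ) + 1 * ‖w‖ ^ 2 ≠ 0 := by positivity
  exact (mul_ne_zero (mul_ne_zero (pow_ne_zero _ hTpos.ne')
    (pow_ne_zero _ (div_ne_zero hw2 hTpos.ne'))) hA) heq

end Pool.Agent.EVS
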