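import Pool.Agent.EVS.Defs

/-!
# Project EVS, module Pos: a harmonic homogeneous polynomial of degree `l ≥ 1` takes a value `≤ 0` on the sphere

For odd degree `u (-x) = - u x`. For even degree `2 k` let `m = u x > 0` be the minimum of `u` on the sphere; then `u - m |y|^(2 k) ≥ 0`
on the whole space, with equality at `x`, so the Laplacian `- m 2 k (2 k + 1)` at `x` would be nonnegative.
-/

set_option autoImplicit false

namespace Pool.Agent.EVS

open MvPolynomial Pool.Agent.SHB Pool.Agent.OVL

private theorem Pos_deriv (p : MvPolynomial (Fin 3) ℝ) (x : Fin 3 → ℝ) (i : Fin 3) (s : ℝ) :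
    HasDerivAt (fun s : ℝ => eval (Function.update x i s) p)
      (eval (Function.update x i s) (pderiv i p)) s := by
  induction p using MvPolynomial.induction_on with
  | C a =>
    simp only [eval_C, pderiv_C, map_zero]
    exact hasDerivAt_const s a
  | add p q hp hq =>
    simp only [map_add]
    exact hp.add hq
  | mul_X p j hp =>
    have h1 : HasDerivAt (fun s : ℝ => Function.update x i s j) (if j = i then 1 else 0) s := by
      by_cases hj : j = i
      · subst hj
        rw [if_pos rfl]
        have : (fun s : ℝ => Function.update x j s j) = fun s => s := by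
          funext s
          simp
        rw [this]
        exact hasDerivAt_id s
      · rw [if_neg hj]
        have : (fun s : ℝ => Function.update x i s j) = fun _ => x j := by
          funext s
          simp [Function.update_of_ne hj]
        rw [this]
        exact hasDerivAt_const s _
    have h2 := hp.mul h1
    have h3 : eval (Function.update x i s) (pderiv i (p * X j)) =
        eval (Function.update x i s) (pderiv i p) * Function.update x i s j +
          eval (Function.update x i s) p * (if j = i then 1 else 0) := by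
      rw [Derivation.leibniz, pderiv_X, smul_eq_mul, smul_eq_mul, map_add, map_mul, map_mul, eval_X]
      by_cases hj : j = i
      · subst hj
        simp only [Pi.single_eq_same, map_one, if_true]
        ring
      · rw [Pi.single_eq_of_ne hj, if_neg hj]
        simp only [map_zero]
        ring
    rw [h3]
    refine h2.congr_of_eventuallyEq (Filter.Eventually.of_forall (fun t => ?_))
    show eval (Function.update x i t) (p * X j) = _
    rw [map_mul, eval_X]
    rfl

private theorem Pos_second (p : MvPolynomial (Fin 3) ℝ) (x : Fin 3 → ℝ) (h0 : eval x p = 0)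
    (hp : ∀ y, 0 ≤ eval y p) (i : Fin 3) : 0 ≤ eval x (pderiv i (pderiv i p)) := by
  by_contra hneg
  push Not at hneg
  let f : ℝ → ℝ := fun s => eval (Function.update x i s) p
  have hx : Function.update x i (x i) = x := Function.update_eq_self i x
  have hf0 : f (x i) = 0 := by
    show eval (Function.update x i (x i)) p = 0
    rw [hx, h0]
  have d1 : deriv f = fun s => eval (Function.update x i s) (pderiv i p) := by
    funext s
    exact (Pos_deriv p x i s).deriv
  have d2 : deriv (deriv f) (x i) = eval x (pderiv i (pderiv i p)) := by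
    rw [d1, (Pos_deriv (pderiv i p) x i (x i)).deriv, hx]
  have hmin : IsLocalMin f (x i) := by
    refine Filter.Eventually.of_forall (fun s => ?_)
    rw [hf0]
    exact hp _
  have hd0 : deriv f (x i) = 0 := hmin.deriv_eq_zero
  have hc : ContinuousAt f (x i) := (Pos_deriv p x i (x i)).continuousAt
  have hmax : IsLocalMax f (x i) := by
    refine isLocalMax_of_deriv_deriv_neg ?_ hd0 hc
    rw [d2]
    exact hneg
  have hev : f =ᶠ[nhds (x i)] fun _ => (0 : ℝ) := by
    filter_upwards [hmax] with s hs
    rw [hf0] at hs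
    exact le_antisymm hs (hp _)
  have hd : deriv f =ᶠ[nhds (x i)] fun _ => (0 : ℝ) := by
    have := hev.deriv
    simpa using this
  have : deriv (deriv f) (x i) = 0 := by
    rw [hd.deriv_eq]
    simp
  rw [d2] at this
  rw [this] at hneg
  exact lt_irrefl _ hneg

private theorem Pos_scale {u : MvPolynomial (Fin 3) ℝ} {l : ℕ} (hu : u.IsHomogeneous l) (c : ℝ)
    (y : Fin 3 → ℝ) : eval (fun i => c * y i) u = c ^ l * eval y u := by
  rw [eval_eq', eval_eq', Finset.mul_sum]
  refine Finset.sum_congr rfl (fun d hd => ?_)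
  have h1 : ∑ i, d i = l := by
    have h2 := hu (mem_support_iff.1 hd)
    rw [← h2]
    simp [Finsupp.weight_apply, Finsupp.sum_fintype]
  have h3 : ∏ i, (c * y i) ^ d i = c ^ l * ∏ i, y i ^ d i := by
    simp only [mul_pow]
    rw [Finset.prod_mul_distrib, Finset.prod_pow_eq_pow_sum, h1]
  rw [h3]
  ring

private theorem Pos_compact : IsCompact Sph := by
  have h1 : IsClosed Sph := by
    have : Continuous (fun x : Fin 3 → ℝ => ∑ i : Fin 3, x i ^ 2) := by fun_prop
    exact isClosed_eq this continuous_const
  refine IsCompact.of_isClosed_subset (isCompact_closedBall (0 : Fin 3 → ℝ) 1) h1 ?_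
  intro x hx
  rw [mem_closedBall_zero_iff, pi_norm_le_iff_of_nonneg zero_le_one]
  intro i
  have hx' : ∑ i : Fin 3, x i ^ 2 = 1 := hx
  have h2 : x i ^ 2 ≤ 1 := by
    rw [← hx']
    exact Finset.single_le_sum (f := fun i => x i ^ 2) (fun j _ => sq_nonneg (x j))
      (Finset.mem_univ i)
  rw [Real.norm_eq_abs]
  exact abs_le_one_iff_mul_self_le_one.2 (by nlinarith)

/-- the sum of the squares -/
private noncomputable def Pos_N : MvPolynomial (Fin 3) ℝ := ∑ j : Fin 3, X j ^ 2

private theorem Pos_N_eval (x : Fin 3 → ℝ) : eval x Pos_N = ∑ j : Fin 3, x j ^ 2 := by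
  unfold Pos_N
  simp

private theorem Pos_N_d (i : Fin 3) : pderiv i Pos_N = 2 * X i := by
  unfold Pos_N
  rw [map_sum, Finset.sum_eq_single i]
  · rw [Derivation.leibniz_pow, pderiv_X_self]
    simp
  · intro j _ hj
    rw [Derivation.leibniz_pow, pderiv_X_of_ne hj]
    simp
  · intro h
    exact absurd (Finset.mem_univ i) h

private theorem Pos_lap (k : ℕ) (hk : 1 ≤ k) (x : Fin 3 → ℝ) (hx : ∑ j : Fin 3, x j ^ 2 = 1) :
    ∑ i : Fin 3, eval x (pderiv i (pderiv i (Pos_N ^ k))) = 2 * k * (2 * k + 1) := by
  obtain ⟨k, rfl⟩ : ∃ k', k = k' + 1 := ⟨k - 1, by omega⟩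
  have hN : eval x Pos_N = 1 := by rw [Pos_N_eval, hx]
  have h2 : ∀ i, eval x (pderiv i (Pos_N ^ k)) = 2 * k * x i := by
    intro i
    rw [Derivation.leibniz_pow, Pos_N_d]
    simp only [smul_eq_mul, map_mul, map_pow, hN, one_pow, eval_X, one_mul,
      nsmul_eq_mul]
    simp
    ring
  have h1 : ∀ i, eval x (pderiv i (pderiv i (Pos_N ^ (k + 1)))) =
      4 * (k + 1) * k * x i ^ 2 + 2 * (k + 1) := by
    intro i
    have h3 : pderiv i (Pos_N ^ (k + 1)) = C (2 * ((k : ℝ) + 1)) * (Pos_N ^ k * X i) := by
      rw [Derivation.leibniz_pow, Pos_N_d]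
      simp only [Nat.add_sub_cancel, smul_eq_mul, nsmul_eq_mul, map_mul, map_add, map_ofNat,
        map_natCast, map_one]
      push_cast
      ring
    rw [h3, pderiv_C_mul, Derivation.leibniz, pderiv_X_self]
    simp only [smul_eq_mul, map_mul, map_add, eval_C, map_one, eval_X, h2, map_pow, hN, one_pow,
      mul_one]
    ring
  simp only [h1, Finset.sum_add_distrib, ← Finset.mul_sum, hx]
  simp
  ring

theorem exists_nonpos (u : MvPolynomial (Fin 3) ℝ) (l : ℕ) (hl : 1 ≤ l) (hu : u.IsHomogeneous l)
    (harm : ∑ i : Fin 3, pderiv i (pderiv i u) = 0) : ∃ x ∈ Sph, eval x u ≤ 0 := by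
  have hne : Sph.Nonempty := by
    refine ⟨Pi.single 0 1, ?_⟩
    show ∑ i : Fin 3, (Pi.single 0 1 : Fin 3 → ℝ) i ^ 2 = 1
    simp [Fin.sum_univ_three]
  have hcont : Continuous (fun x : Fin 3 → ℝ => eval x u) := MvPolynomial.continuous_eval u
  obtain ⟨x, hx, hmin⟩ := Pos_compact.exists_isMinOn hne hcont.continuousOn
  have hx' : ∑ i : Fin 3, x i ^ 2 = 1 := hx
  by_contra hcon
  push Not at hcon
  have hm : 0 < eval x u := hcon x hx
  rcases Nat.even_or_odd' l with ⟨k, rfl | rfl⟩
  · have hk : 1 ≤ k := by omega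
    let p : MvPolynomial (Fin 3) ℝ := u - C (eval x u) * Pos_N ^ k
    have hp0 : eval x p = 0 := by
      show eval x (u - C (eval x u) * Pos_N ^ k) = 0
      rw [map_sub, map_mul, map_pow, eval_C, Pos_N_eval, hx']
      ring
    have hpn : ∀ y, 0 ≤ eval y p := by
      intro y
      show 0 ≤ eval y (u - C (eval x u) * Pos_N ^ k)
      rw [map_sub, map_mul, map_pow, eval_C, Pos_N_eval]
      by_cases hy : ∑ i : Fin 3, y i ^ 2 = 0
      · have hy0 : y = fun i => 0 * y i := by
          funext i
          have h1 := (Finset.sum_eq_zero_iff_of_nonneg (fun j _ => sq_nonneg (y j))).1 hy i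
            (Finset.mem_univ i)
          have h2 : y i = 0 := by simpa using h1
          rw [h2, mul_zero]
        rw [hy, zero_pow (by omega), mul_zero, sub_zero, hy0, Pos_scale hu, zero_pow (by omega),
          zero_mul]
      · have hpos : 0 < ∑ i : Fin 3, y i ^ 2 :=
          lt_of_le_of_ne (Finset.sum_nonneg (fun j _ => sq_nonneg (y j))) (Ne.symm hy)
        have hr : 0 < Real.sqrt (∑ i : Fin 3, y i ^ 2) := Real.sqrt_pos.2 hpos
        have hr2 : Real.sqrt (∑ i : Fin 3, y i ^ 2) ^ 2 = ∑ i : Fin 3, y i ^ 2 :=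
          Real.sq_sqrt hpos.le
        generalize Real.sqrt (∑ i : Fin 3, y i ^ 2) = r at hr hr2
        have hz : (fun i => r⁻¹ * y i) ∈ Sph := by
          show ∑ i : Fin 3, (r⁻¹ * y i) ^ 2 = 1
          simp only [mul_pow]
          rw [← Finset.mul_sum, ← hr2, ← mul_pow, inv_mul_cancel₀ hr.ne', one_pow]
        have h3 : eval x u ≤ eval (fun i => r⁻¹ * y i) u := hmin hz
        rw [Pos_scale hu] at h3
        have h4 : r⁻¹ ^ (2 * k) * r ^ (2 * k) = 1 := by
          rw [← mul_pow, inv_mul_cancel₀ hr.ne', one_pow]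
        have h5 : 0 < r ^ (2 * k) := pow_pos hr _
        have h6 : (∑ i : Fin 3, y i ^ 2) ^ k = r ^ (2 * k) := by
          rw [← hr2, ← pow_mul]
        rw [h6]
        have h7 := mul_le_mul_of_nonneg_right h3 h5.le
        have h8 : r⁻¹ ^ (2 * k) * eval y u * r ^ (2 * k) = eval y u := by
          calc r⁻¹ ^ (2 * k) * eval y u * r ^ (2 * k) =
              (r⁻¹ ^ (2 * k) * r ^ (2 * k)) * eval y u := by ring
            _ = eval y u := by rw [h4, one_mul]
        rw [h8] at h7
        linarith
    have h1 : 0 ≤ ∑ i : Fin 3, eval x (pderiv i (pderiv i p)) :=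
      Finset.sum_nonneg (fun i _ => Pos_second p x hp0 hpn i)
    have h2 : ∑ i : Fin 3, eval x (pderiv i (pderiv i p)) = -(eval x u * (2 * k * (2 * k + 1))) := by
      have h3 : ∀ i, eval x (pderiv i (pderiv i p)) = eval x (pderiv i (pderiv i u)) -
          eval x u * eval x (pderiv i (pderiv i (Pos_N ^ k))) := by
        intro i
        show eval x (pderiv i (pderiv i (u - C (eval x u) * Pos_N ^ k))) = _
        rw [map_sub, map_sub, pderiv_C_mul, pderiv_C_mul, map_sub, map_mul, eval_C]
      simp only [h3]
      rw [Finset.sum_sub_distrib, ← Finset.mul_sum, Pos_lap k hk x hx', ← map_sum, harm, map_zero]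
      ring
    rw [h2] at h1
    have h3 : (1 : ℝ) ≤ k := by exact_mod_cast hk
    have h4 : 0 < eval x u * (2 * k * (2 * k + 1)) := by positivity
    linarith
  · have hz : (fun i => -1 * x i) ∈ Sph := by
      show ∑ i : Fin 3, (-1 * x i) ^ 2 = 1
      simp only [mul_pow]
      simp [hx']
    have h1 := hcon _ hz
    rw [Pos_scale hu] at h1
    have h2 : (-1 : ℝ) ^ (2 * k + 1) = -1 := by
      rw [pow_succ, pow_mul]
      simp
    rw [h2] at h1
    linarith

end Pool.Agent.EVS
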