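import Pool.Agent.EVS.Gr3
import Pool.Agent.EVS.Alg

/-!
# Project EVS, module TopP: from the sphere to the plane

PLAN. `rep`: `stereo a x` (`x ∈ Sph` is the hypothesis there): either `sphV a w = t • x`, `t > 0`, so `gg a w = x` (`gg_of_pos`); or `sphV a 0 = t • x`, `t < 0`. In the second case `eval x u ≠ 0`: `t^l eval x u = eval (sphV a 0) u = Vf U 0 = Re (coeff (ex 0 0) U) ≠ 0` (`Vf_UU`, homogeneity `eval_smul_hom hu`, `real_UU u a 0 0`). `nearby u ⟨x, _⟩` (copy it with `nearby_of` from `Pool/Agent/OVL/Tr.lean`) gives `y ≠ x` in the same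
component of `SphC u`; `stereo a y`: the second alternative would give `y = x` (see the end of `gS_surj` there), so `y = gg a w`. `Jn`: the image in `Fin 3 → ℝ` of the connected component of `x` in `SphC u` (`isPreconnected_connectedComponent.image`).
`card_le`: `U = UU (cx u) a (conj a)`; by `Vf_lin`, `Vf_Ze`, `Vf_gg`: `Vf (Ue l U ε) w = (1 + ‖w‖^2)^l ((1 + ‖a‖^2)^l eval (gg a w) u - ε)`. So `w ∈ Q` has `Vf (Ue l U ε) w ≠ 0`, and `w ↦ ConnectedComponents.mk ⟨w, _⟩` is injective on `Q`: if `w, w'` are in the same component of `{w // Vf (Ue l U ε) w ≠ 0}` then the image of this component under `gg a ∘ Subtype.val` (`gg_cont`) is a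
preconnected subset of `{z ∈ Sph | (1 + ‖a‖^2)^l eval z u ≠ ε}` with `gg a w`, `gg a w'` in it, so `w = w'` by `h2`. `Finset.card_le_card_of_injOn` into `Finset.univ` (`Fintype.ofFinite`, `Nat.card_eq_fintype_card`).
-/

set_option autoImplicit false

namespace Pool.Agent.EVS

open MvPolynomial Pool.Agent.SHB Pool.Agent.OVL

private lemma TopP_nearby_of (u : MvPolynomial (Fin 3) ℝ) (x : SphC u) (ρ : ℝ → Fin 3 → ℝ)
    (hρ : Continuous ρ) (h0 : ρ 0 = x.1) (h1 : ∀ s, ∑ i : Fin 3, ρ s i ^ 2 = 1)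
    (h2 : ∀ s : ℝ, 0 < s → s ≤ 1 → ρ s ≠ x.1) :
    ∃ y : SphC u, y ≠ x ∧ (y : ConnectedComponents (SphC u)) = (x : ConnectedComponents (SphC u)) := by
  have hcont : Continuous fun s => eval (ρ s) u := (MvPolynomial.continuous_eval u).comp hρ
  have hne : eval (ρ 0) u ≠ 0 := by rw [h0]; exact x.2.2
  have hev : ∀ᶠ s in nhds (0 : ℝ), eval (ρ s) u ≠ 0 := hcont.continuousAt.eventually_ne hne
  obtain ⟨ε, hε, hball⟩ := Metric.eventually_nhds_iff.1 hev
  obtain ⟨δ, hδ0, hδ1, hδ⟩ : ∃ δ : ℝ, 0 < δ ∧ δ ≤ 1 ∧ δ < ε :=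
    ⟨min 1 (ε / 2), lt_min one_pos (by linarith), min_le_left _ _,
      lt_of_le_of_lt (min_le_right _ _) (by linarith)⟩
  have hin : ∀ r : unitInterval, eval (ρ (r.1 * δ)) u ≠ 0 := by
    intro r
    apply hball
    rw [Real.dist_eq, sub_zero, abs_of_nonneg (mul_nonneg r.2.1 hδ0.le)]
    calc r.1 * δ ≤ 1 * δ := mul_le_mul_of_nonneg_right r.2.2 hδ0.le
      _ < ε := by linarith
  let γ : unitInterval → SphC u := fun r => ⟨ρ (r.1 * δ), h1 _, hin r⟩
  have hγ : Continuous γ :=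
    (hρ.comp (continuous_subtype_val.mul continuous_const)).subtype_mk _
  have hpre := isPreconnected_range hγ
  have hγ0 : γ 0 = x := by
    apply Subtype.ext
    show ρ ((0 : ℝ) * δ) = x.1
    rw [zero_mul, h0]
  refine ⟨γ 1, ?_, ?_⟩
  · intro h
    have h3 := congrArg Subtype.val h
    have h4 : ρ ((1 : ℝ) * δ) = x.1 := h3
    rw [one_mul] at h4
    exact h2 δ hδ0 hδ1 h4
  · apply ConnectedComponents.coe_eq_coe'.2
    have h5 : x ∈ Set.range γ := ⟨0, hγ0⟩
    exact hpre.subset_connectedComponent h5 ⟨1, rfl⟩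

private lemma TopP_nearby (u : MvPolynomial (Fin 3) ℝ) (x : SphC u) :
    ∃ y : SphC u, y ≠ x ∧ (y : ConnectedComponents (SphC u)) = (x : ConnectedComponents (SphC u)) := by
  have hx := x.2.1
  rw [Fin.sum_univ_three] at hx
  have hsin : ∀ s : ℝ, 0 < s → s ≤ 1 → Real.sin s ≠ 0 := fun s h1 h2 =>
    (Real.sin_pos_of_pos_of_le_one h1 h2).ne'
  by_cases hxy : x.1 0 ^ 2 + x.1 1 ^ 2 = 0
  · have hx12 : 0 < x.1 1 ^ 2 + x.1 2 ^ 2 := by nlinarith [sq_nonneg (x.1 0), sq_nonneg (x.1 1)]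
    refine TopP_nearby_of u x (fun s => ![x.1 0, Real.cos s * x.1 1 - Real.sin s * x.1 2,
      Real.sin s * x.1 1 + Real.cos s * x.1 2]) ?_ ?_ ?_ ?_
    · apply continuous_pi
      intro i
      fin_cases i
      · exact continuous_const
      · exact (Real.continuous_cos.mul continuous_const).sub
          (Real.continuous_sin.mul continuous_const)
      · exact (Real.continuous_sin.mul continuous_const).add
          (Real.continuous_cos.mul continuous_const)
    · funext i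
      fin_cases i
      · rfl
      · simp
      · simp
    · intro s
      rw [Fin.sum_univ_three]
      show x.1 0 ^ 2 + (Real.cos s * x.1 1 - Real.sin s * x.1 2) ^ 2 +
        (Real.sin s * x.1 1 + Real.cos s * x.1 2) ^ 2 = 1
      have hcs := Real.sin_sq_add_cos_sq s
      linear_combination (x.1 1 ^ 2 + x.1 2 ^ 2) * hcs + hx
    · intro s hs0 hs1 h
      have e1 : Real.cos s * x.1 1 - Real.sin s * x.1 2 = x.1 1 := congrFun h 1
      have e2 : Real.sin s * x.1 1 + Real.cos s * x.1 2 = x.1 2 := congrFun h 2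
      have e3 : Real.sin s * (x.1 1 ^ 2 + x.1 2 ^ 2) = 0 := by
        linear_combination x.1 1 * e2 - x.1 2 * e1
      rcases mul_eq_zero.1 e3 with h3 | h3
      · exact hsin s hs0 hs1 h3
      · exact hx12.ne' h3
  · refine TopP_nearby_of u x (fun s => ![Real.cos s * x.1 0 - Real.sin s * x.1 1,
      Real.sin s * x.1 0 + Real.cos s * x.1 1, x.1 2]) ?_ ?_ ?_ ?_
    · apply continuous_pi
      intro i
      fin_cases i
      · exact (Real.continuous_cos.mul continuous_const).sub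
          (Real.continuous_sin.mul continuous_const)
      · exact (Real.continuous_sin.mul continuous_const).add
          (Real.continuous_cos.mul continuous_const)
      · exact continuous_const
    · funext i
      fin_cases i
      · simp
      · simp
      · rfl
    · intro s
      rw [Fin.sum_univ_three]
      show (Real.cos s * x.1 0 - Real.sin s * x.1 1) ^ 2 +
        (Real.sin s * x.1 0 + Real.cos s * x.1 1) ^ 2 + x.1 2 ^ 2 = 1
      have hcs := Real.sin_sq_add_cos_sq s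
      linear_combination (x.1 0 ^ 2 + x.1 1 ^ 2) * hcs + hx
    · intro s hs0 hs1 h
      have e1 : Real.cos s * x.1 0 - Real.sin s * x.1 1 = x.1 0 := congrFun h 0
      have e2 : Real.sin s * x.1 0 + Real.cos s * x.1 1 = x.1 1 := congrFun h 1
      have e3 : Real.sin s * (x.1 0 ^ 2 + x.1 1 ^ 2) = 0 := by
        linear_combination x.1 0 * e2 - x.1 1 * e1
      rcases mul_eq_zero.1 e3 with h3 | h3
      · exact hsin s hs0 hs1 h3
      · exact hxy h3

private lemma TopP_eval_ne (u : MvPolynomial (Fin 3) ℝ) (a : ℂ)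
    (h0 : coeff (ex 0 0) (UU (cx u) a ((starRingEnd ℂ) a)) ≠ 0) : eval (sphV a 0) u ≠ 0 := by
  intro h
  apply h0
  rw [coeff00, eval_UU, h, Complex.ofReal_zero]

private lemma TopP_key (u : MvPolynomial (Fin 3) ℝ) (l : ℕ) (a : ℂ) (ε : ℝ)
    (hu : u.IsHomogeneous l) (w : ℂ) :
    Vf (Ue l (UU (cx u) a ((starRingEnd ℂ) a)) ε) w =
      (1 + ‖w‖ ^ 2) ^ l * ((1 + ‖a‖ ^ 2) ^ l * eval (gg a w) u - ε) := by
  rw [Ue, Vf_lin, Vf_Ze, Vf_gg u l hu, mul_pow]
  ring

private lemma TopP_ne (u : MvPolynomial (Fin 3) ℝ) (l : ℕ) (a : ℂ) (ε : ℝ)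
    (hu : u.IsHomogeneous l) (w : ℂ) :
    Vf (Ue l (UU (cx u) a ((starRingEnd ℂ) a)) ε) w ≠ 0 ↔
      (1 + ‖a‖ ^ 2) ^ l * eval (gg a w) u ≠ ε := by
  have h1 : (1 + ‖w‖ ^ 2) ^ l ≠ 0 := by positivity
  rw [TopP_key u l a ε hu w, mul_ne_zero_iff, sub_ne_zero]
  exact ⟨fun h => h.2, fun h => ⟨h1, h⟩⟩

theorem rep (u : MvPolynomial (Fin 3) ℝ) (l : ℕ) (hu : u.IsHomogeneous l) (a : ℂ)
    (h0 : coeff (ex 0 0) (UU (cx u) a ((starRingEnd ℂ) a)) ≠ 0) (x : Fin 3 → ℝ) (hx : x ∈ Sph) :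
    (∃ w : ℂ, gg a w = x) ∨
      (eval x u ≠ 0 ∧ ∃ w : ℂ, Jn {z | z ∈ Sph ∧ eval z u ≠ 0} x (gg a w)) := by
  rcases stereo a x hx with ⟨w, t, ht, h⟩ | ⟨t, ht, h⟩
  · exact Or.inl ⟨w, gg_of_pos a w x hx t ht h⟩
  · right
    have hne : eval x u ≠ 0 := by
      intro h1
      apply TopP_eval_ne u a h0
      rw [h, eval_smul_hom hu, h1, mul_zero]
    refine ⟨hne, ?_⟩
    obtain ⟨y, hyx, hyc⟩ := TopP_nearby u ⟨x, hx, hne⟩
    rcases stereo a y.1 y.2.1 with ⟨w, t', ht', h'⟩ | ⟨t', ht', h'⟩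
    · have hw := gg_of_pos a w y.1 y.2.1 t' ht' h'
      refine ⟨w, Subtype.val '' connectedComponent (⟨x, hx, hne⟩ : SphC u), ?_, ?_, ?_, ?_⟩
      · rintro z ⟨z', _, rfl⟩
        exact ⟨z'.2.1, z'.2.2⟩
      · exact isPreconnected_connectedComponent.image _ continuous_subtype_val.continuousOn
      · exact ⟨_, mem_connectedComponent, rfl⟩
      · rw [hw]
        refine ⟨y, ?_, rfl⟩
        exact ConnectedComponents.coe_eq_coe'.1 hyc
    · exfalso
      apply hyx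
      apply Subtype.ext
      have e1 := norm_sphV a 0
      have e2 := e1
      have hx' : ∑ i : Fin 3, x i ^ 2 = 1 := hx
      rw [h] at e1
      rw [h'] at e2
      simp only [Pi.smul_apply, smul_eq_mul, mul_pow] at e1 e2
      rw [← Finset.mul_sum, hx', mul_one] at e1
      rw [← Finset.mul_sum, y.2.1, mul_one] at e2
      have e3 : t = t' := by
        rcases sq_eq_sq_iff_eq_or_eq_neg.1 (e1.trans e2.symm) with h4 | h4
        · exact h4
        · linarith
      rw [h, e3] at h'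
      exact (smul_right_injective _ ht'.ne h').symm

theorem card_le (u : MvPolynomial (Fin 3) ℝ) (l : ℕ) (hu : u.IsHomogeneous l) (a : ℂ) (ε : ℝ)
    (hfin : Finite (Cc (Vf (Ue l (UU (cx u) a ((starRingEnd ℂ) a)) ε)))) (Q : Finset ℂ)
    (h1 : ∀ w ∈ Q, (1 + ‖a‖ ^ 2) ^ l * eval (gg a w) u ≠ ε)
    (h2 : ∀ w ∈ Q, ∀ w' ∈ Q, w ≠ w' →
      ¬ Jn {z | z ∈ Sph ∧ (1 + ‖a‖ ^ 2) ^ l * eval z u ≠ ε} (gg a w) (gg a w')) :
    Q.card ≤ Nat.card (Cc (Vf (Ue l (UU (cx u) a ((starRingEnd ℂ) a)) ε))) := by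
  classical
  haveI := hfin
  letI : Fintype (Cc (Vf (Ue l (UU (cx u) a ((starRingEnd ℂ) a)) ε))) := Fintype.ofFinite _
  have hmem : ∀ w : Q, Vf (Ue l (UU (cx u) a ((starRingEnd ℂ) a)) ε) w.1 ≠ 0 := fun w =>
    (TopP_ne u l a ε hu w.1).2 (h1 w.1 w.2)
  let Φ : Q → Cc (Vf (Ue l (UU (cx u) a ((starRingEnd ℂ) a)) ε)) := fun w =>
    ConnectedComponents.mk ⟨w.1, hmem w⟩
  have hinj : Function.Injective Φ := by
    intro w w' hww
    by_contra hne
    have hne' : w.1 ≠ w'.1 := fun h => hne (Subtype.ext h)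
    apply h2 w.1 w.2 w'.1 w'.2 hne'
    have hc : (⟨w.1, hmem w⟩ : {z : ℂ // Vf (Ue l (UU (cx u) a ((starRingEnd ℂ) a)) ε) z ≠ 0}) ∈
        connectedComponent
          (⟨w'.1, hmem w'⟩ : {z : ℂ // Vf (Ue l (UU (cx u) a ((starRingEnd ℂ) a)) ε) z ≠ 0}) :=
      ConnectedComponents.coe_eq_coe'.1 hww
    refine ⟨(fun z : {z : ℂ // Vf (Ue l (UU (cx u) a ((starRingEnd ℂ) a)) ε) z ≠ 0} =>
      gg a z.1) '' connectedComponent
          (⟨w'.1, hmem w'⟩ : {z : ℂ // Vf (Ue l (UU (cx u) a ((starRingEnd ℂ) a)) ε) z ≠ 0}),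
      ?_, ?_, ?_, ?_⟩
    · rintro z ⟨z', _, rfl⟩
      exact ⟨gg_sph a z'.1, (TopP_ne u l a ε hu z'.1).1 z'.2⟩
    · exact isPreconnected_connectedComponent.image _
        ((gg_cont a).comp continuous_subtype_val).continuousOn
    · exact ⟨_, hc, rfl⟩
    · exact ⟨_, mem_connectedComponent, rfl⟩
  have h3 := Fintype.card_le_of_injective Φ hinj
  rw [Nat.card_eq_fintype_card]
  simpa using h3

end Pool.Agent.EVS
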