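import Pool.Agent.EVS.Defs

/-!
# Project EVS, module TopT: separated points of `{F > 0}` and of `{F ≤ 0}` are separated in `{F ≠ ε}` for small `ε > 0`

PLAN. It is enough to find for each pair `x ≠ y` of `P` an `ε0 > 0` (finite set of pairs: take the minimum; also `ε0 < F x` for all `x ∈ P` with `0 < F x`, so that `F x ≠ ε` for all `x ∈ P`).
(1) `0 < F x`, `0 < F y`: for `ε < min (F x) (F y)` let `K ⊆ {z ∈ S | F z ≠ ε}` be preconnected with `x, y ∈ K`. `F` is continuous on `K` and never `ε`, `F x > ε`, so `F > ε` on `K` (`IsPreconnected.intermediate_value` / `IsPreconnected.image`, `Set.OrdConnected`), so `K ⊆ {z ∈ S | 0 < F z}`, against `h1`.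
(2) `0 < F x`, `F y ≤ 0` (or conversely): for `0 < ε < F x` such a `K` would contain a point with `F = ε` (intermediate value), contradiction.
(3) `F x ≤ 0`, `F y ≤ 0`: `Z = {z ∈ S | F z ≤ 0}` is compact. In the compact Hausdorff space `↥Z` the points `x, y` have different connected components (otherwise the image in `X` of the connected component of `x` is a preconnected subset of `Z` containing both, against `h2`), so there is a clopen `A ⊆ ↥Z` with `x ∈ A`, `y ∉ A` (`connectedComponent_eq_iInter_isClopen`). The images `A1`, `A2` in `X` of `A`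
and `Aᶜ` are disjoint compact sets with union `Z`; there are disjoint open sets `O1 ⊇ A1`, `O2 ⊇ A2` (`SeparatedNhds.of_isCompact_isCompact`). `S \ (O1 ∪ O2)` is compact and `F > 0` on it, so `F ≥ δ > 0` on it (`IsCompact.exists_isMinOn`; if empty `δ = 1`). Let `0 < ε < δ` and `K ⊆ {z ∈ S | F z ≠ ε}` preconnected with `x, y ∈ K`. As in (1) `F < ε` on `K`,
so `K ⊆ O1 ∪ O2`, and `K` meets both (`x`, `y`): contradiction with preconnectedness (`IsPreconnected` applied to `O1, O2`: a common point, but they are disjoint).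
-/

set_option autoImplicit false

namespace Pool.Agent.EVS

private lemma TopT_gt {X : Type*} [TopologicalSpace X] {F : X → ℝ} (hF : Continuous F)
    {K : Set X} (hK : IsPreconnected K) {ε : ℝ} (hne : ∀ z ∈ K, F z ≠ ε) {x : X} (hx : x ∈ K)
    (hxε : ε < F x) : ∀ z ∈ K, ε < F z := by
  intro z hz
  by_contra hcon
  have hle : F z ≤ ε := not_lt.mp hcon
  obtain ⟨c, hc, hce⟩ := hK.intermediate_value hz hx hF.continuousOn ⟨hle, hxε.le⟩
  exact hne c hc hce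

private lemma TopT_lt {X : Type*} [TopologicalSpace X] {F : X → ℝ} (hF : Continuous F)
    {K : Set X} (hK : IsPreconnected K) {ε : ℝ} (hne : ∀ z ∈ K, F z ≠ ε) {x : X} (hx : x ∈ K)
    (hxε : F x < ε) : ∀ z ∈ K, F z < ε := by
  intro z hz
  by_contra hcon
  have hle : ε ≤ F z := not_lt.mp hcon
  obtain ⟨c, hc, hce⟩ := hK.intermediate_value hx hz hF.continuousOn ⟨hxε.le, hle⟩
  exact hne c hc hce

private lemma TopT_sep {X : Type*} [TopologicalSpace X] [T2Space X] {Z : Set X}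
    (hZ : IsCompact Z) {x y : X} (hx : x ∈ Z) (hy : y ∈ Z) (h : ¬ Jn Z x y) :
    ∃ O1 O2 : Set X, IsOpen O1 ∧ IsOpen O2 ∧ Disjoint O1 O2 ∧ Z ⊆ O1 ∪ O2 ∧ x ∈ O1 ∧ y ∈ O2 := by
  have : CompactSpace Z := isCompact_iff_compactSpace.mp hZ
  have hn : (⟨y, hy⟩ : Z) ∉ connectedComponent (⟨x, hx⟩ : Z) := by
    intro hmem
    apply h
    refine ⟨Subtype.val '' connectedComponent (⟨x, hx⟩ : Z), ?_, ?_, ?_, ?_⟩
    · rintro _ ⟨z, -, rfl⟩
      exact z.2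
    · exact isPreconnected_connectedComponent.image _ continuous_subtype_val.continuousOn
    · exact ⟨⟨x, hx⟩, mem_connectedComponent, rfl⟩
    · exact ⟨⟨y, hy⟩, hmem, rfl⟩
  rw [connectedComponent_eq_iInter_isClopen] at hn
  simp only [Set.mem_iInter, not_forall] at hn
  obtain ⟨⟨A, hA, hxA⟩, hyA⟩ := hn
  have hc1 : IsCompact (Subtype.val '' A) := hA.1.isCompact.image continuous_subtype_val
  have hc2 : IsCompact (Subtype.val '' Aᶜ) := hA.compl.1.isCompact.image continuous_subtype_val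
  have hd : Disjoint (Subtype.val '' A) (Subtype.val '' Aᶜ) :=
    (Set.disjoint_image_iff Subtype.val_injective).mpr disjoint_compl_right
  obtain ⟨O1, O2, ho1, ho2, hs1, hs2, hdis⟩ := SeparatedNhds.of_isCompact_isCompact hc1 hc2 hd
  refine ⟨O1, O2, ho1, ho2, hdis, ?_, hs1 ⟨⟨x, hx⟩, hxA, rfl⟩, hs2 ⟨⟨y, hy⟩, hyA, rfl⟩⟩
  intro z hz
  by_cases hzA : (⟨z, hz⟩ : Z) ∈ A
  · exact Or.inl (hs1 ⟨⟨z, hz⟩, hzA, rfl⟩)
  · exact Or.inr (hs2 ⟨⟨z, hz⟩, hzA, rfl⟩)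

private lemma TopT_pair {X : Type*} [TopologicalSpace X] [T2Space X] (S : Set X)
    (hS : IsCompact S) (F : X → ℝ) (hF : Continuous F) (x y : X) (hxS : x ∈ S) (hyS : y ∈ S)
    (h1 : 0 < F x → 0 < F y → ¬ Jn {z | z ∈ S ∧ 0 < F z} x y)
    (h2 : F x ≤ 0 → F y ≤ 0 → ¬ Jn {z | z ∈ S ∧ F z ≤ 0} x y) :
    ∃ ε0 : ℝ, 0 < ε0 ∧ ∀ ε : ℝ, 0 < ε → ε < ε0 → F x ≠ ε ∧
      ¬ Jn {z | z ∈ S ∧ F z ≠ ε} x y := by
  rcases lt_or_ge 0 (F x) with hx | hx <;> rcases lt_or_ge 0 (F y) with hy | hy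
  · refine ⟨min (F x) (F y), lt_min hx hy, fun ε h0 h => ⟨(h.trans_le (min_le_left _ _)).ne', ?_⟩⟩
    rintro ⟨K, hKs, hK, hxK, hyK⟩
    refine h1 hx hy ⟨K, fun z hz => ⟨(hKs hz).1, h0.trans ?_⟩, hK, hxK, hyK⟩
    exact TopT_gt hF hK (fun z hz => (hKs hz).2) hxK (h.trans_le (min_le_left _ _)) z hz
  · refine ⟨F x, hx, fun ε h0 h => ⟨h.ne', ?_⟩⟩
    rintro ⟨K, hKs, hK, hxK, hyK⟩
    have := TopT_gt hF hK (fun z hz => (hKs hz).2) hxK h y hyK
    linarith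
  · refine ⟨F y, hy, fun ε h0 h => ⟨(hx.trans_lt h0).ne, ?_⟩⟩
    rintro ⟨K, hKs, hK, hxK, hyK⟩
    have := TopT_gt hF hK (fun z hz => (hKs hz).2) hyK h x hxK
    linarith
  · have hZ : IsCompact {z | z ∈ S ∧ F z ≤ 0} := by
      have hcl : IsClosed {z : X | F z ≤ 0} := isClosed_le hF continuous_const
      exact hS.inter_right hcl
    obtain ⟨O1, O2, ho1, ho2, hdis, hcov, hxO, hyO⟩ :=
      TopT_sep hZ (x := x) (y := y) ⟨hxS, hx⟩ ⟨hyS, hy⟩ (h2 hx hy)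
    have hR : IsCompact (S \ (O1 ∪ O2)) := hS.diff (ho1.union ho2)
    obtain ⟨δ, hδ, hδR⟩ : ∃ δ : ℝ, 0 < δ ∧ ∀ z ∈ S \ (O1 ∪ O2), δ ≤ F z := by
      rcases (S \ (O1 ∪ O2)).eq_empty_or_nonempty with he | hne
      · exact ⟨1, one_pos, fun z hz => by rw [he] at hz; exact hz.elim⟩
      · obtain ⟨m, hm, hmin⟩ := hR.exists_isMinOn hne hF.continuousOn
        refine ⟨F m, ?_, fun z hz => hmin hz⟩
        by_contra hcon
        exact hm.2 (hcov ⟨hm.1, not_lt.mp hcon⟩)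
    refine ⟨δ, hδ, fun ε h0 h => ⟨(hx.trans_lt h0).ne, ?_⟩⟩
    rintro ⟨K, hKs, hK, hxK, hyK⟩
    have hlt := TopT_lt hF hK (fun z hz => (hKs hz).2) hxK (hx.trans_lt h0)
    have hKO : K ⊆ O1 ∪ O2 := by
      intro z hz
      by_contra hcon
      have := hδR z ⟨(hKs hz).1, hcon⟩
      have := hlt z hz
      linarith
    obtain ⟨z, -, hz1, hz2⟩ := hK O1 O2 ho1 ho2 hKO ⟨x, hxK, hxO⟩ ⟨y, hyK, hyO⟩
    exact Set.disjoint_left.mp hdis hz1 hz2

private lemma TopT_min {ι : Type*} (s : Finset ι) (Q : ι → ℝ → Prop)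
    (h : ∀ i ∈ s, ∃ e : ℝ, 0 < e ∧ ∀ ε : ℝ, 0 < ε → ε < e → Q i ε) :
    ∃ e : ℝ, 0 < e ∧ ∀ ε : ℝ, 0 < ε → ε < e → ∀ i ∈ s, Q i ε := by
  classical
  induction s using Finset.induction_on with
  | empty => exact ⟨1, one_pos, fun ε _ _ i hi => absurd hi (Finset.notMem_empty i)⟩
  | insert a s ha ih =>
    obtain ⟨e1, he1, h1⟩ := h a (Finset.mem_insert_self a s)
    obtain ⟨e2, he2, h2⟩ := ih (fun i hi => h i (Finset.mem_insert_of_mem hi))
    refine ⟨min e1 e2, lt_min he1 he2, fun ε h0 hε i hi => ?_⟩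
    rcases Finset.mem_insert.mp hi with rfl | hi
    · exact h1 ε h0 (hε.trans_le (min_le_left _ _))
    · exact h2 ε h0 (hε.trans_le (min_le_right _ _)) i hi

theorem topT {X : Type*} [TopologicalSpace X] [T2Space X] (S : Set X) (hS : IsCompact S)
    (F : X → ℝ) (hF : Continuous F) (P : Finset X) (hP : ∀ x ∈ P, x ∈ S)
    (h1 : ∀ x ∈ P, ∀ y ∈ P, x ≠ y → 0 < F x → 0 < F y → ¬ Jn {z | z ∈ S ∧ 0 < F z} x y)
    (h2 : ∀ x ∈ P, ∀ y ∈ P, x ≠ y → F x ≤ 0 → F y ≤ 0 → ¬ Jn {z | z ∈ S ∧ F z ≤ 0} x y) :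
    ∃ ε0 : ℝ, 0 < ε0 ∧ ∀ ε : ℝ, 0 < ε → ε < ε0 → (∀ x ∈ P, F x ≠ ε) ∧
      ∀ x ∈ P, ∀ y ∈ P, x ≠ y → ¬ Jn {z | z ∈ S ∧ F z ≠ ε} x y := by
  obtain ⟨e1, he1, H1⟩ := TopT_min P (fun x ε => F x ≠ ε) (fun x _ => by
    rcases lt_or_ge 0 (F x) with hx | hx
    · exact ⟨F x, hx, fun ε _ h => h.ne'⟩
    · exact ⟨1, one_pos, fun ε h0 _ => (hx.trans_lt h0).ne⟩)
  obtain ⟨e2, he2, H2⟩ := TopT_min P
    (fun x ε => ∀ y ∈ P, x ≠ y → ¬ Jn {z | z ∈ S ∧ F z ≠ ε} x y) (fun x hx =>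
      TopT_min P (fun y ε => x ≠ y → ¬ Jn {z | z ∈ S ∧ F z ≠ ε} x y) (fun y hy => by
        by_cases hxy : x = y
        · exact ⟨1, one_pos, fun ε _ _ hne => absurd hxy hne⟩
        · obtain ⟨e, he, H⟩ := TopT_pair S hS F hF x y (hP x hx) (hP y hy)
            (h1 x hx y hy hxy) (h2 x hx y hy hxy)
          exact ⟨e, he, fun ε h0 h _ => (H ε h0 h).2⟩))
  refine ⟨min e1 e2, lt_min he1 he2, fun ε h0 hε => ⟨fun x hx => ?_, fun x hx y hy hxy => ?_⟩⟩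
  · exact H1 ε h0 (hε.trans_le (min_le_left _ _)) x hx
  · exact H2 ε h0 (hε.trans_le (min_le_right _ _)) x hx y hy hxy

end Pool.Agent.EVS
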