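import Pool.Agent.EVS.PlaneE
import Pool.Agent.EVS.GenD
import Pool.Agent.EVS.TopT
import Pool.Agent.EVS.TopP
import Pool.Agent.EVS.Pos

/-!
# Project EVS, module Fin: the theorem
-/

set_option autoImplicit false

namespace Pool.Agent.EVS

open MvPolynomial Pool.Agent.SHB Pool.Agent.OVL

private lemma mk_of_jn {X : Type*} [TopologicalSpace X] (p : X → Prop) (x y : {x : X // p x})
    (h : Jn {z | p z} x.1 y.1) : ConnectedComponents.mk x = ConnectedComponents.mk y := by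
  obtain ⟨K, hK, hc, hx, hy⟩ := h
  have h1 : IsPreconnected ((Subtype.val : {x : X // p x} → X) ⁻¹' K) := by
    have h2 : (Subtype.val : {x : X // p x} → X) '' ((Subtype.val : {x : X // p x} → X) ⁻¹' K) =
        K := by
      apply Set.image_preimage_eq_of_subset
      intro z hz
      exact ⟨⟨z, hK hz⟩, rfl⟩
    have hi : Topology.IsInducing (Subtype.val : {x : X // p x} → X) :=
      Topology.IsEmbedding.subtypeVal.isInducing
    rw [← hi.isPreconnected_image, h2]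
    exact hc
  exact ConnectedComponents.coe_eq_coe'.2
    (h1.subset_connectedComponent (x := y) hy hx)

private lemma jn_of_mk {X : Type*} [TopologicalSpace X] (p : X → Prop) (x y : {x : X // p x})
    (h : ConnectedComponents.mk x = ConnectedComponents.mk y) : Jn {z | p z} x.1 y.1 := by
  refine ⟨Subtype.val '' connectedComponent x, ?_, ?_, ⟨x, mem_connectedComponent, rfl⟩,
    ⟨y, ?_, rfl⟩⟩
  · rintro _ ⟨z, _, rfl⟩
    exact z.2
  · exact isPreconnected_connectedComponent.image _ continuous_subtype_val.continuousOn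
  · exact ConnectedComponents.coe_eq_coe'.1 h.symm

/-- the sign is constant on a connected set without zeros -/
private lemma sign_pos {X : Type*} [TopologicalSpace X] (F : X → ℝ) (hF : Continuous F)
    (K : Set X) (hK : IsPreconnected K) (h0 : ∀ z ∈ K, F z ≠ 0) (x : X) (hx : x ∈ K)
    (hx0 : 0 < F x) : ∀ z ∈ K, 0 < F z := by
  intro z hz
  by_contra hcon
  push Not at hcon
  have h1 := hK.intermediate_value hz hx hF.continuousOn
  obtain ⟨t, ht, ht0⟩ := h1 ⟨hcon, hx0.le⟩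
  exact h0 t ht ht0

private lemma sign_neg {X : Type*} [TopologicalSpace X] (F : X → ℝ) (hF : Continuous F)
    (K : Set X) (hK : IsPreconnected K) (h0 : ∀ z ∈ K, F z ≠ 0) (x : X) (hx : x ∈ K)
    (hx0 : F x < 0) : ∀ z ∈ K, F z < 0 := by
  intro z hz
  have := sign_pos (fun z => -F z) hF.neg K hK (fun z hz h => h0 z hz (neg_eq_zero.1 h)) x hx
    (by simpa using hx0) z hz
  simpa using this

private lemma rep_pos (u : MvPolynomial (Fin 3) ℝ) (l : ℕ) (hu : u.IsHomogeneous l) (a : ℂ)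
    (h0 : coeff (ex 0 0) (UU (cx u) a ((starRingEnd ℂ) a)) ≠ 0)
    (c : ConnectedComponents {x : Fin 3 → ℝ // ∑ i : Fin 3, x i ^ 2 = 1 ∧ 0 < eval x u}) :
    ∃ (w : ℂ) (h : ∑ i : Fin 3, gg a w i ^ 2 = 1 ∧ 0 < eval (gg a w) u),
      ConnectedComponents.mk (⟨gg a w, h⟩ : {x : Fin 3 → ℝ // ∑ i : Fin 3, x i ^ 2 = 1 ∧
        0 < eval x u}) = c := by
  obtain ⟨x, rfl⟩ := ConnectedComponents.surjective_coe c
  rcases rep u l hu a h0 x.1 x.2.1 with ⟨w, hw⟩ | ⟨hne, w, K, hK, hc, hx, hy⟩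
  · refine ⟨w, by rw [hw]; exact x.2, ?_⟩
    congr 1
    exact Subtype.ext hw
  · have hs := sign_pos (fun z => eval z u) (MvPolynomial.continuous_eval u) K hc
      (fun z hz => (hK hz).2) x.1 hx x.2.2
    have hg : ∑ i : Fin 3, gg a w i ^ 2 = 1 ∧ 0 < eval (gg a w) u := ⟨(hK hy).1, hs _ hy⟩
    refine ⟨w, hg, ?_⟩
    refine mk_of_jn (fun x : Fin 3 → ℝ => ∑ i : Fin 3, x i ^ 2 = 1 ∧ 0 < eval x u) ⟨gg a w, hg⟩ x
      ⟨K, ?_, hc, hy, hx⟩
    intro z hz
    exact ⟨(hK hz).1, hs z hz⟩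

private lemma rep_neg (u : MvPolynomial (Fin 3) ℝ) (l : ℕ) (hu : u.IsHomogeneous l) (a : ℂ)
    (h0 : coeff (ex 0 0) (UU (cx u) a ((starRingEnd ℂ) a)) ≠ 0)
    (c : ConnectedComponents {x : Fin 3 → ℝ // ∑ i : Fin 3, x i ^ 2 = 1 ∧ eval x u ≤ 0}) :
    ∃ (w : ℂ) (h : ∑ i : Fin 3, gg a w i ^ 2 = 1 ∧ eval (gg a w) u ≤ 0),
      ConnectedComponents.mk (⟨gg a w, h⟩ : {x : Fin 3 → ℝ // ∑ i : Fin 3, x i ^ 2 = 1 ∧
        eval x u ≤ 0}) = c := by
  obtain ⟨x, rfl⟩ := ConnectedComponents.surjective_coe c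
  rcases rep u l hu a h0 x.1 x.2.1 with ⟨w, hw⟩ | ⟨hne, w, K, hK, hc, hx, hy⟩
  · refine ⟨w, by rw [hw]; exact x.2, ?_⟩
    congr 1
    exact Subtype.ext hw
  · have hs := sign_neg (fun z => eval z u) (MvPolynomial.continuous_eval u) K hc
      (fun z hz => (hK hz).2) x.1 hx (lt_of_le_of_ne x.2.2 hne)
    have hg : ∑ i : Fin 3, gg a w i ^ 2 = 1 ∧ eval (gg a w) u ≤ 0 := ⟨(hK hy).1, (hs _ hy).le⟩
    refine ⟨w, hg, ?_⟩
    refine mk_of_jn (fun x : Fin 3 → ℝ => ∑ i : Fin 3, x i ^ 2 = 1 ∧ eval x u ≤ 0) ⟨gg a w, hg⟩ x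
      ⟨K, ?_, hc, hy, hx⟩
    intro z hz
    exact ⟨(hK hz).1, (hs z hz).le⟩

private lemma sph_compact : IsCompact Sph := by
  apply Metric.isCompact_of_isClosed_isBounded
  · exact isClosed_eq (by fun_prop) continuous_const
  · refine (Metric.isBounded_iff_subset_closedBall (0 : Fin 3 → ℝ)).2 ⟨1, ?_⟩
    intro x hx
    rw [mem_closedBall_zero_iff, pi_norm_le_iff_of_nonneg zero_le_one]
    intro i
    have hx' : ∑ i : Fin 3, x i ^ 2 = 1 := hx
    have h1 : x i ^ 2 ≤ ∑ i : Fin 3, x i ^ 2 :=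
      Finset.single_le_sum (f := fun i => x i ^ 2) (fun i _ => sq_nonneg _) (Finset.mem_univ i)
    rw [Real.norm_eq_abs]
    rw [hx'] at h1
    exact abs_le_one_iff_mul_self_le_one.2 (by nlinarith)

private lemma key (l : ℕ) (hl : 1 ≤ l) (u : MvPolynomial (Fin 3) ℝ) (hu : u.IsHomogeneous l)
    (harm : ∑ i : Fin 3, pderiv i (pderiv i u) = 0) (h0 : u ≠ 0)
    (A : Finset (ConnectedComponents {x : Fin 3 → ℝ // ∑ i : Fin 3, x i ^ 2 = 1 ∧ 0 < eval x u}))
    (B : Finset (ConnectedComponents {x : Fin 3 → ℝ // ∑ i : Fin 3, x i ^ 2 = 1 ∧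
      eval x u ≤ 0})) : A.card + B.card ≤ l * (l + 1) / 2 + 1 := by
  classical
  obtain ⟨a, hc0, hc1, hG⟩ := exists_axis u l hl hu harm h0
  have hsp : Spin l (UU (cx u) a ((starRingEnd ℂ) a)) :=
    spin_UU (cx u) l (cx_homog hu) (cx_harm harm) a _
  obtain ⟨ε2, hε2, hpl⟩ := planeE hsp hl (real_UU u a) hc0 hc1 hG
  have hRp := rep_pos u l hu a hc0
  have hRn := rep_neg u l hu a hc0
  choose w1 hw1 hm1 using hRp
  choose w2 hw2 hm2 using hRn
  have hpos : 0 < (1 + ‖a‖ ^ 2) ^ l := by positivity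
  set F : (Fin 3 → ℝ) → ℝ := fun z => (1 + ‖a‖ ^ 2) ^ l * eval z u with hF
  have hFc : Continuous F := continuous_const.mul (MvPolynomial.continuous_eval u)
  have F1 : ∀ z, 0 < F z ↔ 0 < eval z u := fun z => mul_pos_iff_of_pos_left hpos
  have F2 : ∀ z, F z ≤ 0 ↔ eval z u ≤ 0 := fun z => by
    constructor
    · intro h
      by_contra hcon
      exact absurd ((F1 z).2 (not_le.1 hcon)) (not_lt.2 h)
    · intro h
      by_contra hcon
      exact absurd ((F1 z).1 (not_le.1 hcon)) (not_lt.2 h)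
  set Q : Finset ℂ := A.image w1 ∪ B.image w2 with hQ
  have inj1 : Function.Injective w1 := by
    intro c c' h
    rw [← hm1 c, ← hm1 c']
    congr 1
    exact Subtype.ext (congrArg (gg a) h)
  have inj2 : Function.Injective w2 := by
    intro c c' h
    rw [← hm2 c, ← hm2 c']
    congr 1
    exact Subtype.ext (congrArg (gg a) h)
  have hdis : Disjoint (A.image w1) (B.image w2) := by
    rw [Finset.disjoint_left]
    intro w h1 h2
    obtain ⟨c, _, rfl⟩ := Finset.mem_image.1 h1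
    obtain ⟨c', _, h3⟩ := Finset.mem_image.1 h2
    have h4 := (hw2 c').2
    rw [h3] at h4
    exact absurd (hw1 c).2 (not_lt.2 h4)
  have hcard : Q.card = A.card + B.card := by
    rw [hQ, Finset.card_union_of_disjoint hdis, Finset.card_image_of_injective _ inj1,
      Finset.card_image_of_injective _ inj2]
  -- separation
  have sep1 : ∀ c c', c ≠ c' → ¬ Jn {z : Fin 3 → ℝ | z ∈ Sph ∧ 0 < F z} (gg a (w1 c))
      (gg a (w1 c')) := by
    rintro c c' hne ⟨K, hK, hcn, hx, hy⟩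
    apply hne
    rw [← hm1 c, ← hm1 c']
    refine mk_of_jn (fun x : Fin 3 → ℝ => ∑ i : Fin 3, x i ^ 2 = 1 ∧ 0 < eval x u) _ _
      ⟨K, ?_, hcn, hx, hy⟩
    intro z hz
    exact ⟨(hK hz).1, (F1 z).1 (hK hz).2⟩
  have sep2 : ∀ c c', c ≠ c' → ¬ Jn {z : Fin 3 → ℝ | z ∈ Sph ∧ F z ≤ 0} (gg a (w2 c))
      (gg a (w2 c')) := by
    rintro c c' hne ⟨K, hK, hcn, hx, hy⟩
    apply hne
    rw [← hm2 c, ← hm2 c']
    refine mk_of_jn (fun x : Fin 3 → ℝ => ∑ i : Fin 3, x i ^ 2 = 1 ∧ eval x u ≤ 0) _ _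
      ⟨K, ?_, hcn, hx, hy⟩
    intro z hz
    exact ⟨(hK hz).1, (F2 z).1 (hK hz).2⟩
  have ginj : ∀ w ∈ Q, ∀ w' ∈ Q, gg a w = gg a w' → w = w' := by
    intro w hw w' hw' h
    rcases Finset.mem_union.1 hw with h1 | h1 <;> rcases Finset.mem_union.1 hw' with h2 | h2
    · obtain ⟨c, _, rfl⟩ := Finset.mem_image.1 h1
      obtain ⟨c', _, rfl⟩ := Finset.mem_image.1 h2
      by_contra hne
      refine sep1 c c' (fun h3 => hne (by rw [h3])) ⟨{gg a (w1 c)}, ?_, isPreconnected_singleton,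
        rfl, h.symm⟩
      rintro _ rfl
      exact ⟨(hw1 c).1, (F1 _).2 (hw1 c).2⟩
    · obtain ⟨c, _, rfl⟩ := Finset.mem_image.1 h1
      obtain ⟨c', _, rfl⟩ := Finset.mem_image.1 h2
      have h4 := (hw2 c').2
      rw [← h] at h4
      exact absurd (hw1 c).2 (not_lt.2 h4)
    · obtain ⟨c, _, rfl⟩ := Finset.mem_image.1 h1
      obtain ⟨c', _, rfl⟩ := Finset.mem_image.1 h2
      have h4 := (hw2 c).2
      rw [h] at h4
      exact absurd (hw1 c').2 (not_lt.2 h4)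
    · obtain ⟨c, _, rfl⟩ := Finset.mem_image.1 h1
      obtain ⟨c', _, rfl⟩ := Finset.mem_image.1 h2
      by_contra hne
      refine sep2 c c' (fun h3 => hne (by rw [h3])) ⟨{gg a (w2 c)}, ?_, isPreconnected_singleton,
        rfl, h.symm⟩
      rintro _ rfl
      exact ⟨(hw2 c).1, (F2 _).2 (hw2 c).2⟩
  obtain ⟨ε0, hε0, htop⟩ := topT Sph sph_compact F hFc (Q.image (gg a)) (by
      intro x hx
      obtain ⟨w, _, rfl⟩ := Finset.mem_image.1 hx
      exact gg_sph a w) (by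
      intro x hx y hy hne hx0 hy0
      obtain ⟨w, hw, rfl⟩ := Finset.mem_image.1 hx
      obtain ⟨w', hw', rfl⟩ := Finset.mem_image.1 hy
      rw [F1] at hx0 hy0
      rcases Finset.mem_union.1 hw with h1 | h1
      · rcases Finset.mem_union.1 hw' with h2 | h2
        · obtain ⟨c, _, rfl⟩ := Finset.mem_image.1 h1
          obtain ⟨c', _, rfl⟩ := Finset.mem_image.1 h2
          exact sep1 c c' (fun h3 => hne (by rw [h3]))
        · obtain ⟨c', _, rfl⟩ := Finset.mem_image.1 h2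
          exact absurd hy0 (not_lt.2 (hw2 c').2)
      · obtain ⟨c, _, rfl⟩ := Finset.mem_image.1 h1
        exact absurd hx0 (not_lt.2 (hw2 c).2)) (by
      intro x hx y hy hne hx0 hy0
      obtain ⟨w, hw, rfl⟩ := Finset.mem_image.1 hx
      obtain ⟨w', hw', rfl⟩ := Finset.mem_image.1 hy
      rw [F2] at hx0 hy0
      rcases Finset.mem_union.1 hw with h1 | h1
      · obtain ⟨c, _, rfl⟩ := Finset.mem_image.1 h1
        exact absurd (hw1 c).2 (not_lt.2 hx0)
      · rcases Finset.mem_union.1 hw' with h2 | h2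
        · obtain ⟨c', _, rfl⟩ := Finset.mem_image.1 h2
          exact absurd (hw1 c').2 (not_lt.2 hy0)
        · obtain ⟨c, _, rfl⟩ := Finset.mem_image.1 h1
          obtain ⟨c', _, rfl⟩ := Finset.mem_image.1 h2
          exact sep2 c c' (fun h3 => hne (by rw [h3])))
  obtain ⟨ε, hε, hlt⟩ := exists_between (lt_min hε0 hε2)
  obtain ⟨e1, e2⟩ := lt_min_iff.1 hlt
  obtain ⟨t1, t2⟩ := htop ε hε e1
  obtain ⟨p1, p2⟩ := hpl ε hε e2
  rw [← hcard]
  refine le_trans ?_ p2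
  refine card_le u l hu a ε p1 Q ?_ ?_
  · intro w hw
    exact t1 _ (Finset.mem_image_of_mem _ hw)
  · intro w hw w' hw' hne
    exact t2 _ (Finset.mem_image_of_mem _ hw) _ (Finset.mem_image_of_mem _ hw')
      (fun h => hne (ginj w hw w' hw' h))

theorem final (l : ℕ) (hl : 1 ≤ l) (u : MvPolynomial (Fin 3) ℝ) (hu : u.IsHomogeneous l)
    (harm : ∑ i : Fin 3, pderiv i (pderiv i u) = 0) (h0 : u ≠ 0) :
    Finite (ConnectedComponents {x : Fin 3 → ℝ // ∑ i : Fin 3, x i ^ 2 = 1 ∧ 0 < eval x u}) ∧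
    Finite (ConnectedComponents {x : Fin 3 → ℝ // ∑ i : Fin 3, x i ^ 2 = 1 ∧ eval x u ≤ 0}) ∧
    Nat.card (ConnectedComponents {x : Fin 3 → ℝ // ∑ i : Fin 3, x i ^ 2 = 1 ∧ 0 < eval x u}) +
      Nat.card (ConnectedComponents {x : Fin 3 → ℝ // ∑ i : Fin 3, x i ^ 2 = 1 ∧ eval x u ≤ 0}) ≤
        l * (l + 1) / 2 + 1 ∧
    Nat.card (ConnectedComponents {x : Fin 3 → ℝ // ∑ i : Fin 3, x i ^ 2 = 1 ∧ 0 < eval x u}) ≤
      l * (l + 1) / 2 := by
  classical
  have hk := key l hl u hu harm h0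
  have f1 : Finite (ConnectedComponents {x : Fin 3 → ℝ // ∑ i : Fin 3, x i ^ 2 = 1 ∧
      0 < eval x u}) := by
    by_contra hcon
    have hinf := not_finite_iff_infinite.1 hcon
    obtain ⟨A, hA⟩ := Infinite.exists_subset_card_eq (ConnectedComponents {x : Fin 3 → ℝ //
      ∑ i : Fin 3, x i ^ 2 = 1 ∧ 0 < eval x u}) (l * (l + 1) / 2 + 2)
    have := hk A ∅
    simp only [Finset.card_empty] at this
    omega
  have f2 : Finite (ConnectedComponents {x : Fin 3 → ℝ // ∑ i : Fin 3, x i ^ 2 = 1 ∧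
      eval x u ≤ 0}) := by
    by_contra hcon
    have hinf := not_finite_iff_infinite.1 hcon
    obtain ⟨A, hA⟩ := Infinite.exists_subset_card_eq (ConnectedComponents {x : Fin 3 → ℝ //
      ∑ i : Fin 3, x i ^ 2 = 1 ∧ eval x u ≤ 0}) (l * (l + 1) / 2 + 2)
    have := hk ∅ A
    simp only [Finset.card_empty] at this
    omega
  let _ := Fintype.ofFinite (ConnectedComponents {x : Fin 3 → ℝ // ∑ i : Fin 3, x i ^ 2 = 1 ∧
      0 < eval x u})
  let _ := Fintype.ofFinite (ConnectedComponents {x : Fin 3 → ℝ // ∑ i : Fin 3, x i ^ 2 = 1 ∧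
      eval x u ≤ 0})
  have h3 := hk Finset.univ Finset.univ
  rw [Finset.card_univ, Finset.card_univ, ← Nat.card_eq_fintype_card,
    ← Nat.card_eq_fintype_card] at h3
  obtain ⟨x, hx, hx0⟩ := exists_nonpos u l hl hu harm
  have : Nonempty (ConnectedComponents {x : Fin 3 → ℝ // ∑ i : Fin 3, x i ^ 2 = 1 ∧
      eval x u ≤ 0}) := ⟨ConnectedComponents.mk ⟨x, hx, hx0⟩⟩
  have h4 : 0 < Nat.card (ConnectedComponents {x : Fin 3 → ℝ // ∑ i : Fin 3, x i ^ 2 = 1 ∧
      eval x u ≤ 0}) := Nat.card_pos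
  exact ⟨f1, f2, h3, by omega⟩

end Pool.Agent.EVS
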