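import Pool.Agent.EVS.Inv
import Pool.Agent.EVS.TopP
import Pool.Agent.EVS.Fin

/-!
# Project EVS, module Dom: nodal domains and components of `{u ≤ 0}`

A nodal domain on which `u` is positive, or whose closure has only regular zeros, is sent to the
component of one of its points in `{u > 0}`, resp. in `{u ≤ 0}`. This map is injective: a
preconnected subset of `{u ≤ 0}` meeting a domain of the second kind is contained in the closure
of this domain.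
-/

set_option autoImplicit false

namespace Pool.Agent.EVS

open MvPolynomial Pool.Agent.SHB Pool.Agent.OVL

private lemma Dom_mk_of_jn {X : Type*} [TopologicalSpace X] (p : X → Prop) (x y : {x : X // p x})
    (h : Jn {z | p z} x.1 y.1) : ConnectedComponents.mk x = ConnectedComponents.mk y := by
  obtain ⟨K, hK, hc, hx, hy⟩ := h
  have h1 : IsPreconnected ((Subtype.val : {x : X // p x} → X) ⁻¹' K) := by
    have h2 : (Subtype.val : {x : X // p x} → X) '' ((Subtype.val : {x : X // p x} → X) ⁻¹' K) =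
        K := by
      apply Set.image_preimage_eq_of_subset
      intro z hz
      exact ⟨⟨z, hK hz⟩, rfl⟩
    have hi : Topology.IsInducing (Subtype.val : {x : X // p x} → X) :=
      Topology.IsEmbedding.subtypeVal.isInducing
    rw [← hi.isPreconnected_image, h2]
    exact hc
  exact ConnectedComponents.coe_eq_coe'.2
    (h1.subset_connectedComponent (x := y) hy hx)

private lemma Dom_jn_of_mk {X : Type*} [TopologicalSpace X] (p : X → Prop) (x y : {x : X // p x})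
    (h : ConnectedComponents.mk x = ConnectedComponents.mk y) : Jn {z | p z} x.1 y.1 := by
  refine ⟨Subtype.val '' connectedComponent x, ?_, ?_, ⟨x, mem_connectedComponent, rfl⟩,
    ⟨y, ?_, rfl⟩⟩
  · rintro _ ⟨z, _, rfl⟩
    exact z.2
  · exact isPreconnected_connectedComponent.image _ continuous_subtype_val.continuousOn
  · exact ConnectedComponents.coe_eq_coe'.1 h.symm

/-- the sign is constant on a connected set without zeros -/
private lemma Dom_sign {X : Type*} [TopologicalSpace X] (F : X → ℝ) (hF : Continuous F)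
    (K : Set X) (hK : IsPreconnected K) (h0 : ∀ z ∈ K, F z ≠ 0) (x : X) (hx : x ∈ K)
    (hx0 : 0 < F x) : ∀ z ∈ K, 0 < F z := by
  intro z hz
  by_contra hcon
  push Not at hcon
  have h1 := hK.intermediate_value hz hx hF.continuousOn
  obtain ⟨t, ht, ht0⟩ := h1 ⟨hcon, hx0.le⟩
  exact h0 t ht ht0

/-- every point of the sphere is in the range of one of the charts -/
private lemma Dom_surj (z : Fin 3 → ℝ) (hz : z ∈ Sph) : ∃ a w : ℂ, gg a w = z := by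
  rcases stereo 0 z hz with ⟨w, t, ht, h⟩ | ⟨t, ht, h⟩
  · exact ⟨0, w, gg_of_pos 0 w z hz t ht h⟩
  · rcases stereo 1 z hz with ⟨w, t', ht', h'⟩ | ⟨t', ht', h'⟩
    · exact ⟨1, w, gg_of_pos 1 w z hz t' ht' h'⟩
    · exfalso
      have e1 : sphV 0 0 0 = 0 := by simp [sphV, phi, frP, frA, frB]
      have e2 : sphV 1 0 0 = 2 := by
        simp [sphV, phi, frP, frA, frB]
        norm_num
      rw [h, Pi.smul_apply, smul_eq_mul] at e1
      rw [h', Pi.smul_apply, smul_eq_mul] at e2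
      rcases mul_eq_zero.1 e1 with h3 | h3
      · exact ht.ne h3
      · rw [h3, mul_zero] at e2
        norm_num at e2

/-- the set of non-zeros on the sphere -/
private def Dom_A (u : MvPolynomial (Fin 3) ℝ) : Set (Fin 3 → ℝ) :=
  {z | ∑ i : Fin 3, z i ^ 2 = 1 ∧ eval z u ≠ 0}

/-- near a point that is not a zero -/
private lemma Dom_loc1 (u : MvPolynomial (Fin 3) ℝ) (z : Fin 3 → ℝ) (hz : z ∈ Sph)
    (h0 : eval z u ≠ 0) :
    ∃ O : Set (Fin 3 → ℝ), IsOpen O ∧ z ∈ O ∧ ∀ y ∈ O, y ∈ Sph → Jn (Dom_A u) z y := by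
  obtain ⟨a, w, rfl⟩ := Dom_surj z hz
  have hc : Continuous fun w' : ℂ => eval (gg a w') u :=
    (MvPolynomial.continuous_eval u).comp (gg_cont a)
  obtain ⟨ε, hε, hball⟩ := Metric.eventually_nhds_iff.1 (hc.continuousAt.eventually_ne h0)
  obtain ⟨O, hO, hwO, hsub⟩ := gg_open a w (Metric.ball w ε) Metric.isOpen_ball
    (Metric.mem_ball_self hε)
  refine ⟨O, hO, hwO, ?_⟩
  intro y hy hyS
  obtain ⟨w', hw', rfl⟩ := hsub y hy hyS
  refine ⟨gg a '' Metric.ball w ε, ?_, ?_, ⟨w, Metric.mem_ball_self hε, rfl⟩, ⟨w', hw', rfl⟩⟩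
  · rintro _ ⟨v, hv, rfl⟩
    exact ⟨gg_sph a v, hball hv⟩
  · exact (convex_ball w ε).isPreconnected.image _ (gg_cont a).continuousOn

/-- near a regular zero -/
private lemma Dom_loc2 (u : MvPolynomial (Fin 3) ℝ) (l : ℕ) (hu : u.IsHomogeneous l)
    (z : Fin 3 → ℝ) (hz : z ∈ Sph) (h0 : eval z u = 0)
    (hr : ∃ i : Fin 3, eval z (pderiv i u) ≠ 0) :
    ∃ O N : Set (Fin 3 → ℝ), IsOpen O ∧ z ∈ O ∧ IsPreconnected N ∧ N ⊆ Dom_A u ∧
      (∀ y ∈ O, y ∈ Sph → eval y u < 0 → y ∈ N) ∧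
      (∀ y ∈ O, y ∈ Sph → eval y u = 0 → y ∈ closure N) := by
  obtain ⟨a, w, rfl⟩ := Dom_surj z hz
  have hpos : ∀ v : ℂ, 0 < ((1 + ‖a‖ ^ 2) * (1 + ‖v‖ ^ 2)) ^ l := fun v => by positivity
  have hV := Vf_gg u l hu a
  set U := UU (cx u) a ((starRingEnd ℂ) a) with hU
  have hV0 : Vf U w = 0 := by rw [hV, h0, mul_zero]
  have hD : eval ![w, (starRingEnd ℂ) w] (pderiv 0 U) ≠ 0 := by
    intro h1
    obtain ⟨i, hi⟩ := hr
    exact hi (grad_zero u l hu a w hV0 h1 i)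
  obtain ⟨L, hL0, hL⟩ := vf_strict U (real_UU u a) w hD
  have hVc : Continuous (Vf U) := by
    have h1 : Vf U = fun v => ((1 + ‖a‖ ^ 2) * (1 + ‖v‖ ^ 2)) ^ l * eval (gg a v) u := by
      funext v
      exact hV v
    rw [h1]
    have h2 : Continuous fun v : ℂ => ((1 + ‖a‖ ^ 2) * (1 + ‖v‖ ^ 2)) ^ l := by fun_prop
    exact h2.mul ((MvPolynomial.continuous_eval u).comp (gg_cont a))
  obtain ⟨O, hO, hwO, P, M, -, hM, hZ⟩ := good_of_strict (Vf U) hVc w hV0 L hL0 hL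
  obtain ⟨O', hO', hwO', hsub⟩ := gg_open a w O hO hwO
  have hne : ∀ v : ℂ, Vf U v ≠ 0 → eval (gg a v) u ≠ 0 := by
    intro v hv h1
    apply hv
    rw [hV, h1, mul_zero]
  refine ⟨O', gg a '' cset (Vf U) M, hO', hwO', ?_, ?_, ?_, ?_⟩
  · apply IsPreconnected.image _ _ (gg_cont a).continuousOn
    obtain ⟨m, rfl⟩ := ConnectedComponents.surjective_coe M
    have h1 : cset (Vf U) (m : ConnectedComponents _) = Subtype.val '' connectedComponent m := by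
      ext v
      constructor
      · rintro ⟨hv, hv2⟩
        exact ⟨⟨v, hv⟩, ConnectedComponents.coe_eq_coe'.1 hv2, rfl⟩
      · rintro ⟨v', hv', rfl⟩
        exact ⟨v'.2, ConnectedComponents.coe_eq_coe'.2 hv'⟩
    rw [h1]
    exact isPreconnected_connectedComponent.image _ continuous_subtype_val.continuousOn
  · rintro _ ⟨v, ⟨hv, -⟩, rfl⟩
    exact ⟨gg_sph a v, hne v hv⟩
  · intro y hy hyS hy0
    obtain ⟨w', hw', rfl⟩ := hsub y hy hyS
    refine ⟨w', hM w' hw' ?_, rfl⟩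
    rw [hV]
    exact mul_neg_of_pos_of_neg (hpos w') hy0
  · intro y hy hyS hy0
    obtain ⟨w', hw', rfl⟩ := hsub y hy hyS
    have h1 := (hZ w' hw' (by rw [hV, hy0, mul_zero])).2
    exact image_closure_subset_closure_image (gg_cont a) ⟨w', h1, rfl⟩

/-- a component as a set -/
private def Dom_N (u : MvPolynomial (Fin 3) ℝ) (D : ConnectedComponents
    {x : Fin 3 → ℝ // ∑ i : Fin 3, x i ^ 2 = 1 ∧ eval x u ≠ 0}) : Set (Fin 3 → ℝ) :=
  {y : Fin 3 → ℝ | ∃ h : ∑ i : Fin 3, y i ^ 2 = 1 ∧ eval y u ≠ 0,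
    ConnectedComponents.mk ⟨y, h⟩ = D}

private lemma Dom_mem (u : MvPolynomial (Fin 3) ℝ) (D : ConnectedComponents
    {x : Fin 3 → ℝ // ∑ i : Fin 3, x i ^ 2 = 1 ∧ eval x u ≠ 0}) (x y : Fin 3 → ℝ)
    (hx : x ∈ Dom_N u D) (h : Jn (Dom_A u) x y) : y ∈ Dom_N u D := by
  obtain ⟨hx1, hx2⟩ := hx
  have hy : ∑ i : Fin 3, y i ^ 2 = 1 ∧ eval y u ≠ 0 := by
    obtain ⟨K, hK, -, -, hy⟩ := h
    exact hK hy
  refine ⟨hy, ?_⟩
  rw [← hx2]
  exact (Dom_mk_of_jn (fun x : Fin 3 → ℝ => ∑ i : Fin 3, x i ^ 2 = 1 ∧ eval x u ≠ 0) ⟨x, hx1⟩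
    ⟨y, hy⟩ h).symm

private lemma Dom_jn_symm {X : Type*} [TopologicalSpace X] {A : Set X} {x y : X}
    (h : Jn A x y) : Jn A y x := by
  obtain ⟨K, h1, h2, h3, h4⟩ := h
  exact ⟨K, h1, h2, h4, h3⟩

private lemma Dom_neg (u : MvPolynomial (Fin 3) ℝ) (D : ConnectedComponents
    {x : Fin 3 → ℝ // ∑ i : Fin 3, x i ^ 2 = 1 ∧ eval x u ≠ 0}) (x y : Fin 3 → ℝ)
    (hx : x ∈ Dom_N u D) (hy : y ∈ Dom_N u D) (h : eval x u < 0) : eval y u < 0 := by
  obtain ⟨hx1, hx2⟩ := hx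
  obtain ⟨hy1, hy2⟩ := hy
  obtain ⟨K, hK, hc, h1, h2⟩ := Dom_jn_of_mk (fun x : Fin 3 → ℝ => ∑ i : Fin 3, x i ^ 2 = 1 ∧
    eval x u ≠ 0) ⟨x, hx1⟩ ⟨y, hy1⟩ (hx2.trans hy2.symm)
  have := Dom_sign (fun z => -eval z u) (MvPolynomial.continuous_eval u).neg K hc
    (fun z hz h3 => (hK hz).2 (neg_eq_zero.1 h3)) x h1 (by simpa using h) y h2
  simpa using this

/-- a point of the closure of a component which is not a zero is in the component -/
private lemma Dom_clos (u : MvPolynomial (Fin 3) ℝ) (D : ConnectedComponents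
    {x : Fin 3 → ℝ // ∑ i : Fin 3, x i ^ 2 = 1 ∧ eval x u ≠ 0}) (z : Fin 3 → ℝ) (hz : z ∈ Sph)
    (h0 : eval z u ≠ 0) (hc : z ∈ closure (Dom_N u D)) :
    ∃ O : Set (Fin 3 → ℝ), IsOpen O ∧ z ∈ O ∧ ∀ y ∈ O, y ∈ Sph → y ∈ Dom_N u D := by
  obtain ⟨O, hO, hzO, hJ⟩ := Dom_loc1 u z hz h0
  obtain ⟨y0, hy0, hy0N⟩ := mem_closure_iff.1 hc O hO hzO
  have hzN : z ∈ Dom_N u D := Dom_mem u D y0 z hy0N (Dom_jn_symm (hJ y0 hy0 hy0N.1.1))
  exact ⟨O, hO, hzO, fun y hy hyS => Dom_mem u D z y hzN (hJ y hy hyS)⟩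

private lemma Dom_step (u : MvPolynomial (Fin 3) ℝ) (l : ℕ) (hu : u.IsHomogeneous l)
    (D : ConnectedComponents {x : Fin 3 → ℝ // ∑ i : Fin 3, x i ^ 2 = 1 ∧ eval x u ≠ 0})
    (hneg : ∀ x ∈ Dom_N u D, eval x u < 0)
    (hreg : ∀ x ∈ closure (Dom_N u D), eval x u = 0 → ∃ i : Fin 3, eval x (pderiv i u) ≠ 0)
    (z : Fin 3 → ℝ) (hz : z ∈ Sph) (hc : z ∈ closure (Dom_N u D)) :
    ∃ O : Set (Fin 3 → ℝ), IsOpen O ∧ z ∈ O ∧
      ∀ y ∈ O, y ∈ Sph → eval y u ≤ 0 → y ∈ closure (Dom_N u D) := by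
  by_cases h0 : eval z u = 0
  · obtain ⟨O, N, hO, hzO, hN, hNA, h1, h2⟩ := Dom_loc2 u l hu z hz h0 (hreg z hc h0)
    obtain ⟨y0, hy0, hy0N⟩ := mem_closure_iff.1 hc O hO hzO
    have hy0' : y0 ∈ N := h1 y0 hy0 hy0N.1.1 (hneg y0 hy0N)
    have hsub : N ⊆ Dom_N u D := fun y hy =>
      Dom_mem u D y0 y hy0N ⟨N, hNA, hN, hy0', hy⟩
    refine ⟨O, hO, hzO, fun y hy hyS hle => ?_⟩
    rcases lt_or_eq_of_le hle with h3 | h3
    · exact subset_closure (hsub (h1 y hy hyS h3))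
    · exact closure_mono hsub (h2 y hy hyS h3)
  · obtain ⟨O, hO, hzO, hJ⟩ := Dom_clos u D z hz h0 hc
    exact ⟨O, hO, hzO, fun y hy hyS _ => subset_closure (hJ y hy hyS)⟩

private lemma Dom_sub (u : MvPolynomial (Fin 3) ℝ) (l : ℕ) (hu : u.IsHomogeneous l)
    (D : ConnectedComponents {x : Fin 3 → ℝ // ∑ i : Fin 3, x i ^ 2 = 1 ∧ eval x u ≠ 0})
    (hneg : ∀ x ∈ Dom_N u D, eval x u < 0)
    (hreg : ∀ x ∈ closure (Dom_N u D), eval x u = 0 → ∃ i : Fin 3, eval x (pderiv i u) ≠ 0)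
    (K : Set (Fin 3 → ℝ)) (hK : IsPreconnected K) (hKS : ∀ y ∈ K, y ∈ Sph ∧ eval y u ≤ 0)
    (x : Fin 3 → ℝ) (hx : x ∈ K) (hxD : x ∈ Dom_N u D) : K ⊆ closure (Dom_N u D) := by
  by_contra hcon
  obtain ⟨y, hyK, hyC⟩ := Set.not_subset.1 hcon
  set G : Set (Fin 3 → ℝ) := ⋃₀ {O | IsOpen O ∧ ∀ y ∈ O, y ∈ Sph → eval y u ≤ 0 →
    y ∈ closure (Dom_N u D)} with hG
  have hGo : IsOpen G := isOpen_sUnion fun O hO => hO.1
  have hGK : ∀ z ∈ K, z ∈ closure (Dom_N u D) → z ∈ G := by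
    intro z hz hzC
    obtain ⟨O, hO, hzO, h⟩ := Dom_step u l hu D hneg hreg z (hKS z hz).1 hzC
    exact ⟨O, ⟨hO, h⟩, hzO⟩
  obtain ⟨z, hzK, ⟨O, hO, hzO⟩, hzC⟩ := hK G (closure (Dom_N u D))ᶜ hGo isClosed_closure.isOpen_compl
    (fun z hz => by
      by_cases h : z ∈ closure (Dom_N u D)
      · exact Or.inl (hGK z hz h)
      · exact Or.inr h)
    ⟨x, hx, hGK x hx (subset_closure hxD)⟩ ⟨y, hyK, hyC⟩
  exact hzC (hO.2 z hzO (hKS z hzK).1 (hKS z hzK).2)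

theorem dom (l : ℕ) (hl : 1 ≤ l) (u : MvPolynomial (Fin 3) ℝ) (hu : u.IsHomogeneous l)
    (harm : ∑ i : Fin 3, pderiv i (pderiv i u) = 0) (h0 : u ≠ 0) :
    {D : ConnectedComponents {x : Fin 3 → ℝ // ∑ i : Fin 3, x i ^ 2 = 1 ∧ eval x u ≠ 0} |
        (∃ (x : Fin 3 → ℝ) (h : ∑ i : Fin 3, x i ^ 2 = 1 ∧ eval x u ≠ 0),
          ConnectedComponents.mk ⟨x, h⟩ = D ∧ 0 < eval x u) ∨
        ∀ x ∈ closure {y : Fin 3 → ℝ | ∃ h : ∑ i : Fin 3, y i ^ 2 = 1 ∧ eval y u ≠ 0,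
          ConnectedComponents.mk ⟨y, h⟩ = D},
          eval x u = 0 → ∃ i : Fin 3, eval x (pderiv i u) ≠ 0}.ncard ≤
      Nat.card (ConnectedComponents {x : Fin 3 → ℝ // ∑ i : Fin 3, x i ^ 2 = 1 ∧ 0 < eval x u}) +
      Nat.card (ConnectedComponents {x : Fin 3 → ℝ // ∑ i : Fin 3, x i ^ 2 = 1 ∧
        eval x u ≤ 0}) := by
  classical
  obtain ⟨f1, f2, -, -⟩ := final l hl u hu harm h0
  have hrep : ∀ D : ConnectedComponents {x : Fin 3 → ℝ // ∑ i : Fin 3, x i ^ 2 = 1 ∧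
      eval x u ≠ 0}, ∃ x : Fin 3 → ℝ, x ∈ Dom_N u D := by
    intro D
    obtain ⟨x, rfl⟩ := ConnectedComponents.surjective_coe D
    exact ⟨x.1, x.2, rfl⟩
  choose p hp using hrep
  rw [← Nat.card_sum, ← Set.ncard_univ]
  refine Set.ncard_le_ncard_of_injOn
    (fun D => if h : 0 < eval (p D) u then
        Sum.inl (ConnectedComponents.mk ⟨p D, (hp D).1.1, h⟩)
      else Sum.inr (ConnectedComponents.mk ⟨p D, (hp D).1.1, not_lt.1 h⟩))
    (fun _ _ => Set.mem_univ _) ?_ Set.finite_univ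
  have hlt : ∀ D, ¬ 0 < eval (p D) u → eval (p D) u < 0 := fun D h =>
    lt_of_le_of_ne (not_lt.1 h) (hp D).1.2
  intro D hD D' hD' heq
  simp only at heq
  by_cases h : 0 < eval (p D) u
  · by_cases h' : 0 < eval (p D') u
    · rw [dif_pos h, dif_pos h'] at heq
      obtain ⟨K, hK, hc, k1, k2⟩ := Dom_jn_of_mk (fun x : Fin 3 → ℝ => ∑ i : Fin 3, x i ^ 2 = 1 ∧
        0 < eval x u) _ _ (Sum.inl.inj heq)
      have hm := Dom_mem u D (p D) (p D') (hp D) ⟨K, fun z hz => ⟨(hK hz).1, (hK hz).2.ne'⟩,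
        hc, k1, k2⟩
      obtain ⟨m1, m2⟩ := hm
      exact m2.symm.trans (hp D').2
    · rw [dif_pos h, dif_neg h'] at heq
      exact absurd heq (by simp)
  · by_cases h' : 0 < eval (p D') u
    · rw [dif_neg h, dif_pos h'] at heq
      exact absurd heq (by simp)
    · rw [dif_neg h, dif_neg h'] at heq
      obtain ⟨K, hK, hc, k1, k2⟩ := Dom_jn_of_mk (fun x : Fin 3 → ℝ => ∑ i : Fin 3, x i ^ 2 = 1 ∧
        eval x u ≤ 0) _ _ (Sum.inr.inj heq)
      have hneg : ∀ x ∈ Dom_N u D, eval x u < 0 := fun x hx =>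
        Dom_neg u D (p D) x (hp D) hx (hlt D h)
      have hreg : ∀ x ∈ closure (Dom_N u D), eval x u = 0 →
          ∃ i : Fin 3, eval x (pderiv i u) ≠ 0 := by
        rcases hD with ⟨x, hx, hxD, hx0⟩ | hD
        · exact absurd (hneg x ⟨hx, hxD⟩) (not_lt.2 hx0.le)
        · exact hD
      have hsub := Dom_sub u l hu D hneg hreg K hc (fun z hz => hK hz) (p D) k1 (hp D)
      obtain ⟨O, -, hzO, hO⟩ := Dom_clos u D (p D') (hp D').1.1 (hp D').1.2 (hsub k2)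
      obtain ⟨m1, m2⟩ := hO (p D') hzO (hp D').1.1
      exact m2.symm.trans (hp D').2

end Pool.Agent.EVS
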