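import Pool.Agent.EVS.Alg

/-!
# Project EVS, module Exp: leading terms at a zero

Leading terms `α (X 0 - w0)^m + conj α (X 1 - conj w0)^m` modulo the power `m + 1` of the ideal of the point: of `U` (by the
recursion `Spin.shift_rec` for the Taylor coefficients), of `Dx P` and `Dy P`, and the resulting estimate for the values.
-/

set_option autoImplicit false

namespace Pool.Agent.EVS

open MvPolynomial Pool.Agent.SHB Pool.Agent.OVL

private theorem Exp_coeff0 (c : ℂ) (n i j : ℕ) :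
    coeff (ex i j) (C c * X 0 ^ n : P2) = if i = n ∧ j = 0 then c else 0 := by
  rw [coeff_C_mul, X_pow_eq_monomial, single0, coeff_monomial]
  by_cases h : i = n ∧ j = 0
  · rw [if_pos h, if_pos (ex_inj.2 ⟨h.1.symm, h.2.symm⟩), mul_one]
  · rw [if_neg h, if_neg (fun h' => h ⟨(ex_inj.1 h').1.symm, (ex_inj.1 h').2.symm⟩), mul_zero]

private theorem Exp_coeff1 (c : ℂ) (n i j : ℕ) :
    coeff (ex i j) (C c * X 1 ^ n : P2) = if i = 0 ∧ j = n then c else 0 := by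
  rw [coeff_C_mul, X_pow_eq_monomial, single1, coeff_monomial]
  by_cases h : i = 0 ∧ j = n
  · rw [if_pos h, if_pos (ex_inj.2 ⟨h.1.symm, h.2.symm⟩), mul_one]
  · rw [if_neg h, if_neg (fun h' => h ⟨(ex_inj.1 h').1.symm, (ex_inj.1 h').2.symm⟩), mul_zero]

private theorem Exp_shift (a b c c' : ℂ) (U : P2) (n : ℕ) :
    shift a b (U - C c * (X 0 - C a) ^ n - C c' * (X 1 - C b) ^ n) =
      shift a b U - C c * X 0 ^ n - C c' * X 1 ^ n := by
  simp only [shift, map_sub, map_mul, map_pow, aeval_X, aeval_C, MvPolynomial.algebraMap_eq]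
  simp

theorem lead_U {l : ℕ} {U : P2} (hU : Spin l U) (hR : RealP U) (w0 : ℂ) (n : ℕ) (hn : 1 ≤ n)
    (h : U ∈ ptI w0 ((starRingEnd ℂ) w0) ^ n) :
    Lead U w0 n (coeff (ex n 0) (shift w0 ((starRingEnd ℂ) w0) U)) := by
  unfold Lead
  have h0 := (mem_ptI_pow_iff _ _ _ _).1 h
  have hT := RealP.shift hR w0
  have hrec := hU.shift_rec w0 ((starRingEnd ℂ) w0)
  rw [mem_ptI_pow_iff]
  intro i j hij
  rw [Exp_shift, coeff_sub, coeff_sub, Exp_coeff0, Exp_coeff1]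
  rcases Nat.lt_or_ge (i + j) n with h1 | h1
  · rw [h0 i j h1, if_neg (by omega), if_neg (by omega)]
    ring
  · have h2 : i + j = n := by omega
    rcases Nat.eq_zero_or_pos i with h3 | h3
    · subst h3
      rw [if_neg (by omega), if_pos ⟨rfl, by omega⟩, show j = n by omega, hT n 0]
      ring
    · rcases Nat.eq_zero_or_pos j with h4 | h4
      · subst h4
        rw [if_pos ⟨by omega, rfl⟩, if_neg (by omega), show i = n by omega]
        ring
      · rw [if_neg (by omega), if_neg (by omega), sub_zero, sub_zero]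
        obtain ⟨i, rfl⟩ : ∃ i', i = i' + 1 := ⟨i - 1, by omega⟩
        obtain ⟨j, rfl⟩ : ∃ j', j = j' + 1 := ⟨j - 1, by omega⟩
        have h5 := hrec i j
        rw [h0 (i + 1) j (by omega), h0 i (j + 1) (by omega), h0 i j (by omega)] at h5
        have h6 : (1 + w0 * (starRingEnd ℂ) w0) * (((i : ℂ) + 1) * ((j : ℂ) + 1)) ≠ 0 := by
          refine mul_ne_zero ?_ (mul_ne_zero (Nat.cast_add_one_ne_zero i) (Nat.cast_add_one_ne_zero j))
          rw [Complex.mul_conj]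
          have h7 : (0 : ℝ) < 1 + Complex.normSq w0 := by
            have := Complex.normSq_nonneg w0
            linarith
          exact_mod_cast h7.ne'
        have h7 : (1 + w0 * (starRingEnd ℂ) w0) * (((i : ℂ) + 1) * ((j : ℂ) + 1)) *
            coeff (ex (i + 1) (j + 1)) (shift w0 ((starRingEnd ℂ) w0) U) = 0 := by
          rw [h5]
          ring
        exact (mul_eq_zero.1 h7).resolve_left h6

private theorem Exp_p00 (a : ℂ) (m : ℕ) : pderiv 0 ((X 0 - C a) ^ (m + 1) : P2) = C ((m : ℂ) + 1) * (X 0 - C a) ^ m := by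
  rw [pderiv_pow, map_sub, pderiv_C, pderiv_X_self, sub_zero, mul_one, Nat.add_sub_cancel]
  simp

private theorem Exp_p10 (a : ℂ) (m : ℕ) : pderiv 1 ((X 0 - C a) ^ (m + 1) : P2) = 0 := by
  rw [pderiv_pow, map_sub, pderiv_C, pderiv_X_of_ne (by decide), sub_zero, mul_zero]

private theorem Exp_p01 (a : ℂ) (m : ℕ) : pderiv 0 ((X 1 - C a) ^ (m + 1) : P2) = 0 := by
  rw [pderiv_pow, map_sub, pderiv_C, pderiv_X_of_ne (by decide), sub_zero, mul_zero]

private theorem Exp_p11 (a : ℂ) (m : ℕ) : pderiv 1 ((X 1 - C a) ^ (m + 1) : P2) = C ((m : ℂ) + 1) * (X 1 - C a) ^ m := by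
  rw [pderiv_pow, map_sub, pderiv_C, pderiv_X_self, sub_zero, mul_one, Nat.add_sub_cancel]
  simp

private theorem Exp_h (a b : ℂ) (k : ℕ) : (X 0 - C a : P2) ^ k ∈ ptI a b ^ k := by
  refine Ideal.pow_mem_pow ?_ k
  unfold ptI
  exact Ideal.subset_span (Set.mem_insert _ _)

private theorem Exp_h' (a b : ℂ) (k : ℕ) : (X 1 - C b : P2) ^ k ∈ ptI a b ^ k := by
  refine Ideal.pow_mem_pow ?_ k
  unfold ptI
  exact Ideal.subset_span (Set.mem_insert_of_mem _ (Set.mem_singleton _))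

theorem lead_Dx {P : P2} {w0 : ℂ} {m : ℕ} {α : ℂ} (h : Lead P w0 (m + 1) α) :
    Lead (Dx P) w0 m (((m : ℂ) + 1) * α * w0) := by
  unfold Lead at h ⊢
  have h1 : Dx P - C (((m : ℂ) + 1) * α * w0) * (X 0 - C w0) ^ m -
      C ((starRingEnd ℂ) (((m : ℂ) + 1) * α * w0)) * (X 1 - C ((starRingEnd ℂ) w0)) ^ m =
      (X 0 * pderiv 0 (P - C α * (X 0 - C w0) ^ (m + 1) -
        C ((starRingEnd ℂ) α) * (X 1 - C ((starRingEnd ℂ) w0)) ^ (m + 1)) +
      X 1 * pderiv 1 (P - C α * (X 0 - C w0) ^ (m + 1) -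
        C ((starRingEnd ℂ) α) * (X 1 - C ((starRingEnd ℂ) w0)) ^ (m + 1))) +
      C (α * ((m : ℂ) + 1)) * (X 0 - C w0) ^ (m + 1) +
      C ((starRingEnd ℂ) α * ((m : ℂ) + 1)) * (X 1 - C ((starRingEnd ℂ) w0)) ^ (m + 1) := by
    unfold Dx
    simp only [map_sub, pderiv_C_mul, Exp_p00, Exp_p10, Exp_p01, Exp_p11, map_mul, map_add, map_one,
      map_natCast]
    ring
  rw [h1]
  have h2 := pderiv_mem _ _ _ _ h 0
  have h3 := pderiv_mem _ _ _ _ h 1
  exact add_mem (add_mem (add_mem (Ideal.mul_mem_left _ _ h2) (Ideal.mul_mem_left _ _ h3))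
    (Ideal.mul_mem_left _ _ (Exp_h _ _ _))) (Ideal.mul_mem_left _ _ (Exp_h' _ _ _))

theorem lead_Dy {P : P2} {w0 : ℂ} {m : ℕ} {α : ℂ} (h : Lead P w0 (m + 1) α) :
    Lead (Dy P) w0 m (Complex.I * (((m : ℂ) + 1) * α * w0)) := by
  unfold Lead at h ⊢
  have h1 : Dy P - C (Complex.I * (((m : ℂ) + 1) * α * w0)) * (X 0 - C w0) ^ m -
      C ((starRingEnd ℂ) (Complex.I * (((m : ℂ) + 1) * α * w0))) * (X 1 - C ((starRingEnd ℂ) w0)) ^ m =
      C Complex.I * (X 0 * pderiv 0 (P - C α * (X 0 - C w0) ^ (m + 1) -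
        C ((starRingEnd ℂ) α) * (X 1 - C ((starRingEnd ℂ) w0)) ^ (m + 1)) -
      X 1 * pderiv 1 (P - C α * (X 0 - C w0) ^ (m + 1) -
        C ((starRingEnd ℂ) α) * (X 1 - C ((starRingEnd ℂ) w0)) ^ (m + 1))) +
      C (Complex.I * (α * ((m : ℂ) + 1))) * (X 0 - C w0) ^ (m + 1) +
      C (-(Complex.I * ((starRingEnd ℂ) α * ((m : ℂ) + 1)))) * (X 1 - C ((starRingEnd ℂ) w0)) ^ (m + 1) := by
    unfold Dy rotW
    simp only [map_sub, pderiv_C_mul, Exp_p00, Exp_p10, Exp_p01, Exp_p11, map_mul, map_add, map_one,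
      map_natCast, map_neg, Complex.conj_I]
    ring
  rw [h1]
  have h2 := pderiv_mem _ _ _ _ h 0
  have h3 := pderiv_mem _ _ _ _ h 1
  exact add_mem (add_mem (Ideal.mul_mem_left _ _ (sub_mem (Ideal.mul_mem_left _ _ h2) (Ideal.mul_mem_left _ _ h3)))
    (Ideal.mul_mem_left _ _ (Exp_h _ _ _))) (Ideal.mul_mem_left _ _ (Exp_h' _ _ _))

private theorem Exp_bd {w0 : ℂ} {k : ℕ} {Q : P2} (hQ : Q ∈ ptI w0 ((starRingEnd ℂ) w0) ^ k) :
    ∃ K : ℝ, 0 ≤ K ∧ ∀ t : ℂ, ‖t‖ ≤ 1 →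
      ‖eval ![w0 + t, (starRingEnd ℂ) (w0 + t)] Q‖ ≤ K * ‖t‖ ^ k := by
  have h0 := (mem_ptI_pow_iff _ _ _ _).1 hQ
  obtain ⟨T, hT⟩ : ∃ T, T = shift w0 ((starRingEnd ℂ) w0) Q := ⟨_, rfl⟩
  rw [← hT] at h0
  obtain ⟨l, hl⟩ : ∃ l, l = degreeOf 0 T + degreeOf 1 T := ⟨_, rfl⟩
  refine ⟨∑ i ∈ Finset.range (l + 1), ∑ j ∈ Finset.range (l + 1), ‖coeff (ex i j) T‖,
    Finset.sum_nonneg fun i _ => Finset.sum_nonneg fun j _ => norm_nonneg _, fun t ht => ?_⟩
  have h1 : eval ![w0 + t, (starRingEnd ℂ) (w0 + t)] Q = eval ![t, (starRingEnd ℂ) t] T := by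
    rw [hT, eval_shift, map_add, add_comm w0 t, add_comm ((starRingEnd ℂ) w0)]
  rw [h1, eval_eq_sum (l := l) (by omega) (by omega), Finset.sum_mul]
  refine (norm_sum_le _ _).trans (Finset.sum_le_sum fun i _ => ?_)
  rw [Finset.sum_mul]
  refine (norm_sum_le _ _).trans (Finset.sum_le_sum fun j _ => ?_)
  rcases Nat.lt_or_ge (i + j) k with h2 | h2
  · rw [h0 i j h2]
    simp
  · rw [norm_mul, norm_mul, norm_pow, norm_pow, RCLike.norm_conj, mul_assoc, ← pow_add]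
    exact mul_le_mul_of_nonneg_left (pow_le_pow_of_le_one (norm_nonneg _) ht h2) (norm_nonneg _)

theorem lead_bd {P : P2} {w0 : ℂ} {m : ℕ} {α : ℂ} (h : Lead P w0 m α) :
    ∃ K : ℝ, 0 ≤ K ∧ ∀ t : ℂ, ‖t‖ ≤ 1 → |Vf P (w0 + t) - 2 * (α * t ^ m).re| ≤ K * ‖t‖ ^ (m + 1) := by
  obtain ⟨K, hK, h1⟩ := Exp_bd h
  refine ⟨K, hK, fun t ht => ?_⟩
  refine le_trans ?_ (h1 t ht)
  have h2 : eval ![w0 + t, (starRingEnd ℂ) (w0 + t)] (P - C α * (X 0 - C w0) ^ m -
      C ((starRingEnd ℂ) α) * (X 1 - C ((starRingEnd ℂ) w0)) ^ m) =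
      eval ![w0 + t, (starRingEnd ℂ) (w0 + t)] P - α * t ^ m - (starRingEnd ℂ) (α * t ^ m) := by
    simp only [map_sub, map_mul, map_pow, eval_C, eval_X, map_add]
    simp
  rw [h2]
  refine le_trans (le_of_eq ?_) (Complex.abs_re_le_norm _)
  congr 1
  unfold Vf
  simp only [Complex.sub_re, Complex.conj_re]
  ring

end Pool.Agent.EVS
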