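import Pool.Agent.EVS.Alg

/-!
# Project EVS, module Far: the zeros of `f - ε (1 + |w|^2)^l` stay in a fixed annulus

PLAN. `fn U z - ε fn (Ze l) z = Vf U w - ε (1 + ‖w‖^2)^l`, `w = E z`, `‖w‖ = exp z.1` (`Complex.norm_exp`). `A = coeff (ex 0 0) U` is real (`hR 0 0`) and nonzero, `coeff (ex l l) U = (-1)^l A` (`hU.coeff_top`).
Small `‖w‖`: `Vf U 0 = Re A` (`eval` at `![0, 0]`), so by continuity (`Vf_cont`) there is `r0 > 0` with `|Vf U w| > |A|/2` and (`r0 ≤ 1`) `(1 + ‖w‖^2)^l ≤ 2^l` for `‖w‖ < r0`; no zero there if `ε < |A| / 2^(l+1)`.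
Large `‖w‖ = r ≥ 1`: as in the proof of `Vf_large` (`Pool/Agent/SHB/VfB.lean`; `eval_eq_sum`): `|Vf U w - (-1)^l A r^(2l)| ≤ S r^(2l-1)`, `S = ∑ ‖coeff‖` (for `l = 0` both sides trivial: `S` times `r^(2l) / r`; it is convenient to write the bound as `S * r^(2l) / r`),
so `|Vf U w| ≥ (|A|/2) r^(2l)` for `r ≥ max 1 (2 S / |A|) = r1`, and `ε (1 + r^2)^l ≤ ε 2^l r^(2l) < (|A|/2) r^(2l)` for `ε < |A| / 2^(l+1)`.
So for zeros `r0 ≤ exp z.1 ≤ r1`, `R = max |log r0| |log r1|` (as in `CylU_bdd` of `Pool/Agent/OVL/CylU.lean`).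
-/

set_option autoImplicit false

namespace Pool.Agent.EVS

open MvPolynomial Pool.Agent.SHB Pool.Agent.OVL

private lemma Far_large {l : ℕ} {U : P2} (hU : Spin l U) (hR : RealP U) :
    ∃ S : ℝ, 0 ≤ S ∧ ∀ w : ℂ, 1 ≤ ‖w‖ →
      ‖coeff (ex l l) U‖ * ‖w‖ ^ (2 * l) - S * (‖w‖ ^ (2 * l) / ‖w‖) ≤ |Vf U w| := by
  set s : Finset (ℕ × ℕ) := Finset.range (l + 1) ×ˢ Finset.range (l + 1) with hs
  set S : ℝ := ∑ p ∈ s, ‖coeff (ex p.1 p.2) U‖ with hS
  have hS0 : 0 ≤ S := Finset.sum_nonneg fun _ _ => norm_nonneg _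
  refine ⟨S, hS0, fun w hw1 => ?_⟩
  have hz : ((Vf U w : ℝ) : ℂ) = eval ![w, (starRingEnd ℂ) w] U := (hR.eval_eq w).symm
  rw [eval_eq_sum hU.deg0 hU.deg1, ← Finset.sum_product'] at hz
  have hmem : (l, l) ∈ s := by simp [hs]
  rw [← Finset.add_sum_erase s (fun p : ℕ × ℕ => coeff (ex p.1 p.2) U * w ^ p.1 *
    ((starRingEnd ℂ) w) ^ p.2) hmem] at hz
  have hle : ‖∑ p ∈ s.erase (l, l), coeff (ex p.1 p.2) U * w ^ p.1 *
      ((starRingEnd ℂ) w) ^ p.2‖ ≤ ∑ p ∈ s.erase (l, l), ‖coeff (ex p.1 p.2) U‖ * (‖w‖ ^ (2 * l) / ‖w‖) := by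
    refine (norm_sum_le _ _).trans (Finset.sum_le_sum fun p hp => ?_)
    rw [norm_mul, norm_mul, norm_pow, norm_pow, RCLike.norm_conj, mul_assoc, ← pow_add]
    refine mul_le_mul_of_nonneg_left ?_ (norm_nonneg _)
    rw [le_div_iff₀ (by linarith), ← pow_succ]
    refine pow_le_pow_right₀ hw1 ?_
    rw [Finset.mem_erase] at hp
    obtain ⟨hne, hp⟩ := hp
    simp only [hs, Finset.mem_product, Finset.mem_range] at hp
    have : ¬ (p.1 = l ∧ p.2 = l) := fun h => hne (Prod.ext h.1 h.2)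
    omega
  have hle2 : ∑ p ∈ s.erase (l, l), ‖coeff (ex p.1 p.2) U‖ * (‖w‖ ^ (2 * l) / ‖w‖) ≤
      S * (‖w‖ ^ (2 * l) / ‖w‖) := by
    rw [← Finset.sum_mul]
    refine mul_le_mul_of_nonneg_right ?_ (by positivity)
    exact Finset.sum_le_sum_of_subset_of_nonneg (Finset.erase_subset _ _)
      fun _ _ _ => norm_nonneg _
  have hnorm : ‖coeff (ex l l) U * w ^ l * ((starRingEnd ℂ) w) ^ l‖ =
      ‖coeff (ex l l) U‖ * ‖w‖ ^ (2 * l) := by
    rw [norm_mul, norm_mul, norm_pow, norm_pow, RCLike.norm_conj, mul_assoc, ← pow_add, two_mul]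
  have habs : |Vf U w| = ‖((Vf U w : ℝ) : ℂ)‖ := by
    rw [Complex.norm_real, Real.norm_eq_abs]
  rw [habs, hz]
  have htri := norm_sub_le_norm_add (coeff (ex l l) U * w ^ l * ((starRingEnd ℂ) w) ^ l)
    (∑ p ∈ s.erase (l, l), coeff (ex p.1 p.2) U * w ^ p.1 * ((starRingEnd ℂ) w) ^ p.2)
  rw [hnorm] at htri
  have := hle.trans hle2
  linarith

private lemma Far_pow {l : ℕ} {r : ℝ} (hr : 1 ≤ r) : (1 + r ^ 2) ^ l ≤ 2 ^ l * r ^ (2 * l) := by
  rw [pow_mul, ← mul_pow]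
  refine pow_le_pow_left₀ (by positivity) ?_ _
  nlinarith

private lemma Far_pow' {l : ℕ} {r : ℝ} (h0 : 0 ≤ r) (hr : r ≤ 1) : (1 + r ^ 2) ^ l ≤ 2 ^ l := by
  refine pow_le_pow_left₀ (by positivity) ?_ _
  nlinarith

theorem far {l : ℕ} {U : P2} (hU : Spin l U) (hR : RealP U) (h0 : coeff (ex 0 0) U ≠ 0) :
    ∃ R ε1 : ℝ, 0 < ε1 ∧ ∀ ε : ℝ, 0 < ε → ε < ε1 →
      ∀ z : ℝ × ℝ, fn U z - ε * fn (Ze l) z = 0 → |z.1| ≤ R := by
  obtain ⟨S, hS0, hS⟩ := Far_large hU hR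
  set A : ℝ := ‖coeff (ex 0 0) U‖ with hA
  have hA0 : 0 < A := norm_pos_iff.2 h0
  have htop : ‖coeff (ex l l) U‖ = A := by
    rw [hU.coeff_top, norm_mul, norm_pow, norm_neg, norm_one, one_pow, one_mul]
  have hV0 : |Vf U 0| = A := by
    have e : Vf U 0 = (coeff (ex 0 0) U).re := by
      rw [Vf, eval_eq_sum hU.deg0 hU.deg1]
      rw [Finset.sum_eq_single 0, Finset.sum_eq_single 0]
      · simp
      · intro j _ hj; simp [hj]
      · intro h; simp at h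
      · intro i _ hi
        refine Finset.sum_eq_zero fun j _ => ?_
        simp [hi]
      · intro h; simp at h
    have him : (coeff (ex 0 0) U).im = 0 := by
      rw [← Complex.conj_eq_iff_im]; exact hR 0 0
    have e2 : coeff (ex 0 0) U = (((coeff (ex 0 0) U).re : ℝ) : ℂ) := by
      apply Complex.ext <;> simp [him]
    rw [e, hA, e2, Complex.norm_real, Real.norm_eq_abs, Complex.ofReal_re]
  have hc : Continuous fun w => |Vf U w| := (Vf_continuous U).abs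
  have h1 : ∀ᶠ w in nhds (0 : ℂ), A / 2 < |Vf U w| := by
    refine hc.continuousAt.eventually (lt_mem_nhds ?_)
    show A / 2 < |Vf U 0|
    rw [hV0]; linarith
  obtain ⟨r0', hr0', hsmall⟩ := Metric.eventually_nhds_iff.1 h1
  set r0 : ℝ := min r0' 1 with hr0def
  have hr0 : 0 < r0 := lt_min hr0' one_pos
  set r1 : ℝ := max 1 (2 * S / A) with hr1def
  have hr1 : 0 < r1 := lt_of_lt_of_le one_pos (le_max_left _ _)
  refine ⟨max |Real.log r0| |Real.log r1|, A / 2 ^ (l + 1), by positivity, fun ε he he1 z hz => ?_⟩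
  have h2l : (0 : ℝ) < 2 ^ l := by positivity
  have hε : ε * 2 ^ l < A / 2 := by
    rw [lt_div_iff₀ (by positivity), pow_succ] at he1
    linarith
  have hE : ‖E z‖ = Real.exp z.1 := by
    rw [E, Complex.norm_exp]
    simp
  have hz' : Vf U (E z) = ε * (1 + ‖E z‖ ^ 2) ^ l := by
    have : fn (Ze l) z = (1 + ‖E z‖ ^ 2) ^ l := Vf_Ze l (E z)
    rw [this] at hz
    have e : fn U z = Vf U (E z) := rfl
    rw [e] at hz
    linarith
  have hpos : 0 ≤ (1 + ‖E z‖ ^ 2) ^ l := by positivity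
  have habs : |Vf U (E z)| = ε * (1 + ‖E z‖ ^ 2) ^ l := by
    rw [hz', abs_of_nonneg (by positivity)]
  have h3 : r0 ≤ ‖E z‖ := by
    by_contra h
    push Not at h
    have h4 := hsmall (y := E z) (by rw [dist_zero_right]; exact h.trans_le (min_le_left _ _))
    have h5 : ‖E z‖ ≤ 1 := (h.trans_le (min_le_right _ _)).le
    rw [habs] at h4
    have h6 := Far_pow' (l := l) (norm_nonneg (E z)) h5
    have h7 : ε * (1 + ‖E z‖ ^ 2) ^ l ≤ ε * 2 ^ l := mul_le_mul_of_nonneg_left h6 he.le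
    linarith
  have h2 : ‖E z‖ ≤ r1 := by
    by_contra h
    push Not at h
    have h4 : 1 ≤ ‖E z‖ := ((le_max_left _ _).trans_lt h).le
    have h5 : 2 * S / A < ‖E z‖ := (le_max_right _ _).trans_lt h
    have h6 := hS (E z) h4
    rw [habs, htop] at h6
    have h7 := Far_pow (l := l) h4
    have hp : 0 < ‖E z‖ ^ (2 * l) := pow_pos (by linarith) _
    have h8 : ε * (1 + ‖E z‖ ^ 2) ^ l ≤ ε * (2 ^ l * ‖E z‖ ^ (2 * l)) :=
      mul_le_mul_of_nonneg_left h7 he.le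
    have h9 : ε * (2 ^ l * ‖E z‖ ^ (2 * l)) < A / 2 * ‖E z‖ ^ (2 * l) := by
      rw [← mul_assoc]
      exact mul_lt_mul_of_pos_right hε hp
    have h10 : S * (‖E z‖ ^ (2 * l) / ‖E z‖) ≤ A / 2 * ‖E z‖ ^ (2 * l) := by
      rw [← mul_div_assoc, div_le_iff₀ (by linarith)]
      rw [div_lt_iff₀ hA0] at h5
      have : S ≤ A / 2 * ‖E z‖ := by linarith
      calc S * ‖E z‖ ^ (2 * l) ≤ (A / 2 * ‖E z‖) * ‖E z‖ ^ (2 * l) :=
            mul_le_mul_of_nonneg_right this hp.le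
        _ = A / 2 * ‖E z‖ ^ (2 * l) * ‖E z‖ := by ring
    linarith
  rw [hE] at h2 h3
  have h4 : z.1 ≤ Real.log r1 := by
    rw [Real.le_log_iff_exp_le hr1]; exact h2
  have h5 : Real.log r0 ≤ z.1 := by
    rw [Real.log_le_iff_le_exp hr0]; exact h3
  rw [abs_le]
  constructor
  · have := neg_abs_le (Real.log r0)
    have := le_max_left |Real.log r0| |Real.log r1|
    linarith
  · exact h4.trans ((le_abs_self _).trans (le_max_right _ _))

end Pool.Agent.EVS
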