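import Pool.Agent.EVS.Defs

/-!
# Project EVS, module FinC: finitely many components

The zero set is compact. The good neighbourhoods of finitely many zeros cover it. A component of `{V ≠ 0}` which is not the
whole plane is open and not closed, so it has a limit point at which `V` vanishes, and it is one of the two components at
one of the finitely many zeros.
-/

set_option autoImplicit false

namespace Pool.Agent.EVS

open Pool.Agent.SHB Pool.Agent.OVL

private theorem FinC_isOpen (V : ℂ → ℝ) (hV : Continuous V) (D : Cc V) : IsOpen (cset V D) := by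
  have hU : IsOpen {w : ℂ | V w ≠ 0} := isOpen_ne_fun hV continuous_const
  have hemb : Topology.IsOpenEmbedding (Subtype.val : {w : ℂ // V w ≠ 0} → ℂ) :=
    hU.isOpenEmbedding_subtypeVal
  have : LocallyConnectedSpace {w : ℂ // V w ≠ 0} := hemb.locallyConnectedSpace
  have h1 : IsOpen ((ConnectedComponents.mk : {w : ℂ // V w ≠ 0} → Cc V) ⁻¹' {D}) :=
    (isOpen_discrete _).preimage ConnectedComponents.continuous_coe
  have h2 := hemb.isOpenMap _ h1
  have h3 : cset V D =
      Subtype.val '' ((ConnectedComponents.mk : {w : ℂ // V w ≠ 0} → Cc V) ⁻¹' {D}) := by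
    ext w
    constructor
    · rintro ⟨h, e⟩
      exact ⟨⟨w, h⟩, e, rfl⟩
    · rintro ⟨⟨x, hx⟩, e, rfl⟩
      exact ⟨hx, e⟩
  rw [h3]
  exact h2

private theorem FinC_uniq {V : ℂ → ℝ} {D D' : Cc V} {z : ℂ} (h : z ∈ cset V D)
    (h' : z ∈ cset V D') : D = D' := by
  obtain ⟨_, e⟩ := h
  obtain ⟨_, e'⟩ := h'
  exact e.symm.trans e'

private theorem FinC_mem {V : ℂ → ℝ} (hV : Continuous V) {D : Cc V} {s : ℂ}
    (hs : s ∈ closure (cset V D)) (h0 : V s ≠ 0) : s ∈ cset V D := by
  have hs' : s ∈ cset V (ConnectedComponents.mk ⟨s, h0⟩) := ⟨h0, rfl⟩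
  obtain ⟨y, hy1, hy2⟩ := mem_closure_iff.1 hs _ (FinC_isOpen V hV _) hs'
  rw [← FinC_uniq hy1 hy2]
  exact hs'

private theorem FinC_ne (V : ℂ → ℝ) (D : Cc V) : (cset V D).Nonempty := by
  obtain ⟨⟨w, hw⟩, rfl⟩ := ConnectedComponents.surjective_coe D
  exact ⟨w, hw, rfl⟩

private theorem FinC_adj {V : ℂ → ℝ} {O : Set ℂ} (hO : IsOpen O) {P M : Cc V}
    (hP : ∀ z ∈ O, 0 < V z → z ∈ cset V P) (hM : ∀ z ∈ O, V z < 0 → z ∈ cset V M)
    {D : Cc V} {q : ℂ} (hq : q ∈ O) (hD : q ∈ closure (cset V D)) : D = P ∨ D = M := by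
  obtain ⟨z, hz1, hz2⟩ := mem_closure_iff.1 hD O hO hq
  obtain ⟨hz0, _⟩ := id hz2
  rcases lt_or_gt_of_ne hz0 with h | h
  · exact Or.inr (FinC_uniq hz2 (hM z hz1 h))
  · exact Or.inl (FinC_uniq hz2 (hP z hz1 h))

theorem finC (V : ℂ → ℝ) (hV : Continuous V) (R : ℝ) (hR : ∀ w, V w = 0 → ‖w‖ ≤ R)
    (hG : ∀ w, V w = 0 → Good V w) : Finite (Cc V) := by
  classical
  by_cases hu : ∃ D : Cc V, cset V D = Set.univ
  · obtain ⟨D, hD⟩ := hu
    have : Subsingleton (Cc V) := by
      refine ⟨fun A B => ?_⟩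
      obtain ⟨a, ha⟩ := FinC_ne V A
      obtain ⟨b, hb⟩ := FinC_ne V B
      have h1 : A = D := FinC_uniq ha (by rw [hD]; trivial)
      have h2 : B = D := FinC_uniq hb (by rw [hD]; trivial)
      rw [h1, h2]
    infer_instance
  · unfold Good at hG
    choose O hO hqO P M hP hM _hz using hG
    have hN : IsCompact {w : ℂ | V w = 0} := by
      refine (isCompact_closedBall (0 : ℂ) R).of_isClosed_subset
        (isClosed_eq hV continuous_const) ?_
      intro w hw
      simpa using hR w hw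
    obtain ⟨F, hF⟩ := hN.elim_nhds_subcover' (fun x hx => O x hx)
      (fun x hx => (hO x hx).mem_nhds (hqO x hx))
    have hT : (⋃ x ∈ F, ({P x.1 x.2, M x.1 x.2} : Set (Cc V))).Finite :=
      F.finite_toSet.biUnion fun x _ => Set.toFinite _
    refine Set.finite_univ_iff.1 (hT.subset fun D _ => ?_)
    have hcl : ¬ IsClosed (cset V D) := by
      intro h
      rcases isClopen_iff.1 ⟨h, FinC_isOpen V hV D⟩ with h1 | h1
      · exact (FinC_ne V D).ne_empty h1
      · exact hu ⟨D, h1⟩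
    have hw : ∃ w ∈ closure (cset V D), w ∉ cset V D := by
      by_contra hcon
      push Not at hcon
      exact hcl (isClosed_of_closure_subset hcon)
    obtain ⟨w, hw1, hw2⟩ := hw
    have hw0 : V w = 0 := by
      by_contra h
      exact hw2 (FinC_mem hV hw1 h)
    obtain ⟨q, hq⟩ := Set.mem_iUnion.1 (hF hw0)
    obtain ⟨hqF, hwO⟩ := Set.mem_iUnion.1 hq
    refine Set.mem_biUnion hqF ?_
    rcases FinC_adj (hO q.1 q.2) (hP q.1 q.2) (hM q.1 q.2) hwO hw1 with h | h
    · exact Or.inl h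
    · exact Or.inr h

end Pool.Agent.EVS
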