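import Pool.Agent.EVS.Defs
import Pool.Agent.OVL.Four

/-!
# Project EVS, module Four0: four alternating signs of `f_yy`, variant

As `four` (`Pool/Agent/OVL/Four.lean`); instead of `nearY` the hypothesis `YP` is used: the points `w'`, `e'` with the right sign of
`fyy` are in the same open intervals between zeros of `fy` as `w`, `e`.
-/

set_option autoImplicit false

namespace Pool.Agent.EVS

open Pool.Agent.SHB Pool.Agent.OVL

/-- a simple closed curve from a loop which closes up in the plane -/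
private theorem Four0_jc {V : ℂ → ℝ} {f fx fy fxx fxy fyy : ℝ × ℝ → ℝ} (h : Cyl0 V f fx fy fxx fxy fyy)
    {x y : ℝ → ℝ} {T : ℝ} (hl : Loop f fx fy x y T 0) :
    JC x y (fun t => -(mu fx fy (x t, y t) * fy (x t, y t)))
      (fun t => mu fx fy (x t, y t) * fx (x t, y t)) T := by
  have hcx : Continuous x := continuous_iff_continuousAt.2 fun t => (hl.hx t).continuousAt
  have hcy : Continuous y := continuous_iff_continuousAt.2 fun t => (hl.hy t).continuousAt
  have hΓ : Continuous fun t => (x t, y t) := hcx.prodMk hcy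
  have hfx : Continuous fx := continuous_iff_continuousAt.2 fun z => (h.dx z).continuousAt
  have hfy : Continuous fy := continuous_iff_continuousAt.2 fun z => (h.dy z).continuousAt
  have hmu : Continuous (mu fx fy) := by
    unfold mu
    refine continuous_const.div ((continuous_const.add (hfx.pow 2)).add (hfy.pow 2)) ?_
    intro z
    positivity
  refine ⟨hl.T_pos, hl.hx, hl.hy, ?_, ?_, hl.perx, ?_, ?_, ?_⟩
  · exact ((hmu.comp hΓ).mul (hfy.comp hΓ)).neg
  · exact (hmu.comp hΓ).mul (hfx.comp hΓ)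
  · intro t
    have := hl.pery t
    simpa using this
  · intro t
    have hm : mu fx fy (x t, y t) ≠ 0 := by
      unfold mu
      positivity
    rcases hl.reg t with h1 | h1
    · right
      exact mul_ne_zero hm h1
    · left
      exact neg_ne_zero.2 (mul_ne_zero hm h1)
  · intro s t h1 h2
    exact hl.inj s t (by rw [h1, h2])

private theorem Four0_max {g : ℝ → ℝ} (hc : Continuous g) {T : ℝ} (hT : 0 < T) (hp : ∀ t, g (t + T) = g t)
    (a : ℝ) : ∃ s ∈ Set.Ico a (a + T), ∀ t, g t ≤ g s := by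
  have hper : Function.Periodic g T := hp
  obtain ⟨s, -, hs⟩ := (isCompact_Icc (a := (0 : ℝ)) (b := T)).exists_isMaxOn ⟨0, by simp [hT.le]⟩ hc.continuousOn
  obtain ⟨s', hs', he⟩ := hper.exists_mem_Ico hT s a
  refine ⟨s', hs', fun t => ?_⟩
  obtain ⟨t', ht', he'⟩ := hper.exists_mem_Ico₀ hT t
  rw [← he, he']
  exact hs ⟨ht'.1, ht'.2.le⟩

private theorem Four0_min {g : ℝ → ℝ} (hc : Continuous g) {T : ℝ} (hT : 0 < T) (hp : ∀ t, g (t + T) = g t)
    (a : ℝ) : ∃ s ∈ Set.Ico a (a + T), ∀ t, g s ≤ g t := by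
  obtain ⟨s, hs, h⟩ := Four0_max (g := fun t => -g t) hc.neg hT (fun t => by rw [hp]) a
  exact ⟨s, hs, fun t => by have := h t; linarith⟩

private theorem Four0_dmin {g : ℝ → ℝ} {d n : ℝ} (hd : HasDerivAt g d n) (hn : ∀ t, g n ≤ g t) : d = 0 := by
  have h1 : IsLocalMin g n := Filter.Eventually.of_forall hn
  exact h1.hasDerivAt_eq_zero hd

private theorem Four0_dmax {g : ℝ → ℝ} {d n : ℝ} (hd : HasDerivAt g d n) (hn : ∀ t, g t ≤ g n) : d = 0 := by
  have h1 : IsLocalMax g n := Filter.Eventually.of_forall hn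
  exact h1.hasDerivAt_eq_zero hd

private theorem Four0_pp {a b c : ℝ} (h1 : 0 < a * b) (h2 : 0 < b * c) : 0 < a * c := by
  have h3 : 0 < (a * c) * b ^ 2 := by
    have := mul_pos h1 h2
    linarith [this, (by ring : (a * c) * b ^ 2 = a * b * (b * c))]
  exact pos_of_mul_pos_left h3 (sq_nonneg b)

theorem four0 {V : ℂ → ℝ} {f fx fy fxx fxy fyy : ℝ × ℝ → ℝ} (h : Cyl0 V f fx fy fxx fxy fyy)
    (hY : YP f fx fy fyy) {x y : ℝ → ℝ} {T : ℝ} (hl : Loop f fx fy x y T 0) :
    ∃ t0 t1 t2 t3 σ : ℝ, t0 < t1 ∧ t1 < t2 ∧ t2 < t3 ∧ t3 < t0 + T ∧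
      0 < σ * fyy (x t0, y t0) ∧ σ * fyy (x t1, y t1) < 0 ∧
      0 < σ * fyy (x t2, y t2) ∧ σ * fyy (x t3, y t3) < 0 := by
  have hJ := Four0_jc h hl
  have hcx : Continuous x := continuous_iff_continuousAt.2 fun t => (hl.hx t).continuousAt
  have hcy : Continuous y := continuous_iff_continuousAt.2 fun t => (hl.hy t).continuousAt
  have hT := hl.T_pos
  obtain ⟨n, -, hn⟩ := Four0_min hcx hT hJ.perx 0
  obtain ⟨s, hsI, hs⟩ := Four0_max hcx hT hJ.perx n
  obtain ⟨w, hwI, hw⟩ := Four0_min hcy hT hJ.pery n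
  obtain ⟨e, heI, he⟩ := Four0_max hcy hT hJ.pery n
  have dn := Four0_dmin (hJ.hx n) hn
  have dw := Four0_dmin (hJ.hy w) hw
  have de := Four0_dmax (hJ.hy e) he
  have hsn : n ≠ s := by
    intro h1
    have h2 : ∀ t, x w ≤ x t := by
      intro t
      have h3 := hs w
      rw [← h1] at h3
      exact h3.trans (hn t)
    have h3 := Four0_dmin (hJ.hx w) h2
    rcases hJ.reg w with h4 | h4
    · exact h4 h3
    · exact h4 dw
  have hwn : n ≠ w := by
    intro h1
    subst h1
    rcases hJ.reg n with h4 | h4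
    · exact h4 dn
    · exact h4 dw
  have hen : n ≠ e := by
    intro h1
    subst h1
    rcases hJ.reg n with h4 | h4
    · exact h4 dn
    · exact h4 de
  have hs1 : n < s := lt_of_le_of_ne hsI.1 hsn
  have hw1 : n < w := lt_of_le_of_ne hwI.1 hwn
  have he1 : n < e := lt_of_le_of_ne heI.1 hen
  have hord := hJ.order n s w e hn hs hw he hs1 hsI.2 hw1 hwI.2 he1 heI.2
  have hmu : ∀ z, 0 < mu fx fy z := by
    intro z
    unfold mu
    positivity
  -- the signs
  have S1 : 0 < fx (x n, y n) * fy (x w, y w) := by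
    have h1 := hJ.sense n w hn hw
    have h2 : 0 < (mu fx fy (x n, y n) * mu fx fy (x w, y w)) * (fx (x n, y n) * fy (x w, y w)) := by
      nlinarith [h1]
    exact pos_of_mul_pos_right h2 (mul_pos (hmu _) (hmu _)).le
  have S2 : 0 < -(fx (x s, y s) * fy (x w, y w)) := by
    have h1 := hJ.sense_right s w hs hw
    have h2 : 0 < (mu fx fy (x s, y s) * mu fx fy (x w, y w)) * -(fx (x s, y s) * fy (x w, y w)) := by
      nlinarith [h1]
    exact pos_of_mul_pos_right h2 (mul_pos (hmu _) (hmu _)).le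
  have S3 : 0 < -(fx (x n, y n) * fy (x e, y e)) := by
    have h1 := hJ.sense_top n e hn he
    have h2 : 0 < (mu fx fy (x n, y n) * mu fx fy (x e, y e)) * -(fx (x n, y n) * fy (x e, y e)) := by
      nlinarith [h1]
    exact pos_of_mul_pos_right h2 (mul_pos (hmu _) (hmu _)).le
  have fn0 : fy (x n, y n) = 0 := by
    have h1 : mu fx fy (x n, y n) * fy (x n, y n) = 0 := neg_eq_zero.1 dn
    exact (mul_eq_zero.1 h1).resolve_left (hmu _).ne'
  have fs0 : fy (x s, y s) = 0 := by
    have h1 : mu fx fy (x s, y s) * fy (x s, y s) = 0 := neg_eq_zero.1 (Four0_dmax (hJ.hx s) hs)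
    exact (mul_eq_zero.1 h1).resolve_left (hmu _).ne'
  have fT0 : fy (x (n + T), y (n + T)) = 0 := by
    rw [hJ.perx, hJ.pery]
    exact fn0
  have lo : ∀ a w w' : ℝ, fy (x a, y a) = 0 → (∀ r ∈ Set.uIcc w w', fy (x r, y r) ≠ 0) → a < w → a < w' := by
    intro a w w' h1 h2 h3
    by_contra h4
    exact h2 a (Set.mem_uIcc.2 (Or.inr ⟨not_lt.1 h4, h3.le⟩)) h1
  have hi : ∀ a w w' : ℝ, fy (x a, y a) = 0 → (∀ r ∈ Set.uIcc w w', fy (x r, y r) ≠ 0) → w < a → w' < a := by
    intro a w w' h1 h2 h3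
    by_contra h4
    exact h2 a (Set.mem_uIcc.2 (Or.inl ⟨h3.le, not_lt.1 h4⟩)) h1
  obtain ⟨w', hw1', hw2'⟩ := hY x y hl.toFlow hl.zero hl.reg 1 (Or.inl rfl) w (fun t => by simpa using hw t)
  obtain ⟨e', he1', he2'⟩ := hY x y hl.toFlow hl.zero hl.reg (-1) (Or.inr rfl) e
    (fun t => by have := he t; linarith)
  have B2 : -fx (x n, y n) * fyy (x w', y w') < 0 := by
    have h1 : 0 < fy (x w, y w) * fyy (x w', y w') := by linarith
    have h2 := Four0_pp S1 h1
    linarith
  have B4 : -fx (x n, y n) * fyy (x e', y e') < 0 := by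
    have h1 : 0 < fx (x n, y n) * -fy (x e, y e) := by linarith
    have h2 : 0 < -fy (x e, y e) * fyy (x e', y e') := by linarith
    have h3 := Four0_pp h1 h2
    linarith
  have key : ∀ η : ℝ, 0 < η → ∃ n' s' : ℝ, |n' - n| < η ∧ |s' - s| < η ∧
      0 < -fx (x n, y n) * fyy (x n', y n') ∧ 0 < -fx (x n, y n) * fyy (x s', y s') := by
    intro η hη
    obtain ⟨n', hn1, hn2⟩ := nearX h.toC2 hl.toFlow hl.zero hl.reg h.arc 1 (Or.inl rfl) n
      (fun t => by simpa using hn t) η hη
    obtain ⟨s', hs1', hs2'⟩ := nearX h.toC2 hl.toFlow hl.zero hl.reg h.arc (-1) (Or.inr rfl) s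
      (fun t => by have := hs t; linarith) η hη
    refine ⟨n', s', hn1, hs1', ?_, ?_⟩
    · linarith
    · have h1 : 0 < fy (x w, y w) * -fx (x s, y s) := by linarith
      have h2 := Four0_pp S1 h1
      have h3 : 0 < -fx (x s, y s) * -fyy (x s', y s') := by linarith
      have h4 := Four0_pp h2 h3
      linarith
  have half : ∀ p q r t : ℝ, 0 < p → 0 < q → 0 < r → 0 < t →
      ∃ η : ℝ, 0 < η ∧ 2 * η ≤ p ∧ 2 * η ≤ q ∧ 2 * η ≤ r ∧ 2 * η ≤ t := by
    intro p q r t hp hq hr ht
    refine ⟨min (min p q) (min r t) / 2, ?_, ?_, ?_, ?_, ?_⟩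
    · have : 0 < min (min p q) (min r t) := lt_min (lt_min hp hq) (lt_min hr ht)
      linarith
    · have := (min_le_left (min p q) (min r t)).trans (min_le_left _ _)
      linarith
    · have := (min_le_left (min p q) (min r t)).trans (min_le_right _ _)
      linarith
    · have := (min_le_right (min p q) (min r t)).trans (min_le_left _ _)
      linarith
    · have := (min_le_right (min p q) (min r t)).trans (min_le_right _ _)
      linarith
  rcases hord with ⟨o1, o2⟩ | ⟨o1, o2⟩
  · have q1 : n < w' := lo n w w' fn0 hw1' hw1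
    have q2 : w' < s := hi s w w' fs0 hw1' o1
    have q3 : s < e' := lo s e e' fs0 he1' o2
    have q4 : e' < n + T := hi (n + T) e e' fT0 he1' heI.2
    obtain ⟨η, hη, g1, g2, g3, g4⟩ := half (w' - n) (s - w') (e' - s) (n + T - e') (by linarith) (by linarith)
      (by linarith) (by linarith)
    obtain ⟨n', s', a1, a3, b1, b3⟩ := key η hη
    rw [abs_lt] at a1 a3
    refine ⟨n', w', s', e', -fx (x n, y n), ?_, ?_, ?_, ?_, b1, B2, b3, B4⟩
    · linarith
    · linarith
    · linarith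
    · linarith
  · have q1 : n < e' := lo n e e' fn0 he1' he1
    have q2 : e' < s := hi s e e' fs0 he1' o1
    have q3 : s < w' := lo s w w' fs0 hw1' o2
    have q4 : w' < n + T := hi (n + T) w w' fT0 hw1' hwI.2
    obtain ⟨η, hη, g1, g2, g3, g4⟩ := half (e' - n) (s - e') (w' - s) (n + T - w') (by linarith) (by linarith)
      (by linarith) (by linarith)
    obtain ⟨n', s', a1, a3, b1, b3⟩ := key η hη
    rw [abs_lt] at a1 a3
    refine ⟨n', e', s', w', -fx (x n, y n), ?_, ?_, ?_, ?_, b1, B4, b3, B2⟩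
    · linarith
    · linarith
    · linarith
    · linarith

end Pool.Agent.EVS
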