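import Pool.Agent.EVS.Defs

/-!
# Project EVS, module Glob: from the local statements to all trajectories

Finite subcover of the compact rectangle `Icc (-R) R ×ˢ Icc 0 (2 π)` by balls which work for `hY` and `hR`; all points and
trajectories are moved to this rectangle by periodicity.
-/

set_option autoImplicit false

namespace Pool.Agent.EVS

open Pool.Agent.OVL

private theorem Glob_per {f : ℝ × ℝ → ℝ} (hf : ∀ z : ℝ × ℝ, f (z.1, z.2 + 2 * Real.pi) = f z) (a b : ℝ) (k : ℤ) :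
    f (a, b + 2 * Real.pi * k) = f (a, b) := by
  have hp : Function.Periodic (fun b => f (a, b)) (2 * Real.pi) := fun b => hf (a, b)
  have h1 := hp.int_mul k b
  have h2 : b + 2 * Real.pi * k = b + (k : ℝ) * (2 * Real.pi) := by ring
  rw [h2]
  exact h1

private theorem Glob_min {X : Type} (t : Finset X) (ρ : X → ℝ) (hρ : ∀ x, 0 < ρ x) (ε1 : ℝ) (hε1 : 0 < ε1) :
    ∃ ε2 : ℝ, 0 < ε2 ∧ ε2 ≤ ε1 ∧ ∀ x ∈ t, ε2 ≤ ρ x := by
  classical
  induction t using Finset.induction_on with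
  | empty => exact ⟨ε1, hε1, le_rfl, fun x hx => absurd hx (Finset.notMem_empty x)⟩
  | insert a s ha ih =>
    obtain ⟨e, h1, h2, h3⟩ := ih
    refine ⟨min e (ρ a), lt_min h1 (hρ a), (min_le_left _ _).trans h2, fun x hx => ?_⟩
    rcases Finset.mem_insert.1 hx with rfl | hx
    · exact min_le_right _ _
    · exact (min_le_left _ _).trans (h3 x hx)

private theorem Glob_shift (b : ℝ) : ∃ k : ℤ, b + 2 * Real.pi * k ∈ Set.Icc 0 (2 * Real.pi) := by
  have hpi : 0 < 2 * Real.pi := by positivity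
  refine ⟨-⌊b / (2 * Real.pi)⌋, ?_, ?_⟩
  · have h1 := Int.floor_le (b / (2 * Real.pi))
    rw [le_div_iff₀ hpi] at h1
    push_cast
    linarith
  · have h1 := Int.lt_floor_add_one (b / (2 * Real.pi))
    rw [div_lt_iff₀ hpi] at h1
    push_cast
    linarith

theorem glob {f fx fy fyy g gx gy gyy : ℝ × ℝ → ℝ}
    (pf : ∀ z : ℝ × ℝ, f (z.1, z.2 + 2 * Real.pi) = f z)
    (pfx : ∀ z : ℝ × ℝ, fx (z.1, z.2 + 2 * Real.pi) = fx z)
    (pfy : ∀ z : ℝ × ℝ, fy (z.1, z.2 + 2 * Real.pi) = fy z)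
    (pfyy : ∀ z : ℝ × ℝ, fyy (z.1, z.2 + 2 * Real.pi) = fyy z)
    (pg : ∀ z : ℝ × ℝ, g (z.1, z.2 + 2 * Real.pi) = g z)
    (pgx : ∀ z : ℝ × ℝ, gx (z.1, z.2 + 2 * Real.pi) = gx z)
    (pgy : ∀ z : ℝ × ℝ, gy (z.1, z.2 + 2 * Real.pi) = gy z)
    (pgyy : ∀ z : ℝ × ℝ, gyy (z.1, z.2 + 2 * Real.pi) = gyy z)
    (hY : ∀ z0, LocY f fx fy fyy g gx gy gyy z0) (hR : ∀ z0, LocR f fx fy g gx gy z0)
    (R ε1 : ℝ) (hε1 : 0 < ε1)
    (hfar : ∀ ε : ℝ, 0 < ε → ε < ε1 → ∀ z : ℝ × ℝ, f z - ε * g z = 0 → |z.1| ≤ R) :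
    ∃ ε2 : ℝ, 0 < ε2 ∧ ∀ ε : ℝ, 0 < ε → ε < ε2 →
      (∀ z, f z - ε * g z = 0 → fx z - ε * gx z ≠ 0 ∨ fy z - ε * gy z ≠ 0) ∧
      YP (fun z => f z - ε * g z) (fun z => fx z - ε * gx z) (fun z => fy z - ε * gy z)
        (fun z => fyy z - ε * gyy z) := by
  classical
  choose ρY hY0 hY1 using hY
  choose ρR hR0 hR1 using hR
  have hρ : ∀ z0, 0 < min (ρY z0) (ρR z0) := fun z0 => lt_min (hY0 z0) (hR0 z0)
  have hQ : IsCompact (Set.Icc (-R) R ×ˢ Set.Icc (0 : ℝ) (2 * Real.pi)) := isCompact_Icc.prod isCompact_Icc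
  obtain ⟨t, -, ht⟩ := hQ.elim_nhds_subcover (fun z0 => Metric.ball z0 (min (ρY z0) (ρR z0)))
    fun z0 _ => Metric.ball_mem_nhds z0 (hρ z0)
  obtain ⟨ε2, h1, h2, h3⟩ := Glob_min t (fun z0 => min (ρY z0) (ρR z0)) hρ ε1 hε1
  refine ⟨ε2, h1, fun ε he he2 => ?_⟩
  -- the shifted point is near a point of `t`
  have key : ∀ a b : ℝ, f (a, b) - ε * g (a, b) = 0 → ∃ k : ℤ, ∃ z0 : ℝ × ℝ, ε < ρY z0 ∧ ε < ρR z0 ∧
      |a - z0.1| < ρY z0 ∧ |b + 2 * Real.pi * k - z0.2| < ρY z0 ∧ |a - z0.1| < ρR z0 ∧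
      |b + 2 * Real.pi * k - z0.2| < ρR z0 := by
    intro a b hz
    obtain ⟨k, hk⟩ := Glob_shift b
    have hR' := hfar ε he (lt_of_lt_of_le he2 h2) (a, b) hz
    have hmem : ((a, b + 2 * Real.pi * k) : ℝ × ℝ) ∈ Set.Icc (-R) R ×ˢ Set.Icc (0 : ℝ) (2 * Real.pi) :=
      ⟨abs_le.1 hR', hk⟩
    obtain ⟨z0, hz0, hb⟩ := Set.mem_iUnion₂.1 (ht hmem)
    rw [Metric.mem_ball, Prod.dist_eq, max_lt_iff, Real.dist_eq, Real.dist_eq] at hb
    have h4 := lt_of_lt_of_le he2 (h3 z0 hz0)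
    exact ⟨k, z0, lt_of_lt_of_le h4 (min_le_left _ _), lt_of_lt_of_le h4 (min_le_right _ _),
      lt_of_lt_of_le hb.1 (min_le_left _ _), lt_of_lt_of_le hb.2 (min_le_left _ _),
      lt_of_lt_of_le hb.1 (min_le_right _ _), lt_of_lt_of_le hb.2 (min_le_right _ _)⟩
  constructor
  · rintro ⟨a, b⟩ hz
    obtain ⟨k, z0, -, k2, -, -, k5, k6⟩ := key a b hz
    have h5 := hR1 z0 ε he k2 (a, b + 2 * Real.pi * k) k5 k6
    simp only [Glob_per pf, Glob_per pg, Glob_per pfx, Glob_per pgx, Glob_per pfy, Glob_per pgy] at h5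
    exact h5 hz
  · intro x y hF hz hreg s hs w hmin
    obtain ⟨k, z0, k1, -, k3, k4, -, -⟩ := key (x w) (y w) (hz w)
    have hF' : Flow (fun z => fx z - ε * gx z) (fun z => fy z - ε * gy z) x (fun t => y t + 2 * Real.pi * k) := by
      constructor
      · intro t
        have h5 := hF.hx t
        simp only [mu, Glob_per pfx, Glob_per pgx, Glob_per pfy, Glob_per pgy] at h5 ⊢
        exact h5
      · intro t
        have h5 := (hF.hy t).add_const (2 * Real.pi * (k : ℝ))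
        simp only [mu, Glob_per pfx, Glob_per pgx, Glob_per pfy, Glob_per pgy] at h5 ⊢
        exact h5
    have h6 := hY1 z0 ε he k1 x (fun t => y t + 2 * Real.pi * k) hF'
      (by intro t; rw [Glob_per pf, Glob_per pg]; exact hz t)
      (by
        intro t
        rw [Glob_per pfx, Glob_per pgx, Glob_per pfy, Glob_per pgy]
        exact hreg t) s hs w k3 k4
      (by
        intro t
        show s * (y w + 2 * Real.pi * k) ≤ s * (y t + 2 * Real.pi * k)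
        rw [mul_add, mul_add]
        linarith [hmin t])
    obtain ⟨w', h7, h8⟩ := h6
    simp only [Glob_per pfy, Glob_per pgy, Glob_per pfyy, Glob_per pgyy] at h7 h8
    exact ⟨w', h7, h8⟩

end Pool.Agent.EVS
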