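import Pool.Agent.EVS.Defs

/-!
# Project EVS, module Gr3: geometry of the map from the plane to the sphere

PLAN. `sphV_line`: with `frA a i = A_i`, `sphV a w i = Re (w A_i + conj w B_i + (1 - w conj w) P_i)`, and `w` replaced by `s w`; `sphV a 0 i = Re P_i`: check `s (..) + (1 - s) (1 + s ρ) P` by coordinates (the explicit formulas `sv0, sv1, sv2` at the beginning of `Pool/Agent/OVL/Tr.lean`; copy these private lemmas).
`gg_sph`: `norm_sphV`. `gg_cont`: as in `Tr.lean`. `sphV_gg`: by definition (`(1 + ‖a‖^2) (1 + ‖w‖^2) ≠ 0`). `gg_of_pos`: if `sphV a w = t • x`, `0 < t`, `x ∈ Sph`, then `t = (1 + ‖a‖^2) (1 + ‖w‖^2)` (`norm_sphV`, see `t_eq` in `Tr.lean`) and `gg a w = x`. `Vf_gg`: `Vf_UU`, `sphV_gg`, homogeneity (`eval_smul_hom hu`, used in `Tr.lean`).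
`grad_zero`: copy `grad` (with `chain'`, `pd0_phi'`, `conjA`, `conjP`) from `Tr.lean` and scale by `t ≠ 0` (`sphV a w = t • gg a w`, `pderiv i u` is homogeneous: `hu.pderiv`). `grad_conv`: if all `eval (gg a w) (pderiv i u) = 0` then `eval ![w, conj w] (pderiv k U) = 0` for `k = 0, 1` by the chain rule (`chain'` in `Tr.lean`, `eval_UU` for `pderiv i u`, and again homogeneity).
-/

set_option autoImplicit false

namespace Pool.Agent.EVS

open MvPolynomial Pool.Agent.SHB Pool.Agent.OVL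

private lemma Gr3_sv0 (a w : ℂ) : sphV a w 0 =
    2 * (w.re * (a.re ^ 2 - a.im ^ 2 - 1) - w.im * (2 * a.re * a.im)) +
      (1 - w.re ^ 2 - w.im ^ 2) * (2 * a.re) := by
  simp [sphV, phi, frA, frB, frP, pow_two]
  ring

private lemma Gr3_sv1 (a w : ℂ) : sphV a w 1 =
    2 * (w.re * (-2 * a.re * a.im) - w.im * (a.re ^ 2 - a.im ^ 2 + 1)) +
      (1 - w.re ^ 2 - w.im ^ 2) * (-2 * a.im) := by
  simp [sphV, phi, frA, frB, frP, pow_two]
  ring

private lemma Gr3_sv2 (a w : ℂ) : sphV a w 2 =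
    2 * (w.re * (2 * a.re) - w.im * (2 * a.im)) +
      (1 - w.re ^ 2 - w.im ^ 2) * (1 - a.re ^ 2 - a.im ^ 2) := by
  simp [sphV, phi, frA, frB, frP, pow_two]
  ring


private noncomputable def Gr3_nn (a w : ℂ) : ℝ := (1 + ‖a‖ ^ 2) * (1 + ‖w‖ ^ 2)

private lemma Gr3_nn_pos (a w : ℂ) : 0 < Gr3_nn a w := by
  unfold Gr3_nn
  positivity

private lemma Gr3_sphV_cont (a : ℂ) : Continuous fun w => sphV a w := by
  apply continuous_pi
  intro i
  have h1 := Complex.continuous_re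
  have h2 := Complex.continuous_im
  fin_cases i
  · show Continuous fun w => sphV a w 0
    simp only [Gr3_sv0]
    fun_prop
  · show Continuous fun w => sphV a w 1
    simp only [Gr3_sv1]
    fun_prop
  · show Continuous fun w => sphV a w 2
    simp only [Gr3_sv2]
    fun_prop

private lemma Gr3_gV_norm (a w : ℂ) : ∑ i : Fin 3, ((Gr3_nn a w)⁻¹ • sphV a w) i ^ 2 = 1 := by
  have h := norm_sphV a w
  have h1 := Gr3_nn_pos a w
  simp only [Pi.smul_apply, smul_eq_mul, mul_pow]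
  rw [← Finset.mul_sum, h]
  show (Gr3_nn a w)⁻¹ ^ 2 * (Gr3_nn a w) ^ 2 = 1
  rw [← mul_pow, inv_mul_cancel₀ h1.ne', one_pow]

private lemma Gr3_t_eq (a w : ℂ) (x : Fin 3 → ℝ) (hx : ∑ i : Fin 3, x i ^ 2 = 1) (t : ℝ)
    (h : sphV a w = t • x) : t ^ 2 = (Gr3_nn a w) ^ 2 := by
  have h1 := norm_sphV a w
  rw [h] at h1
  simp only [Pi.smul_apply, smul_eq_mul, mul_pow] at h1
  rw [← Finset.mul_sum, hx, mul_one, ← mul_pow] at h1
  exact h1



private lemma Gr3_chain (Φ : Fin 3 → P2) (k : Fin 2) (p : MvPolynomial (Fin 3) ℂ) :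
    pderiv k (aeval Φ p) = ∑ i : Fin 3, aeval Φ (pderiv i p) * pderiv k (Φ i) := by
  induction p using MvPolynomial.induction_on with
  | C c => simp
  | add p q hp hq =>
    simp only [map_add, hp, hq, add_mul, Finset.sum_add_distrib]
  | mul_X p n hp =>
    rw [map_mul, aeval_X, pderiv_mul, hp]
    simp only [pderiv_mul, map_add, map_mul, aeval_X, add_mul, Finset.sum_add_distrib,
      Finset.sum_mul]
    congr 1
    · apply Finset.sum_congr rfl
      intro i _
      ring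
    · rw [Finset.sum_eq_single n]
      · simp
      · intro i _ hi
        rw [pderiv_X_of_ne hi.symm]
        simp
      · simp

private lemma Gr3_pd0_phi (a b : ℂ) (i : Fin 3) :
    pderiv 0 (phi a b i) = C (frA a i) - C (frP a b i) * X 1 := by
  simp only [phi, map_add, map_sub, pderiv_mul, pderiv_C, pderiv_one, pderiv_X_self,
    pderiv_X_of_ne (show (1 : Fin 2) ≠ 0 by decide)]
  ring

private lemma Gr3_conjA (a : ℂ) (i : Fin 3) :
    (starRingEnd ℂ) (frA a i) = frB ((starRingEnd ℂ) a) i := by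
  fin_cases i
  · simp [frA, frB]
  · simp [frA, frB]
  · simp [frA, frB]
    left
    exact map_ofNat (starRingEnd ℂ) 2

private lemma Gr3_conjP (a : ℂ) (i : Fin 3) :
    (starRingEnd ℂ) (frP a ((starRingEnd ℂ) a) i) = frP a ((starRingEnd ℂ) a) i := by
  fin_cases i
  · simp [frP]
    ring
  · simp [frP]
    ring
  · simp [frP]
    ring


/-- a common zero of `U` and `∂_w U` comes from a common zero of `u` and its gradient -/
private lemma Gr3_grad (u : MvPolynomial (Fin 3) ℝ) (l : ℕ) (hu : u.IsHomogeneous l) (a w : ℂ)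
    (h0 : Vf (UU (cx u) a ((starRingEnd ℂ) a)) w = 0)
    (h1 : eval ![w, (starRingEnd ℂ) w] (pderiv 0 (UU (cx u) a ((starRingEnd ℂ) a))) = 0)
    (i : Fin 3) : eval (sphV a w) (pderiv i u) = 0 := by
  set b := (starRingEnd ℂ) a with hb
  set w' := (starRingEnd ℂ) w with hw'
  set v : Fin 3 → ℝ := fun i => eval (sphV a w) (pderiv i u) with hv
  have hev : ∀ i, eval ![w, w'] (aeval (phi a b) (pderiv i (cx u))) = (v i : ℂ) := by
    intro i
    have h2 : pderiv i (cx u) = cx (pderiv i u) := by rw [cx, pderiv_map]; rfl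
    rw [h2]
    exact eval_UU (pderiv i u) a w
  have e1 : ∑ i : Fin 3, (v i : ℂ) * (frA a i - frP a b i * w') = 0 := by
    rw [UU, Gr3_chain, map_sum] at h1
    rw [← h1]
    apply Finset.sum_congr rfl
    intro i _
    rw [map_mul, hev, Gr3_pd0_phi]
    simp [hw']
  have e2 : ∑ i : Fin 3, (v i : ℂ) * (frB b i - frP a b i * w) = 0 := by
    have h3 := congrArg (starRingEnd ℂ) e1
    rw [map_sum, map_zero] at h3
    rw [← h3]
    apply Finset.sum_congr rfl
    intro i _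
    rw [map_mul, map_sub, map_mul, Gr3_conjA, Gr3_conjP, Complex.conj_ofReal, hw', Complex.conj_conj]
  have e3 : ∑ i : Fin 3, (v i : ℂ) * (frA a i * w + frB b i * w' + frP a b i * (1 - w * w')) = 0 := by
    have h4 : ∑ i : Fin 3, sphV a w i * v i = 0 := by
      have h5 := congrArg (eval (sphV a w)) hu.sum_X_mul_pderiv
      rw [map_sum] at h5
      simp only [map_mul, eval_X, map_nsmul] at h5
      rw [h5, ← Vf_UU, h0, smul_zero]
    have h6 : ((∑ i : Fin 3, sphV a w i * v i : ℝ) : ℂ) = 0 := by rw [h4]; rfl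
    rw [Complex.ofReal_sum] at h6
    rw [← h6]
    apply Finset.sum_congr rfl
    intro i _
    rw [Complex.ofReal_mul, ← sphV_eq, phi]
    simp only [map_add, map_mul, map_sub, map_one, eval_C, eval_X, Matrix.cons_val_zero,
      Matrix.cons_val_one]
    ring
  have hww : (1 : ℂ) + w * w' ≠ 0 := by
    rw [hw', Complex.mul_conj]
    intro h
    have h7 : (1 : ℝ) + Complex.normSq w = 0 := by exact_mod_cast h
    have := Complex.normSq_nonneg w
    linarith
  have haa : (1 : ℂ) + a * b ≠ 0 := by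
    rw [hb, Complex.mul_conj]
    intro h
    have h7 : (1 : ℝ) + Complex.normSq a = 0 := by exact_mod_cast h
    have := Complex.normSq_nonneg a
    linarith
  rw [Fin.sum_univ_three] at e1 e2 e3
  have hP : (v 0 : ℂ) * frP a b 0 + v 1 * frP a b 1 + v 2 * frP a b 2 = 0 := by
    apply (mul_eq_zero.1 (show ((1 : ℂ) + w * w') *
      ((v 0 : ℂ) * frP a b 0 + v 1 * frP a b 1 + v 2 * frP a b 2) = 0 by
        linear_combination e3 - w * e1 - w' * e2)).resolve_left hww
  have hA : (v 0 : ℂ) * frA a 0 + v 1 * frA a 1 + v 2 * frA a 2 = 0 := by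
    linear_combination e1 + w' * hP
  have hB : (v 0 : ℂ) * frB b 0 + v 1 * frB b 1 + v 2 * frB b 2 = 0 := by
    linear_combination e2 + w * hP
  have hfin : ∀ j : Fin 3, ((1 : ℂ) + a * b) ^ 2 * v j = 0 := by
    intro j
    have f0 := frame a b 0 j
    have f1 := frame a b 1 j
    have f2 := frame a b 2 j
    have h8 : (v 0 : ℂ) * (if (0 : Fin 3) = j then (1 + a * b) ^ 2 else 0) +
        v 1 * (if (1 : Fin 3) = j then (1 + a * b) ^ 2 else 0) +
        v 2 * (if (2 : Fin 3) = j then (1 + a * b) ^ 2 else 0) = 0 := by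
      linear_combination (-(v 0 : ℂ)) * f0 - v 1 * f1 - v 2 * f2 + frB b j / 2 * hA +
        frA a j / 2 * hB + frP a b j * hP
    fin_cases j
    · simpa [mul_comm] using h8
    · simpa [mul_comm] using h8
    · simpa [mul_comm] using h8
  have h9 := (mul_eq_zero.1 (hfin i)).resolve_left (pow_ne_zero 2 haa)
  have h10 : v i = 0 := by exact_mod_cast h9
  exact h10


theorem sphV_line (a w : ℂ) (s : ℝ) (i : Fin 3) :
    sphV a ((s : ℂ) * w) i = s * sphV a w i + (1 - s) * (1 + s * ‖w‖ ^ 2) * sphV a 0 i := by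
  have h : ‖w‖ ^ 2 = w.re ^ 2 + w.im ^ 2 := by
    rw [← Complex.normSq_eq_norm_sq, Complex.normSq_apply]; ring
  rw [h]
  fin_cases i
  · show sphV a ((s : ℂ) * w) 0 = s * sphV a w 0 + _ * sphV a 0 0
    rw [Gr3_sv0, Gr3_sv0, Gr3_sv0]
    simp only [Complex.mul_re, Complex.mul_im, Complex.ofReal_re, Complex.ofReal_im,
      Complex.zero_re, Complex.zero_im]
    ring
  · show sphV a ((s : ℂ) * w) 1 = s * sphV a w 1 + _ * sphV a 0 1
    rw [Gr3_sv1, Gr3_sv1, Gr3_sv1]
    simp only [Complex.mul_re, Complex.mul_im, Complex.ofReal_re, Complex.ofReal_im,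
      Complex.zero_re, Complex.zero_im]
    ring
  · show sphV a ((s : ℂ) * w) 2 = s * sphV a w 2 + _ * sphV a 0 2
    rw [Gr3_sv2, Gr3_sv2, Gr3_sv2]
    simp only [Complex.mul_re, Complex.mul_im, Complex.ofReal_re, Complex.ofReal_im,
      Complex.zero_re, Complex.zero_im]
    ring

theorem gg_sph (a w : ℂ) : gg a w ∈ Sph := Gr3_gV_norm a w

theorem gg_cont (a : ℂ) : Continuous (gg a) := by
  have hnn : Continuous fun w : ℂ => Gr3_nn a w := by
    unfold Gr3_nn
    fun_prop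
  exact (hnn.inv₀ fun w => (Gr3_nn_pos a w).ne').smul (Gr3_sphV_cont a)

theorem sphV_gg (a w : ℂ) : sphV a w = ((1 + ‖a‖ ^ 2) * (1 + ‖w‖ ^ 2)) • gg a w := by
  have h : (1 + ‖a‖ ^ 2) * (1 + ‖w‖ ^ 2) ≠ 0 := (Gr3_nn_pos a w).ne'
  rw [gg, smul_smul, mul_inv_cancel₀ h, one_smul]

theorem gg_of_pos (a w : ℂ) (x : Fin 3 → ℝ) (hx : x ∈ Sph) (t : ℝ) (ht : 0 < t)
    (h : sphV a w = t • x) : gg a w = x := by
  have h1 := Gr3_t_eq a w x hx t h
  have h2 : t = Gr3_nn a w := by
    have h3 := Gr3_nn_pos a w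
    rcases sq_eq_sq_iff_eq_or_eq_neg.1 h1 with h4 | h4
    · exact h4
    · linarith
  show (Gr3_nn a w)⁻¹ • sphV a w = x
  rw [h, h2, smul_smul, inv_mul_cancel₀ (Gr3_nn_pos a w).ne', one_smul]

theorem Vf_gg (u : MvPolynomial (Fin 3) ℝ) (l : ℕ) (hu : u.IsHomogeneous l) (a w : ℂ) :
    Vf (UU (cx u) a ((starRingEnd ℂ) a)) w =
      ((1 + ‖a‖ ^ 2) * (1 + ‖w‖ ^ 2)) ^ l * eval (gg a w) u := by
  rw [Vf_UU, sphV_gg, eval_smul_hom hu]

theorem grad_zero (u : MvPolynomial (Fin 3) ℝ) (l : ℕ) (hu : u.IsHomogeneous l) (a w : ℂ)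
    (h0 : Vf (UU (cx u) a ((starRingEnd ℂ) a)) w = 0)
    (h1 : eval ![w, (starRingEnd ℂ) w] (pderiv 0 (UU (cx u) a ((starRingEnd ℂ) a))) = 0)
    (i : Fin 3) : eval (gg a w) (pderiv i u) = 0 := by
  rw [gg, eval_smul_hom (hu.pderiv (i := i)), Gr3_grad u l hu a w h0 h1 i, mul_zero]

theorem grad_conv (u : MvPolynomial (Fin 3) ℝ) (l : ℕ) (hu : u.IsHomogeneous l) (a w : ℂ)
    (h : ∀ i : Fin 3, eval (gg a w) (pderiv i u) = 0) (k : Fin 2) :
    eval ![w, (starRingEnd ℂ) w] (pderiv k (UU (cx u) a ((starRingEnd ℂ) a))) = 0 := by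
  have hz : ∀ i : Fin 3, eval (sphV a w) (pderiv i u) = 0 := by
    intro i
    rw [sphV_gg, eval_smul_hom (hu.pderiv (i := i)), h i, mul_zero]
  have hev : ∀ i : Fin 3, eval ![w, (starRingEnd ℂ) w]
      (aeval (phi a ((starRingEnd ℂ) a)) (pderiv i (cx u))) = 0 := by
    intro i
    have h2 : pderiv i (cx u) = cx (pderiv i u) := by rw [cx, pderiv_map]; rfl
    rw [h2]
    have h3 := eval_UU (pderiv i u) a w
    rw [hz i, Complex.ofReal_zero] at h3
    exact h3
  rw [UU, Gr3_chain, map_sum]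
  apply Finset.sum_eq_zero
  intro i _
  rw [map_mul, hev, zero_mul]

end Pool.Agent.EVS
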