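import Pool.Agent.EVS.Gr3

/-!
# Project EVS, module Inv: `gg a` is a homeomorphism of the plane onto the sphere without a point

The explicit left inverse `Inv_io a y = (y · A - i y · B) / (q + y · P)`, `q = 1 + |a|^2`, where `A`, `B`, `P` are the real coordinates
of the orthogonal frame, is continuous where the denominator is not zero; `gg_open` follows with `stereo`.
-/

set_option autoImplicit false

namespace Pool.Agent.EVS

open MvPolynomial Pool.Agent.SHB Pool.Agent.OVL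

private lemma Inv_sv0 (a w : ℂ) : sphV a w 0 =
    2 * (w.re * (a.re ^ 2 - a.im ^ 2 - 1) - w.im * (2 * a.re * a.im)) +
      (1 - w.re ^ 2 - w.im ^ 2) * (2 * a.re) := by
  simp [sphV, phi, frA, frB, frP, pow_two]
  ring

private lemma Inv_sv1 (a w : ℂ) : sphV a w 1 =
    2 * (w.re * (-2 * a.re * a.im) - w.im * (a.re ^ 2 - a.im ^ 2 + 1)) +
      (1 - w.re ^ 2 - w.im ^ 2) * (-2 * a.im) := by
  simp [sphV, phi, frA, frB, frP, pow_two]
  ring

private lemma Inv_sv2 (a w : ℂ) : sphV a w 2 =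
    2 * (w.re * (2 * a.re) - w.im * (2 * a.im)) +
      (1 - w.re ^ 2 - w.im ^ 2) * (1 - a.re ^ 2 - a.im ^ 2) := by
  simp [sphV, phi, frA, frB, frP, pow_two]
  ring

/-- `1 + |a|^2` -/
private noncomputable def Inv_q (a : ℂ) : ℝ := 1 + a.re ^ 2 + a.im ^ 2

private noncomputable def Inv_l1 (a : ℂ) (y : Fin 3 → ℝ) : ℝ :=
  y 0 * (a.re ^ 2 - a.im ^ 2 - 1) + y 1 * (-2 * a.re * a.im) + y 2 * (2 * a.re)

private noncomputable def Inv_l2 (a : ℂ) (y : Fin 3 → ℝ) : ℝ :=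
  -(y 0 * (2 * a.re * a.im) + y 1 * (a.re ^ 2 - a.im ^ 2 + 1) + y 2 * (2 * a.im))

private noncomputable def Inv_m (a : ℂ) (y : Fin 3 → ℝ) : ℝ :=
  y 0 * (2 * a.re) + y 1 * (-2 * a.im) + y 2 * (1 - a.re ^ 2 - a.im ^ 2)

private noncomputable def Inv_io (a : ℂ) (y : Fin 3 → ℝ) : ℂ :=
  ⟨Inv_l1 a y / (Inv_q a + Inv_m a y), Inv_l2 a y / (Inv_q a + Inv_m a y)⟩

private lemma Inv_q_pos (a : ℂ) : 0 < Inv_q a := by
  unfold Inv_q
  positivity

private lemma Inv_norm (a : ℂ) : ‖a‖ ^ 2 = a.re ^ 2 + a.im ^ 2 := by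
  rw [← Complex.normSq_eq_norm_sq, Complex.normSq_apply]; ring

private lemma Inv_gg (a w : ℂ) (i : Fin 3) :
    gg a w i = (Inv_q a * (1 + w.re ^ 2 + w.im ^ 2))⁻¹ * sphV a w i := by
  show ((1 + ‖a‖ ^ 2) * (1 + ‖w‖ ^ 2))⁻¹ * sphV a w i = _
  rw [Inv_norm, Inv_norm, ← add_assoc, ← add_assoc]
  rfl

private lemma Inv_m_gg (a w : ℂ) : Inv_m a (gg a w) =
    (Inv_q a * (1 + w.re ^ 2 + w.im ^ 2))⁻¹ * ((1 - w.re ^ 2 - w.im ^ 2) * Inv_q a ^ 2) := by
  unfold Inv_m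
  rw [Inv_gg, Inv_gg, Inv_gg, Inv_sv0, Inv_sv1, Inv_sv2]
  unfold Inv_q
  ring

private lemma Inv_l1_gg (a w : ℂ) : Inv_l1 a (gg a w) =
    (Inv_q a * (1 + w.re ^ 2 + w.im ^ 2))⁻¹ * (w.re * (2 * Inv_q a ^ 2)) := by
  unfold Inv_l1
  rw [Inv_gg, Inv_gg, Inv_gg, Inv_sv0, Inv_sv1, Inv_sv2]
  unfold Inv_q
  ring

private lemma Inv_l2_gg (a w : ℂ) : Inv_l2 a (gg a w) =
    (Inv_q a * (1 + w.re ^ 2 + w.im ^ 2))⁻¹ * (w.im * (2 * Inv_q a ^ 2)) := by
  unfold Inv_l2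
  rw [Inv_gg, Inv_gg, Inv_gg, Inv_sv0, Inv_sv1, Inv_sv2]
  unfold Inv_q
  ring

private lemma Inv_den (a w : ℂ) : Inv_q a + Inv_m a (gg a w) =
    (Inv_q a * (1 + w.re ^ 2 + w.im ^ 2))⁻¹ * (2 * Inv_q a ^ 2) := by
  have h1 : Inv_q a * (1 + w.re ^ 2 + w.im ^ 2) ≠ 0 :=
    mul_ne_zero (Inv_q_pos a).ne' (by positivity)
  have h2 : Inv_q a = (Inv_q a * (1 + w.re ^ 2 + w.im ^ 2))⁻¹ *
      (Inv_q a * (1 + w.re ^ 2 + w.im ^ 2) * Inv_q a) := by
    rw [inv_mul_cancel_left₀ h1]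
  have h3 : Inv_q a + Inv_m a (gg a w) = (Inv_q a * (1 + w.re ^ 2 + w.im ^ 2))⁻¹ *
      (Inv_q a * (1 + w.re ^ 2 + w.im ^ 2) * Inv_q a) + Inv_m a (gg a w) := by
    rw [← h2]
  rw [h3, Inv_m_gg]
  ring

private lemma Inv_den_ne (a w : ℂ) : Inv_q a + Inv_m a (gg a w) ≠ 0 := by
  rw [Inv_den]
  have h1 := Inv_q_pos a
  have h2 : 0 < Inv_q a * (1 + w.re ^ 2 + w.im ^ 2) := mul_pos h1 (by positivity)
  positivity

private lemma Inv_left (a w : ℂ) : Inv_io a (gg a w) = w := by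
  have h1 := Inv_den_ne a w
  apply Complex.ext
  · show Inv_l1 a (gg a w) / (Inv_q a + Inv_m a (gg a w)) = w.re
    rw [div_eq_iff h1, Inv_den, Inv_l1_gg]
    ring
  · show Inv_l2 a (gg a w) / (Inv_q a + Inv_m a (gg a w)) = w.im
    rw [div_eq_iff h1, Inv_den, Inv_l2_gg]
    ring

theorem gg_inj (a : ℂ) : Function.Injective (gg a) :=
  Function.LeftInverse.injective (g := Inv_io a) (Inv_left a)

private lemma Inv_cont (a : ℂ) : Continuous (fun y : Fin 3 → ℝ => Inv_q a + Inv_m a y) := by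
  unfold Inv_m
  fun_prop

private lemma Inv_io_cont (a : ℂ) : ContinuousOn (Inv_io a) {y | Inv_q a + Inv_m a y ≠ 0} := by
  have h1 : Continuous (Inv_l1 a) := by
    unfold Inv_l1
    fun_prop
  have h2 : Continuous (Inv_l2 a) := by
    unfold Inv_l2
    fun_prop
  have h3 : ContinuousOn (fun y => Inv_l1 a y / (Inv_q a + Inv_m a y)) {y | Inv_q a + Inv_m a y ≠ 0} :=
    h1.continuousOn.div (Inv_cont a).continuousOn fun y hy => hy
  have h4 : ContinuousOn (fun y => Inv_l2 a y / (Inv_q a + Inv_m a y)) {y | Inv_q a + Inv_m a y ≠ 0} :=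
    h2.continuousOn.div (Inv_cont a).continuousOn fun y hy => hy
  have h5 : Inv_io a = fun y => ((Inv_l1 a y / (Inv_q a + Inv_m a y) : ℝ) : ℂ) +
      ((Inv_l2 a y / (Inv_q a + Inv_m a y) : ℝ) : ℂ) * Complex.I := by
    funext y
    exact Complex.mk_eq_add_mul_I _ _
  rw [h5]
  exact (Complex.continuous_ofReal.comp_continuousOn h3).add
    ((Complex.continuous_ofReal.comp_continuousOn h4).mul continuousOn_const)

theorem gg_open (a w : ℂ) (O : Set ℂ) (hO : IsOpen O) (hw : w ∈ O) :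
    ∃ O' : Set (Fin 3 → ℝ), IsOpen O' ∧ gg a w ∈ O' ∧
      ∀ y ∈ O', y ∈ Sph → ∃ w' ∈ O, gg a w' = y := by
  refine ⟨{y | Inv_q a + Inv_m a y ≠ 0} ∩ Inv_io a ⁻¹' O,
    (Inv_io_cont a).isOpen_inter_preimage (isOpen_ne_fun (Inv_cont a) continuous_const) hO,
    ⟨Inv_den_ne a w, ?_⟩, ?_⟩
  · show Inv_io a (gg a w) ∈ O
    rw [Inv_left]
    exact hw
  · rintro y ⟨hy1, hy2⟩ hy
    rcases stereo a y hy with ⟨w', t, ht, h⟩ | ⟨t, ht, h⟩
    · have h1 := gg_of_pos a w' y hy t ht h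
      refine ⟨w', ?_, h1⟩
      have h2 : Inv_io a y ∈ O := hy2
      rw [← h1, Inv_left] at h2
      exact h2
    · exfalso
      have e0 : sphV a 0 0 = t * y 0 := by rw [h]; rfl
      have e1 : sphV a 0 1 = t * y 1 := by rw [h]; rfl
      have e2 : sphV a 0 2 = t * y 2 := by rw [h]; rfl
      rw [Inv_sv0] at e0
      rw [Inv_sv1] at e1
      rw [Inv_sv2] at e2
      simp only [Complex.zero_re, Complex.zero_im] at e0 e1 e2
      have hs : y 0 ^ 2 + y 1 ^ 2 + y 2 ^ 2 = 1 := by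
        have h3 : ∑ i : Fin 3, y i ^ 2 = 1 := hy
        rwa [Fin.sum_univ_three] at h3
      have p0 : 2 * a.re = t * y 0 := by linarith
      have p1 : -2 * a.im = t * y 1 := by linarith
      have p2 : 1 - a.re ^ 2 - a.im ^ 2 = t * y 2 := by linarith
      have hm : Inv_m a y = t := by
        unfold Inv_m
        rw [p0, p1, p2]
        linear_combination t * hs
      have hq : Inv_q a ^ 2 = t ^ 2 := by
        have h4 : Inv_q a ^ 2 = (2 * a.re) ^ 2 + (-2 * a.im) ^ 2 + (1 - a.re ^ 2 - a.im ^ 2) ^ 2 := by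
          unfold Inv_q
          ring
        rw [h4, p0, p1, p2]
        linear_combination t ^ 2 * hs
      have hq0 := Inv_q_pos a
      have h5 : Inv_q a = -t := by
        rcases sq_eq_sq_iff_eq_or_eq_neg.1 hq with h6 | h6
        · linarith
        · exact h6
      exact hy1 (by rw [hm, h5]; ring)

end Pool.Agent.EVS
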