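import Pool.Agent.EVS.Defs

/-!
# Project EVS, module LocG: extreme points of `y` near a regular zero with `f_x = 0`

Near `z0` the field moves `x` with a speed bounded below and in a fixed direction (`LocG_loc`).  If a trajectory in the zero set of
`F = f - ε g` has an extreme point of `y` near `z0` and `Fyy` never has the right sign afterwards, then by the differential equation `s Fx ≤ C ε` on a time
interval of fixed length (comparison with `ε exp (K (t - w))`), so `y` changes only by `C ε` while `x` runs through an interval of fixed length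
(`LocG_core`); in this interval there is a point where `f ≠ 0` on the ray of `z0`, which is impossible for small `ε`.
-/

set_option autoImplicit false

namespace Pool.Agent.EVS

open Pool.Agent.OVL

private theorem LocG_mu_pos (fx fy : ℝ × ℝ → ℝ) (z : ℝ × ℝ) : 0 < mu fx fy z := by
  unfold mu
  positivity

private theorem LocG_mu_le (fx fy : ℝ × ℝ → ℝ) (z : ℝ × ℝ) : mu fx fy z ≤ 1 := by
  unfold mu
  rw [div_le_one (by positivity)]
  nlinarith [sq_nonneg (fx z), sq_nonneg (fy z)]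

private theorem LocG_muy (fx fy : ℝ × ℝ → ℝ) (z : ℝ × ℝ) : |mu fx fy z * fy z| ≤ 1 := by
  rw [abs_mul, abs_of_pos (LocG_mu_pos fx fy z)]
  unfold mu
  rw [one_div, inv_mul_le_iff₀ (by positivity)]
  nlinarith [sq_nonneg (|fy z| - 1), sq_abs (fy z), sq_nonneg (fx z), abs_nonneg (fy z)]

private theorem LocG_mux (fx fy : ℝ × ℝ → ℝ) (z : ℝ × ℝ) : |mu fx fy z * fx z| ≤ 1 := by
  rw [abs_mul, abs_of_pos (LocG_mu_pos fx fy z)]
  unfold mu
  rw [one_div, inv_mul_le_iff₀ (by positivity)]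
  nlinarith [sq_nonneg (|fx z| - 1), sq_abs (fx z), sq_nonneg (fy z), abs_nonneg (fx z)]

private theorem LocG_lin (a b c d : ℝ) : lin a b (c, d) = a * c + b * d := by
  simp [lin]

private theorem LocG_ne {s : ℝ} (hs : s = 1 ∨ s = -1) : s ≠ 0 := by
  rcases hs with h | h <;> rw [h] <;> norm_num

private theorem LocG_crit {u u' : ℝ → ℝ} (hu : ∀ t, HasDerivAt u (u' t) t) {s n : ℝ} (hs : s ≠ 0)
    (hmin : ∀ t, s * u n ≤ s * u t) : u' n = 0 := by
  have h1 : IsLocalMin (fun t => s * u t) n := Filter.Eventually.of_forall hmin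
  have h2 := h1.hasDerivAt_eq_zero ((hu n).const_mul s)
  exact (mul_eq_zero.mp h2).resolve_left hs

private theorem LocG_lip {u u' : ℝ → ℝ} (hu : ∀ t, HasDerivAt u (u' t) t) (hb : ∀ t, |u' t| ≤ 1) (a t : ℝ)
    (ht : a ≤ t) : |u t - u a| ≤ t - a := by
  have h1 := norm_image_sub_le_of_norm_deriv_le_segment' (f := u) (f' := u') (C := 1) (a := a) (b := t)
    (fun r _ => (hu r).hasDerivWithinAt) (fun r _ => by rw [Real.norm_eq_abs]; exact hb r) t ⟨ht, le_rfl⟩
  rwa [one_mul, Real.norm_eq_abs] at h1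

/-- the functions `f - ε g` -/
private theorem LocG_C2 {f fx fy fxx fxy fyy g gx gy gxx gxy gyy : ℝ × ℝ → ℝ}
    (hf : C2 f fx fy fxx fxy fyy) (hg : C2 g gx gy gxx gxy gyy) (ε : ℝ) :
    C2 (fun z => f z - ε * g z) (fun z => fx z - ε * gx z) (fun z => fy z - ε * gy z)
      (fun z => fxx z - ε * gxx z) (fun z => fxy z - ε * gxy z) (fun z => fyy z - ε * gyy z) := by
  have key : ∀ a b c d : ℝ, lin (a - ε * c) (b - ε * d) = lin a b - ε • lin c d := by
    intro a b c d
    ext <;> simp [lin]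
  refine ⟨fun z => ?_, fun z => ?_, fun z => ?_, ?_, ?_, ?_⟩
  · rw [key]
    exact (hf.d0 z).sub ((hg.d0 z).const_mul ε)
  · rw [key]
    exact (hf.dx z).sub ((hg.dx z).const_mul ε)
  · rw [key]
    exact (hf.dy z).sub ((hg.dy z).const_mul ε)
  · exact hf.cxx.sub (continuous_const.mul hg.cxx)
  · exact hf.cxy.sub (continuous_const.mul hg.cxy)
  · exact hf.cyy.sub (continuous_const.mul hg.cyy)

/-- If `YPt` fails then `y` changes only by `C ε` on an interval of fixed length, while `x` moves with speed at least `b`. -/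
private theorem LocG_core {F Fx Fy Fxx Fxy Fyy c k : ℝ × ℝ → ℝ} (h : C2 F Fx Fy Fxx Fxy Fyy) {ε : ℝ} (hε : 0 < ε)
    (hpde : ∀ z, F z = 0 → Fxx z + Fyy z = c z * Fx z - ε * k z) {x y : ℝ → ℝ} (hF : Flow Fx Fy x y)
    (hz : ∀ t, F (x t, y t) = 0) {s σ : ℝ} (hs : s = 1 ∨ s = -1) (hσ : σ = 1 ∨ σ = -1) {w : ℝ}
    (hw : ∀ t, s * y w ≤ s * y t) {x0 y0 r M b : ℝ} (hr : 0 < r) (hM : 0 < M) (hb : 0 < b)
    (hB : ∀ z : ℝ × ℝ, |z.1 - x0| < r → |z.2 - y0| < r →
      b < mu Fx Fy z * (σ * Fy z) ∧ |Fxy z| ≤ M ∧ |c z| ≤ M ∧ |k z| ≤ M)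
    (hxw : |x w - x0| < r / 2) (hyw : |y w - y0| < r / 2) (hno : ¬ YPt Fy Fyy x y s w) :
    (∀ t ∈ Set.Icc w (w + r / 2), |y t - y w| ≤ ε * (Real.exp ((3 * M + 1) * (r / 2)) * (r / 2))) ∧
      σ * x (w + r / 2) ≤ σ * x w - b * (r / 2) := by
  have hs0 : s ≠ 0 := LocG_ne hs
  have hss : s * s = 1 := by rcases hs with h | h <;> rw [h] <;> norm_num
  have hsab : |s| = 1 := by rcases hs with h | h <;> rw [h] <;> simp
  have hσσ : σ * σ = 1 := by rcases hσ with h | h <;> rw [h] <;> norm_num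
  -- the trajectory stays in the box
  have hbx : ∀ t ∈ Set.Icc w (w + r / 2), |x t - x0| < r := by
    intro t ht
    have h1 := LocG_lip hF.hx (fun t => by rw [abs_neg]; exact LocG_muy Fx Fy _) w t ht.1
    have h2 : |x t - x0| ≤ |x t - x w| + |x w - x0| := by
      have h3 : x t - x0 = (x t - x w) + (x w - x0) := by ring
      rw [h3]
      exact abs_add_le _ _
    linarith [ht.2]
  have hby : ∀ t ∈ Set.Icc w (w + r / 2), |y t - y0| < r := by
    intro t ht
    have h1 := LocG_lip hF.hy (fun t => LocG_mux Fx Fy _) w t ht.1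
    have h2 : |y t - y0| ≤ |y t - y w| + |y w - y0| := by
      have h3 : y t - y0 = (y t - y w) + (y w - y0) := by ring
      rw [h3]
      exact abs_add_le _ _
    linarith [ht.2]
  have hbox := fun t ht => hB (x t, y t) (hbx t ht) (hby t ht)
  have hww : w ∈ Set.Icc w (w + r / 2) := ⟨le_rfl, by linarith⟩
  -- sign of `Fy`
  have hsgn : ∀ t ∈ Set.Icc w (w + r / 2), 0 < σ * Fy (x t, y t) := by
    intro t ht
    have h1 := (hbox t ht).1
    have h2 : 0 < mu Fx Fy (x t, y t) * (σ * Fy (x t, y t)) := hb.trans h1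
    exact pos_of_mul_pos_right h2 (LocG_mu_pos Fx Fy _).le
  have hyy : ∀ t ∈ Set.Icc w (w + r / 2), s * (Fy (x t, y t) * Fyy (x t, y t)) ≤ 0 := by
    intro t ht
    by_contra hcon
    push Not at hcon
    apply hno
    refine ⟨t, ?_, ?_⟩
    · intro q hq h0
      rw [Set.uIcc_of_le ht.1] at hq
      have h1 := hsgn q ⟨hq.1, hq.2.trans ht.2⟩
      rw [h0, mul_zero] at h1
      exact lt_irrefl _ h1
    · have h1 := hsgn w hww
      have h2 := hsgn t ht
      have h3 : 0 < (σ * Fy (x w, y w)) * (σ * Fy (x t, y t)) * (s * (Fy (x t, y t) * Fyy (x t, y t))) :=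
        mul_pos (mul_pos h1 h2) hcon
      have h4 : (σ * Fy (x w, y w)) * (σ * Fy (x t, y t)) * (s * (Fy (x t, y t) * Fyy (x t, y t))) =
          (σ * σ) * (Fy (x t, y t)) ^ 2 * (s * (Fy (x w, y w) * Fyy (x t, y t))) := by ring
      rw [h4, hσσ, one_mul] at h3
      exact pos_of_mul_pos_right h3 (sq_nonneg _)
  -- the function `A = s Fx`
  have hd : ∀ t, HasDerivAt (fun t => s * Fx (x t, y t))
      (s * (Fxx (x t, y t) * (-(mu Fx Fy (x t, y t) * Fy (x t, y t))) +
        Fxy (x t, y t) * (mu Fx Fy (x t, y t) * Fx (x t, y t)))) t := by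
    intro t
    have h1 := (h.dx (x t, y t)).comp_hasDerivAt t ((hF.hx t).prodMk (hF.hy t))
    rw [LocG_lin] at h1
    exact h1.const_mul s
  have hy0 := LocG_crit hF.hy hs0 hw
  have hfx0 : Fx (x w, y w) = 0 := (mul_eq_zero.mp hy0).resolve_left (LocG_mu_pos Fx Fy _).ne'
  have hA : ∀ t ∈ Set.Icc w (w + r / 2), s * Fx (x t, y t) ≤ ε * Real.exp ((3 * M + 1) * (t - w)) := by
    have hB' : ∀ t, HasDerivAt (fun t => ε * Real.exp ((3 * M + 1) * (t - w)))
        (ε * (Real.exp ((3 * M + 1) * (t - w)) * ((3 * M + 1) * 1))) t := by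
      intro t
      exact ((((hasDerivAt_id t).sub_const w).const_mul (3 * M + 1)).exp).const_mul ε
    refine image_le_of_deriv_right_lt_deriv_boundary (f := fun t => s * Fx (x t, y t))
      (fun t _ => (hd t).continuousAt.continuousWithinAt) (fun t _ => (hd t).hasDerivWithinAt) ?_ hB' ?_
    · simp only [hfx0, mul_zero]
      positivity
    · intro t ht hAB
      have ht' : t ∈ Set.Icc w (w + r / 2) := Set.Ico_subset_Icc_self ht
      obtain ⟨-, b1, b2, b3⟩ := hbox t ht'
      have hp := hpde (x t, y t) (hz t)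
      have hsg := hyy t ht'
      have e1 := LocG_muy Fx Fy (x t, y t)
      have e2 := LocG_mu_pos Fx Fy (x t, y t)
      have e3 := LocG_mu_le Fx Fy (x t, y t)
      have e4 : 1 ≤ Real.exp ((3 * M + 1) * (t - w)) :=
        Real.one_le_exp (mul_nonneg (by positivity) (by linarith [ht.1]))
      set m := mu Fx Fy (x t, y t) with hm
      set E0 := Real.exp ((3 * M + 1) * (t - w)) with hE0
      set a := Fx (x t, y t) with ha
      set β := Fy (x t, y t) with hβ
      have g1 : s * (Fxx (x t, y t) * (-(m * β)) + Fxy (x t, y t) * (m * a)) =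
          m * (s * (β * Fyy (x t, y t))) + ε * (s * k (x t, y t) * (m * β)) +
            (m * Fxy (x t, y t) - c (x t, y t) * (m * β)) * (s * a) := by
        have g2 : Fxx (x t, y t) = c (x t, y t) * a - ε * k (x t, y t) - Fyy (x t, y t) := by linarith
        rw [g2]
        ring
      have g3 : m * (s * (β * Fyy (x t, y t))) ≤ 0 := mul_nonpos_of_nonneg_of_nonpos e2.le hsg
      have g4 : s * k (x t, y t) * (m * β) ≤ M := by
        refine (le_abs_self _).trans ?_
        rw [abs_mul, abs_mul, hsab, one_mul]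
        calc |k (x t, y t)| * |m * β| ≤ M * 1 := mul_le_mul b3 e1 (abs_nonneg _) hM.le
          _ = M := mul_one M
      have g5 : m * Fxy (x t, y t) - c (x t, y t) * (m * β) ≤ 2 * M := by
        have g6 : m * Fxy (x t, y t) ≤ M := by
          refine (le_abs_self _).trans ?_
          rw [abs_mul, abs_of_pos e2]
          calc m * |Fxy (x t, y t)| ≤ 1 * M := mul_le_mul e3 b1 (abs_nonneg _) zero_le_one
            _ = M := one_mul M
        have g7 : -(c (x t, y t) * (m * β)) ≤ M := by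
          refine (neg_le_abs _).trans ?_
          rw [abs_mul]
          calc |c (x t, y t)| * |m * β| ≤ M * 1 := mul_le_mul b2 e1 (abs_nonneg _) hM.le
            _ = M := mul_one M
        linarith
      have g8 : s * a = ε * E0 := hAB
      rw [g1, g8]
      have g9 : (m * Fxy (x t, y t) - c (x t, y t) * (m * β)) * (ε * E0) ≤ 2 * M * (ε * E0) :=
        mul_le_mul_of_nonneg_right g5 (by positivity)
      have g10 : ε * (s * k (x t, y t) * (m * β)) ≤ ε * M := mul_le_mul_of_nonneg_left g4 hε.le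
      have g11 : ε * M ≤ ε * M * E0 := le_mul_of_one_le_right (by positivity) e4
      have g12 : 0 < ε * E0 := by positivity
      nlinarith
  -- the estimate for `y`
  refine ⟨?_, ?_⟩
  · intro t ht
    have hsy : ∀ q, HasDerivAt (fun q => s * y q) (s * (mu Fx Fy (x q, y q) * Fx (x q, y q))) q :=
      fun q => (hF.hy q).const_mul s
    have hle : s * y t ≤ s * y w + ε * Real.exp ((3 * M + 1) * (r / 2)) * (t - w) := by
      have hC : ∀ q, HasDerivAt (fun q => s * y w + ε * Real.exp ((3 * M + 1) * (r / 2)) * (q - w))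
          (ε * Real.exp ((3 * M + 1) * (r / 2)) * 1) q := by
        intro q
        exact (((hasDerivAt_id q).sub_const w).const_mul _).const_add _
      refine image_le_of_deriv_right_le_deriv_boundary (f := fun q => s * y q) (a := w) (b := w + r / 2)
        (fun q _ => (hsy q).continuousAt.continuousWithinAt) (fun q _ => (hsy q).hasDerivWithinAt) ?_
        (fun q _ => (hC q).continuousAt.continuousWithinAt) (fun q _ => (hC q).hasDerivWithinAt) ?_ ht
      · simp
      · intro q hq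
        have h1 := hA q (Set.Ico_subset_Icc_self hq)
        have h2 : Real.exp ((3 * M + 1) * (q - w)) ≤ Real.exp ((3 * M + 1) * (r / 2)) :=
          Real.exp_le_exp.2 (mul_le_mul_of_nonneg_left (by linarith [hq.2]) (by positivity))
        have h3 : ε * Real.exp ((3 * M + 1) * (q - w)) ≤ ε * Real.exp ((3 * M + 1) * (r / 2)) :=
          mul_le_mul_of_nonneg_left h2 hε.le
        have h4 : s * (mu Fx Fy (x q, y q) * Fx (x q, y q)) = mu Fx Fy (x q, y q) * (s * Fx (x q, y q)) := by ring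
        rw [h4, mul_one]
        have h5 : 0 < ε * Real.exp ((3 * M + 1) * (r / 2)) := by positivity
        calc mu Fx Fy (x q, y q) * (s * Fx (x q, y q))
            ≤ mu Fx Fy (x q, y q) * (ε * Real.exp ((3 * M + 1) * (r / 2))) :=
              mul_le_mul_of_nonneg_left (h1.trans h3) (LocG_mu_pos Fx Fy _).le
          _ ≤ 1 * (ε * Real.exp ((3 * M + 1) * (r / 2))) :=
              mul_le_mul_of_nonneg_right (LocG_mu_le Fx Fy _) h5.le
          _ = ε * Real.exp ((3 * M + 1) * (r / 2)) := one_mul _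
    have hge := hw t
    have h1 : |y t - y w| = s * y t - s * y w := by
      have h2 : |y t - y w| = |s * (y t - y w)| := by rw [abs_mul, hsab, one_mul]
      rw [h2, mul_sub, abs_of_nonneg (by linarith)]
    have h5 : 0 < ε * Real.exp ((3 * M + 1) * (r / 2)) := by positivity
    have h6 : ε * Real.exp ((3 * M + 1) * (r / 2)) * (t - w) ≤ ε * Real.exp ((3 * M + 1) * (r / 2)) * (r / 2) :=
      mul_le_mul_of_nonneg_left (by linarith [ht.2]) h5.le
    rw [h1]
    linarith
  · have hsx : ∀ q, HasDerivAt (fun q => σ * x q) (σ * (-(mu Fx Fy (x q, y q) * Fy (x q, y q)))) q :=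
      fun q => (hF.hx q).const_mul σ
    have hC : ∀ q, HasDerivAt (fun q => σ * x w + (-b) * (q - w)) ((-b) * 1) q := by
      intro q
      exact (((hasDerivAt_id q).sub_const w).const_mul _).const_add _
    have hle := image_le_of_deriv_right_le_deriv_boundary (f := fun q => σ * x q) (a := w) (b := w + r / 2)
      (fun q _ => (hsx q).continuousAt.continuousWithinAt) (fun q _ => (hsx q).hasDerivWithinAt) (by simp)
      (fun q _ => (hC q).continuousAt.continuousWithinAt) (fun q _ => (hC q).hasDerivWithinAt) (by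
        intro q hq
        have h1 := (hbox q (Set.Ico_subset_Icc_self hq)).1
        have h4 : σ * (-(mu Fx Fy (x q, y q) * Fy (x q, y q))) = -(mu Fx Fy (x q, y q) * (σ * Fy (x q, y q))) := by
          ring
        rw [h4, mul_one]
        linarith) (⟨by linarith, le_rfl⟩ : w + r / 2 ∈ Set.Icc w (w + r / 2))
    have h5 : σ * x (w + r / 2) ≤ σ * x w + (-b) * (w + r / 2 - w) := hle
    linarith

/-- constants near `z0` -/
private theorem LocG_loc {f fx fy fxx fxy fyy g gx gy gxx gxy gyy c k : ℝ × ℝ → ℝ}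
    (hf : C2 f fx fy fxx fxy fyy) (hg : C2 g gx gy gxx gxy gyy) (hc : Continuous c)
    (hk : Continuous k) (z0 : ℝ × ℝ) {σ : ℝ} (hσ : 0 < σ * fy z0) :
    ∃ r M b : ℝ, 0 < r ∧ 0 < M ∧ 0 < b ∧ ∀ ε : ℝ, 0 < ε → ε < r → ∀ z : ℝ × ℝ, |z.1 - z0.1| < r → |z.2 - z0.2| < r →
      b < mu (fun z => fx z - ε * gx z) (fun z => fy z - ε * gy z) z * (σ * (fy z - ε * gy z)) ∧
        |fxy z - ε * gxy z| ≤ M ∧ |c z| ≤ M ∧ |k z| ≤ M := by
  have hcfx : Continuous fx := continuous_iff_continuousAt.mpr (fun z => (hf.dx z).continuousAt)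
  have hcfy : Continuous fy := continuous_iff_continuousAt.mpr (fun z => (hf.dy z).continuousAt)
  have hcgx : Continuous gx := continuous_iff_continuousAt.mpr (fun z => (hg.dx z).continuousAt)
  have hcgy : Continuous gy := continuous_iff_continuousAt.mpr (fun z => (hg.dy z).continuousAt)
  have hcfxy := hf.cxy
  have hcgxy := hg.cxy
  have c1 : Continuous (fun q : (ℝ × ℝ) × ℝ => 1 / (1 + (fx q.1 - q.2 * gx q.1) ^ 2 + (fy q.1 - q.2 * gy q.1) ^ 2) *
      (σ * (fy q.1 - q.2 * gy q.1))) := by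
    refine (continuous_const.div (by fun_prop) (fun z => ?_)).mul (by fun_prop)
    positivity
  have c2 : Continuous (fun q : (ℝ × ℝ) × ℝ => |fxy q.1 - q.2 * gxy q.1|) := by fun_prop
  have c3 : Continuous (fun q : (ℝ × ℝ) × ℝ => |c q.1|) := by fun_prop
  have c4 : Continuous (fun q : (ℝ × ℝ) × ℝ => |k q.1|) := by fun_prop
  have hb : 0 < mu fx fy z0 * (σ * fy z0) := mul_pos (LocG_mu_pos fx fy z0) hσ
  have v1 : mu fx fy z0 * (σ * fy z0) / 2 < (fun q : (ℝ × ℝ) × ℝ =>
      1 / (1 + (fx q.1 - q.2 * gx q.1) ^ 2 + (fy q.1 - q.2 * gy q.1) ^ 2) *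
      (σ * (fy q.1 - q.2 * gy q.1))) (z0, 0) := by
    have h1 : (fun q : (ℝ × ℝ) × ℝ =>
      1 / (1 + (fx q.1 - q.2 * gx q.1) ^ 2 + (fy q.1 - q.2 * gy q.1) ^ 2) *
      (σ * (fy q.1 - q.2 * gy q.1))) (z0, 0) = mu fx fy z0 * (σ * fy z0) := by
      simp only [zero_mul, sub_zero, mu]
    rw [h1]
    linarith
  have v2 : (fun q : (ℝ × ℝ) × ℝ => |fxy q.1 - q.2 * gxy q.1|) (z0, 0) < |fxy z0| + |c z0| + |k z0| + 1 := by
    simp only [zero_mul, sub_zero]
    linarith [abs_nonneg (c z0), abs_nonneg (k z0)]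
  have v3 : (fun q : (ℝ × ℝ) × ℝ => |c q.1|) (z0, 0) < |fxy z0| + |c z0| + |k z0| + 1 := by
    show |c z0| < _
    linarith [abs_nonneg (fxy z0), abs_nonneg (k z0)]
  have v4 : (fun q : (ℝ × ℝ) × ℝ => |k q.1|) (z0, 0) < |fxy z0| + |c z0| + |k z0| + 1 := by
    show |k z0| < _
    linarith [abs_nonneg (fxy z0), abs_nonneg (c z0)]
  have hev := (c1.continuousAt.eventually_const_lt v1).and ((c2.continuousAt.eventually_lt_const v2).and
    ((c3.continuousAt.eventually_lt_const v3).and (c4.continuousAt.eventually_lt_const v4)))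
  obtain ⟨r, hr, hball⟩ := Metric.eventually_nhds_iff.mp hev
  refine ⟨r, |fxy z0| + |c z0| + |k z0| + 1, mu fx fy z0 * (σ * fy z0) / 2, hr, by positivity, by linarith, ?_⟩
  intro ε hε hεr z h1 h2
  have h3 : dist (z, ε) (z0, (0 : ℝ)) < r := by
    rw [Prod.dist_eq]
    refine max_lt ?_ ?_
    · rw [Prod.dist_eq]
      refine max_lt ?_ ?_
      · rw [Real.dist_eq]
        exact h1
      · rw [Real.dist_eq]
        exact h2
    · rw [Real.dist_eq, sub_zero, abs_of_pos hε]
      exact hεr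
  obtain ⟨k1, k2, k3, k4⟩ := hball h3
  exact ⟨k1, k2.le, k3.le, k4.le⟩

theorem locG {f fx fy fxx fxy fyy g gx gy gxx gxy gyy c k : ℝ × ℝ → ℝ}
    (hf : C2 f fx fy fxx fxy fyy) (hg : C2 g gx gy gxx gxy gyy) (hc : Continuous c)
    (hk : Continuous k)
    (hpde : ∀ (ε : ℝ) (z : ℝ × ℝ), f z - ε * g z = 0 →
      (fxx z - ε * gxx z) + (fyy z - ε * gyy z) = c z * (fx z - ε * gx z) - ε * k z)
    (hray : ∀ a b y : ℝ, a < b → ∃ x ∈ Set.Ioo a b, f (x, y) ≠ 0)
    (z0 : ℝ × ℝ) (h0 : f z0 = 0) (hx : fx z0 = 0) (hy : fy z0 ≠ 0) :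
    LocY f fx fy fyy g gx gy gyy z0 := by
  obtain ⟨σ, hσ, hσ0⟩ : ∃ σ : ℝ, (σ = 1 ∨ σ = -1) ∧ 0 < σ * fy z0 := by
    rcases lt_or_gt_of_ne hy with h1 | h1
    · exact ⟨-1, Or.inr rfl, by linarith⟩
    · exact ⟨1, Or.inl rfl, by linarith⟩
  obtain ⟨r, M, b, hr, hM, hb, hloc⟩ := LocG_loc hf hg hc hk z0 hσ0
  have hσσ : σ * σ = 1 := by rcases hσ with h | h <;> rw [h] <;> norm_num
  -- a point where `f ≠ 0`
  obtain ⟨xs, hx1, hx2, hx3⟩ : ∃ xs : ℝ, 0 < σ * (z0.1 - xs) ∧ σ * (z0.1 - xs) < b * (r / 2) / 2 ∧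
      f (xs, z0.2) ≠ 0 := by
    have hpos : 0 < b * (r / 2) / 2 := by positivity
    rcases hσ with h1 | h1
    · obtain ⟨xs, h2, h3⟩ := hray (z0.1 - b * (r / 2) / 2) z0.1 z0.2 (by linarith)
      exact ⟨xs, by rw [h1]; linarith [h2.2], by rw [h1]; linarith [h2.1], h3⟩
    · obtain ⟨xs, h2, h3⟩ := hray z0.1 (z0.1 + b * (r / 2) / 2) z0.2 (by linarith)
      exact ⟨xs, by rw [h1]; linarith [h2.1], by rw [h1]; linarith [h2.2], h3⟩
  have hcf : Continuous f := continuous_iff_continuousAt.mpr (fun z => (hf.d0 z).continuousAt)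
  have hcg : Continuous g := continuous_iff_continuousAt.mpr (fun z => (hg.d0 z).continuousAt)
  have hev : ∀ᶠ q : ℝ × ℝ in nhds (z0.2, 0), f (xs, q.1) - q.2 * g (xs, q.1) ≠ 0 := by
    have h1 : Continuous (fun q : ℝ × ℝ => f (xs, q.1) - q.2 * g (xs, q.1)) := by fun_prop
    refine h1.continuousAt.eventually_ne ?_
    simp only [zero_mul, sub_zero]
    exact hx3
  obtain ⟨δ, hδ, hball⟩ := Metric.eventually_nhds_iff.mp hev
  obtain ⟨C1, hC1⟩ : ∃ C1, C1 = Real.exp ((3 * M + 1) * (r / 2)) * (r / 2) := ⟨_, rfl⟩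
  have hC0 : 0 < C1 := by rw [hC1]; positivity
  refine ⟨min (min (r / 2) (b * (r / 2) / 4)) (min (σ * (z0.1 - xs)) (δ / (C1 + 1))),
    lt_min (lt_min (by positivity) (by positivity)) (lt_min hx1 (by positivity)), ?_⟩
  intro ε hε hερ x y hF hz hreg s hs w hxw hyw hw
  simp only [lt_min_iff] at hερ hxw hyw
  obtain ⟨⟨ε1, ε2⟩, ε3, ε4⟩ := hερ
  obtain ⟨⟨a1, a2⟩, a3, a4⟩ := hxw
  obtain ⟨⟨d1, d2⟩, d3, d4⟩ := hyw
  by_contra hno
  obtain ⟨hyt, hxt⟩ := LocG_core (LocG_C2 hf hg ε) hε (fun z hz' => hpde ε z hz') hF hz hs hσ hw hr hM hb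
    (hloc ε hε (by linarith)) a1 d1 hno
  rw [← hC1] at hyt
  -- the value `xs` is attained
  have hcx : Continuous x := continuous_iff_continuousAt.mpr (fun t => (hF.hx t).continuousAt)
  have habs : |σ * (x w - z0.1)| = |x w - z0.1| := by
    rcases hσ with h1 | h1
    · rw [h1, one_mul]
    · rw [h1, neg_one_mul, abs_neg]
  have hl1 := neg_abs_le (σ * (x w - z0.1))
  have hl2 := le_abs_self (σ * (x w - z0.1))
  rw [habs] at hl1 hl2
  have g1 : σ * xs ≤ σ * x w := by
    have e1 : σ * x w - σ * xs = σ * (x w - z0.1) + σ * (z0.1 - xs) := by ring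
    linarith
  have g2 : σ * x (w + r / 2) ≤ σ * xs := by
    have e1 : σ * x w - σ * xs = σ * (x w - z0.1) + σ * (z0.1 - xs) := by ring
    linarith
  have hmem : xs ∈ Set.uIcc (x w) (x (w + r / 2)) := by
    rw [Set.mem_uIcc]
    rcases hσ with h1 | h1
    · right
      rw [h1] at g1 g2
      constructor <;> linarith
    · left
      rw [h1] at g1 g2
      constructor <;> linarith
  obtain ⟨t, ht, hxs⟩ := intermediate_value_uIcc (f := x) (a := w) (b := w + r / 2) (hcx.continuousOn) hmem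
  rw [Set.uIcc_of_le (by linarith : w ≤ w + r / 2)] at ht
  have h1 := hyt t ht
  have h2 : ε * C1 + ε < δ := by
    have h3 : ε * (C1 + 1) < δ := (lt_div_iff₀ (by positivity)).1 ε4
    linarith
  have h2' : |y w - z0.2| * (C1 + 1) < δ := (lt_div_iff₀ (by positivity)).1 d4
  have h4 : |y t - z0.2| < δ := by
    have h5 : |y t - z0.2| ≤ |y t - y w| + |y w - z0.2| := by
      have h6 : y t - z0.2 = (y t - y w) + (y w - z0.2) := by ring
      rw [h6]
      exact abs_add_le _ _
    have h7 : max ε |y w - z0.2| * (C1 + 1) < δ := by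
      rcases le_total ε |y w - z0.2| with h | h
      · rw [max_eq_right h]
        exact h2'
      · rw [max_eq_left h]
        linarith
    have h8 := le_max_left ε |y w - z0.2|
    have h9 := le_max_right ε |y w - z0.2|
    have h10 : ε * C1 ≤ max ε |y w - z0.2| * C1 := mul_le_mul_of_nonneg_right h8 hC0.le
    linarith
  have h11 : ε < δ := by
    have : 0 < ε * C1 := by positivity
    linarith
  have h12 := @hball (y t, ε) (by
    rw [Prod.dist_eq]
    refine max_lt ?_ ?_
    · rw [Real.dist_eq]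
      exact h4
    · rw [Real.dist_eq, sub_zero, abs_of_pos hε]
      exact h11)
  apply h12
  have h13 := hz t
  rw [hxs] at h13
  exact h13

end Pool.Agent.EVS
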