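import Pool.Agent.EVS.Defs

/-!
# Project EVS, module LocS2: extreme points of `y` near a singular zero

PLAN. `LocR` is the first part of `hS` for `K = 0`. `LocY`: choose `K ≥ |k z|` for all `z` near `z0` (`hk`, e.g. `K = |k z0| + 1`, radius `ρ1`), `ρ = min` of `ρ1` and the `ρ` of `hS K`; `w' = w`. Fix `ε, x, y, s, w` and write `F = f - ε g`, `Fx = fx - ε gx`, .. (functions), `Γ t = (x t, y t)`, `m = mu Fx Fy (Γ w) > 0`.
As `s y` is minimal at `w`, `y' w = m Fx (Γ w) = 0`, so `Fx (Γ w) = 0` and `Fy (Γ w) ≠ 0` (regularity). Second order condition: `p t = Fx (Γ t)` has at `w` the derivative `Fxx x' + Fxy y' = - m Fxx Fy` (values at `Γ w`). Claim `0 ≤ s p'(w)`: otherwise `s p'(w) < 0`, so `s p < 0` on an interval `(w, w + δ)` (`p w = 0`; e.g. `HasDerivAt.eventually_..`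
or the definition of the derivative), so the derivative `s mu Fx` of `s y` is negative there, `s y (w + δ/2) < s y w`, contradiction. So `0 ≤ - s m Fxx Fy`, i.e. `s Fy Fxx ≤ 0` at `Γ w`. The equation gives `Fxx + Fyy = - ε k` (`Fx = 0`), so `s Fy Fyy = - s Fy Fxx - s Fy ε k ≥ |Fy| |Fxx| - |Fy| ε k > 0` because `|Fxx| > ε K ≥ ε k` and
`- s Fy Fxx = |Fy| |Fxx|`. The segment `uIcc w w` is `{w}`.
-/

set_option autoImplicit false

namespace Pool.Agent.EVS

open Pool.Agent.OVL

private theorem LocS2_second {p b : ℝ → ℝ} {s w d : ℝ} {μ : ℝ → ℝ} (hμ : ∀ t, 0 < μ t) (hp : HasDerivAt p d w) (hp0 : p w = 0)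
    (hb : ∀ t, HasDerivAt b (μ t * p t) t) (hmin : ∀ t, s * b w ≤ s * b t) : 0 ≤ s * d := by
  by_contra hneg
  push Not at hneg
  have h1 : HasDerivAt (fun t => s * p t) (s * d) w := hp.const_mul s
  have h2 := (hasDerivAt_iff_tendsto_slope.1 h1).eventually (Iio_mem_nhds hneg)
  rw [eventually_nhdsWithin_iff] at h2
  obtain ⟨δ, hδ, h3⟩ := Metric.eventually_nhds_iff.1 h2
  have h4 : ∀ t, w < t → t < w + δ → s * p t < 0 := by
    intro t ht1 ht2
    have h5 := @h3 t (by rw [Real.dist_eq, abs_lt]; constructor <;> linarith) (ne_of_gt ht1)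
    simp only [slope_def_field, hp0, mul_zero, sub_zero] at h5
    have h6 : 0 < t - w := by linarith
    by_contra h7
    push Not at h7
    exact absurd h5 (not_lt.2 (div_nonneg h7 h6.le))
  have h5 : StrictAntiOn (fun t => s * b t) (Set.Icc w (w + δ / 2)) := by
    refine strictAntiOn_of_deriv_neg (convex_Icc _ _) ?_ ?_
    · exact fun t _ => ((hb t).const_mul s).continuousAt.continuousWithinAt
    · intro t ht
      rw [interior_Icc] at ht
      rw [((hb t).const_mul s).deriv]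
      have h6 := h4 t ht.1 (by linarith [ht.2])
      have h7 := mul_neg_of_pos_of_neg (hμ t) h6
      have h8 : s * (μ t * p t) = μ t * (s * p t) := by ring
      rw [h8]
      exact h7
  have h6 := h5 (Set.left_mem_Icc.2 (by linarith)) (Set.right_mem_Icc.2 (by linarith)) (by linarith : w < w + δ / 2)
  exact absurd (hmin (w + δ / 2)) (not_le.2 h6)

private theorem LocS2_alg {s m a b c ek : ℝ} (hs : s = 1 ∨ s = -1) (hm : 0 < m) (hb : b ≠ 0) (h1 : 0 ≤ s * (-(m * b) * a))
    (h2 : a + c = -ek) (h3 : |ek| < |a|) : 0 < s * (b * c) := by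
  have h4 : 0 ≤ -(s * (b * a)) := by
    have h5 : s * (-(m * b) * a) = m * (-(s * (b * a))) := by ring
    rw [h5] at h1
    exact nonneg_of_mul_nonneg_right h1 hm
  have hs1 : |s| = 1 := by
    rcases hs with rfl | rfl <;> simp
  have h5 : -(s * (b * a)) = |b| * |a| := by
    rw [← abs_of_nonneg h4, abs_neg, abs_mul, hs1, one_mul, abs_mul]
  have h6 : c = -a - ek := by linarith
  have h7 : s * (b * c) = -(s * (b * a)) - s * (b * ek) := by
    rw [h6]
    ring
  have h8 : s * (b * ek) ≤ |b| * |ek| := by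
    calc s * (b * ek) ≤ |s * (b * ek)| := le_abs_self _
      _ = |b| * |ek| := by rw [abs_mul, hs1, one_mul, abs_mul]
  have h9 : |b| * |ek| < |b| * |a| := mul_lt_mul_of_pos_left h3 (abs_pos.2 hb)
  rw [h7, h5]
  linarith

theorem locS2 {f fx fy fxx fxy fyy g gx gy gxx gxy gyy c k : ℝ × ℝ → ℝ}
    (hf : C2 f fx fy fxx fxy fyy) (hg : C2 g gx gy gxx gxy gyy) (hk : Continuous k)
    (hpde : ∀ (ε : ℝ) (z : ℝ × ℝ), f z - ε * g z = 0 →
      (fxx z - ε * gxx z) + (fyy z - ε * gyy z) = c z * (fx z - ε * gx z) - ε * k z)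
    (z0 : ℝ × ℝ)
    (hS : ∀ K : ℝ, ∃ ρ : ℝ, 0 < ρ ∧ ∀ ε : ℝ, 0 < ε → ε < ρ → ∀ z : ℝ × ℝ,
      |z.1 - z0.1| < ρ → |z.2 - z0.2| < ρ → f z - ε * g z = 0 →
      (fx z - ε * gx z ≠ 0 ∨ fy z - ε * gy z ≠ 0) ∧
      (fx z - ε * gx z = 0 → ε * K < |fxx z - ε * gxx z|)) :
    LocY f fx fy fyy g gx gy gyy z0 ∧ LocR f fx fy g gx gy z0 := by
  constructor
  · obtain ⟨ρ1, hρ1, hk1⟩ := Metric.continuousAt_iff.1 hk.continuousAt 1 one_pos
    obtain ⟨ρ2, hρ2, hS2⟩ := hS (|k z0| + 1)
    refine ⟨min ρ1 ρ2, lt_min hρ1 hρ2, fun ε hε1 hε2 x y hfl hz hreg s hs w hx hy hmin => ?_⟩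
    have hkb : |k (x w, y w)| ≤ |k z0| + 1 := by
      have h1 : dist (x w, y w) z0 < ρ1 := by
        rw [Prod.dist_eq, Real.dist_eq, Real.dist_eq]
        exact max_lt (lt_of_lt_of_le hx (min_le_left _ _)) (lt_of_lt_of_le hy (min_le_left _ _))
      have h2 := hk1 h1
      rw [Real.dist_eq] at h2
      have h3 : |k (x w, y w)| - |k z0| ≤ |k (x w, y w) - k z0| := abs_sub_abs_le_abs_sub _ _
      linarith
    obtain ⟨h1, h2⟩ := hS2 ε hε1 (lt_of_lt_of_le hε2 (min_le_right _ _)) (x w, y w)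
      (lt_of_lt_of_le hx (min_le_right _ _)) (lt_of_lt_of_le hy (min_le_right _ _)) (hz w)
    have hμ : ∀ t, 0 < mu (fun z => fx z - ε * gx z) (fun z => fy z - ε * gy z) (x t, y t) := by
      intro t
      unfold mu
      positivity
    have hFx : fx (x w, y w) - ε * gx (x w, y w) = 0 := by
      have h3 : IsLocalMin (fun t => s * y t) w := Filter.Eventually.of_forall hmin
      have h4 := h3.hasDerivAt_eq_zero ((hfl.hy w).const_mul s)
      have hs0 : s ≠ 0 := by rcases hs with rfl | rfl <;> norm_num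
      rcases mul_eq_zero.1 h4 with h5 | h5
      · exact absurd h5 hs0
      · rcases mul_eq_zero.1 h5 with h6 | h6
        · exact absurd h6 (hμ w).ne'
        · exact h6
    have hFy : fy (x w, y w) - ε * gy (x w, y w) ≠ 0 := by
      rcases h1 with h1 | h1
      · exact absurd hFx h1
      · exact h1
    have hp : HasDerivAt (fun t => fx (x t, y t) - ε * gx (x t, y t))
        (-(mu (fun z => fx z - ε * gx z) (fun z => fy z - ε * gy z) (x w, y w) * (fy (x w, y w) - ε * gy (x w, y w))) *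
          (fxx (x w, y w) - ε * gxx (x w, y w))) w := by
      have h3 : HasDerivAt (fun t => (x t, y t)) _ w := (hfl.hx w).prodMk (hfl.hy w)
      have h4 := (hf.dx (x w, y w)).comp_hasDerivAt w h3
      have h5 := (hg.dx (x w, y w)).comp_hasDerivAt w h3
      have h6 := h4.sub (h5.const_mul ε)
      refine h6.congr_deriv ?_
      simp only [lin, ContinuousLinearMap.add_apply, ContinuousLinearMap.smul_apply, ContinuousLinearMap.coe_fst',
        ContinuousLinearMap.coe_snd', smul_eq_mul, hFx]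
      ring
    have h3 := LocS2_second (s := s) (b := y) hμ hp hFx hfl.hy hmin
    have h4 := hpde ε (x w, y w) (hz w)
    rw [hFx, mul_zero, zero_sub] at h4
    refine ⟨w, fun r hr => ?_, ?_⟩
    · rw [Set.uIcc_self, Set.mem_singleton_iff] at hr
      rw [hr]
      exact hFy
    · refine LocS2_alg hs (hμ w) hFy h3 h4 (lt_of_le_of_lt ?_ (h2 hFx))
      rw [abs_mul, abs_of_pos hε1]
      exact mul_le_mul_of_nonneg_left hkb hε1.le
  · obtain ⟨ρ, hρ, h⟩ := hS 0
    exact ⟨ρ, hρ, fun ε h1 h2 z h3 h4 h5 => (h ε h1 h2 z h3 h4 h5).1⟩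

end Pool.Agent.EVS
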