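import Pool.Agent.EVS.LocS1
import Pool.Agent.EVS.LocS2
import Pool.Agent.EVS.LocG
import Pool.Agent.OVL.CylU

/-!
# Project EVS, module LocA: the local statements at every point

Four cases: `fn U z0 ≠ 0`; `fn U z0 = 0` and `fn (Dx U) z0 ≠ 0`; `fn U z0 = fn (Dx U) z0 = 0` and `fn (Dy U) z0 ≠ 0`
(`locG`); all three vanish (`reg_iff`, `locS1`, `locS2`).
-/

set_option autoImplicit false

namespace Pool.Agent.EVS

open MvPolynomial Pool.Agent.SHB Pool.Agent.OVL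

private theorem LocA_near {p q : ℝ × ℝ → ℝ} (hp : Continuous p) (hq : Continuous q) (z0 : ℝ × ℝ)
    (h : p z0 ≠ 0) : ∃ ρ : ℝ, 0 < ρ ∧ ∀ ε : ℝ, 0 < ε → ε < ρ → ∀ z : ℝ × ℝ,
      |z.1 - z0.1| < ρ → |z.2 - z0.2| < ρ → p z - ε * q z ≠ 0 := by
  have hc : Continuous (fun u : ℝ × (ℝ × ℝ) => p u.2 - u.1 * q u.2) := by fun_prop
  have h1 : ∀ᶠ u in nhds ((0 : ℝ), z0), p u.2 - u.1 * q u.2 ≠ 0 := by
    refine hc.continuousAt.eventually_ne ?_
    simpa using h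
  obtain ⟨ρ, hρ, hball⟩ := Metric.eventually_nhds_iff.mp h1
  refine ⟨ρ, hρ, fun ε h0 hε z hz1 hz2 => ?_⟩
  refine hball (y := (ε, z)) ?_
  rw [Prod.dist_eq, max_lt_iff]
  refine ⟨?_, ?_⟩
  · rw [Real.dist_eq, sub_zero, abs_of_pos h0]
    exact hε
  · rw [Prod.dist_eq, max_lt_iff, Real.dist_eq, Real.dist_eq]
    exact ⟨hz1, hz2⟩

private theorem LocA_crit {x y : ℝ → ℝ} {F G : ℝ × ℝ → ℝ} (hF : Flow F G x y) {s w : ℝ}
    (hs : s = 1 ∨ s = -1) (hmin : ∀ t, s * y w ≤ s * y t) : F (x w, y w) = 0 := by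
  have hs0 : s ≠ 0 := by rcases hs with h | h <;> rw [h] <;> norm_num
  have h1 : IsLocalMin (fun t => s * y t) w := Filter.Eventually.of_forall hmin
  have h2 := h1.hasDerivAt_eq_zero ((hF.hy w).const_mul s)
  have h3 := (mul_eq_zero.mp h2).resolve_left hs0
  have h4 : mu F G (x w, y w) ≠ 0 := by
    have : 0 < mu F G (x w, y w) := by
      unfold mu
      positivity
    exact this.ne'
  exact (mul_eq_zero.mp h3).resolve_left h4

theorem locA {l : ℕ} {U : P2} (hU : Spin l U) (hl : 1 ≤ l) (hR : RealP U)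
    (h0 : coeff (ex 0 0) U ≠ 0) (h1 : coeff (ex 1 0) U ≠ 0)
    (hG : ∀ w : ℂ, Vf U w = 0 → eval ![w, (starRingEnd ℂ) w] (pderiv 0 U) = 0 → GenAt U w)
    (z0 : ℝ × ℝ) :
    LocY (fn U) (fn (Dx U)) (fn (Dy U)) (fn (Dy (Dy U)))
      (fn (Ze l)) (fn (Dx (Ze l))) (fn (Dy (Ze l))) (fn (Dy (Dy (Ze l)))) z0 ∧
    LocR (fn U) (fn (Dx U)) (fn (Dy U)) (fn (Ze l)) (fn (Dx (Ze l))) (fn (Dy (Ze l))) z0 := by
  by_cases hf : fn U z0 = 0
  · by_cases hx : fn (Dx U) z0 = 0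
    · by_cases hy : fn (Dy U) z0 = 0
      · have hd : eval ![E z0, (starRingEnd ℂ) (E z0)] (pderiv 0 U) = 0 := by
          by_contra hne
          rcases (reg_iff U hR z0).mpr hne with h | h
          · exact h hx
          · exact h hy
        have hg : GenAt U (E z0) := hG _ hf hd
        exact locS2 (c2 U) (c2 (Ze l)) (kk_cont l) (c := cc l) (k := kk l)
          (fun ε z hz => pde_Ue hU ε z hz) z0 (fun K => locS1 hU hR z0 hg K)
      · refine ⟨?_, ?_⟩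
        · exact locG (c2 U) (c2 (Ze l)) (cc_cont l) (kk_cont l)
            (fun ε z hz => pde_Ue hU ε z hz) (cyl hU hl hR h0 h1).ray z0 hf hx hy
        · obtain ⟨ρ, hρ, hn⟩ := LocA_near (fn_cont (Dy U)) (fn_cont (Dy (Ze l))) z0 hy
          exact ⟨ρ, hρ, fun ε he hε z hz1 hz2 _ => Or.inr (hn ε he hε z hz1 hz2)⟩
    · obtain ⟨ρ, hρ, hn⟩ := LocA_near (fn_cont (Dx U)) (fn_cont (Dx (Ze l))) z0 hx
      refine ⟨⟨ρ, hρ, fun ε he hε x y hF hz hreg s hs w hw1 hw2 hmin => ?_⟩,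
        ⟨ρ, hρ, fun ε he hε z hz1 hz2 _ => Or.inl (hn ε he hε z hz1 hz2)⟩⟩
      exact absurd (LocA_crit hF hs hmin) (hn ε he hε (x w, y w) hw1 hw2)
  · obtain ⟨ρ, hρ, hn⟩ := LocA_near (fn_cont U) (fn_cont (Ze l)) z0 hf
    refine ⟨⟨ρ, hρ, fun ε he hε x y hF hz hreg s hs w hw1 hw2 hmin => ?_⟩,
      ⟨ρ, hρ, fun ε he hε z hz1 hz2 hz => absurd hz (hn ε he hε z hz1 hz2)⟩⟩
    exact absurd (hz w) (hn ε he hε (x w, y w) hw1 hw2)

end Pool.Agent.EVS
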