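import Pool.Agent.EVS.Exp

/-!
# Project EVS, module LocS1: the level sets `f = ε g` near a singular zero in general position

`f = fn U`, `g = fn (Ze l) ≥ 1`, `w0 = E z0 ≠ 0`, `n = m + 2` the order of the zero, `c` the leading coefficient, `Re (c w0^n) ≠ 0`.
On the level set `ε ≤ K ‖t‖^n`, `t = E z - w0`. `LocS1_min`: `Re (C κ^(m+1))` and `Re (C κ^m)` do not vanish at the same time if
`Re C ≠ 0` (compactness of the unit circle); `LocS1_core`: the estimates for small `t`; `locS1`: the leading terms of `U`, `Dx U`, `Dy U`,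
`Dx (Dx U)` (module Exp).
-/

set_option autoImplicit false

namespace Pool.Agent.EVS

open MvPolynomial Pool.Agent.SHB Pool.Agent.OVL

private theorem LocS1_E0 (z : ℝ × ℝ) : E z ≠ 0 := Complex.exp_ne_zero _

private theorem LocS1_Ec : Continuous E := by
  unfold E
  fun_prop

private theorem LocS1_small (a : ℝ) {δ : ℝ} (hδ : 0 < δ) : ∃ r : ℝ, 0 < r ∧ ∀ s : ℝ, 0 ≤ s → s < r → a * s < δ := by
  have ha : 0 < |a| + 1 := by positivity
  refine ⟨δ / (|a| + 1), by positivity, fun s hs hs' => ?_⟩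
  have h1 : s * (|a| + 1) < δ := (lt_div_iff₀ ha).1 hs'
  have h2 : a * s ≤ |a| * s := mul_le_mul_of_nonneg_right (le_abs_self a) hs
  nlinarith

/-- `Re (C θ^(m+1))` and `Re (C θ^m)` do not vanish at the same time -/
private theorem LocS1_min {C : ℂ} (hC : C.re ≠ 0) (m : ℕ) : ∃ δ : ℝ, 0 < δ ∧ ∀ κ : ℂ,
    δ * ‖κ‖ ^ (m + 1) ≤ |(C * κ ^ (m + 1)).re| + ‖κ‖ * |(C * κ ^ m).re| := by
  have hC0 : C ≠ 0 := by
    rintro rfl
    exact hC rfl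
  let φ : ℂ → ℝ := fun θ => |(C * θ ^ (m + 1)).re| + |(C * θ ^ m).re|
  have hφ : Continuous φ := by
    refine Continuous.add ?_ ?_
    · exact (Complex.continuous_re.comp (continuous_const.mul (continuous_id.pow (m + 1)))).abs
    · exact (Complex.continuous_re.comp (continuous_const.mul (continuous_id.pow m))).abs
  have hne : (Metric.sphere (0 : ℂ) 1).Nonempty := ⟨1, by simp⟩
  obtain ⟨θ₀, hθ₀, hmin⟩ := (isCompact_sphere (0 : ℂ) 1).exists_isMinOn hne hφ.continuousOn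
  have hpos : 0 < φ θ₀ := by
    have h0 : 0 ≤ φ θ₀ := by positivity
    refine lt_of_le_of_ne h0 fun h => ?_
    have hn : ‖θ₀‖ = 1 := by simpa using hθ₀
    have h1 : (C * θ₀ ^ (m + 1)).re = 0 ∧ (C * θ₀ ^ m).re = 0 := by
      have h2 : |(C * θ₀ ^ (m + 1)).re| + |(C * θ₀ ^ m).re| = 0 := h.symm
      have h3 := abs_nonneg (C * θ₀ ^ (m + 1)).re
      have h4 := abs_nonneg (C * θ₀ ^ m).re
      exact ⟨abs_eq_zero.1 (by linarith), abs_eq_zero.1 (by linarith)⟩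
    have hθ0 : θ₀ ≠ 0 := by
      rintro rfl
      simp at hn
    have hY : C * θ₀ ^ m ≠ 0 := mul_ne_zero hC0 (pow_ne_zero m hθ0)
    have hYim : (C * θ₀ ^ m).im ≠ 0 := fun h5 => hY (Complex.ext h1.2 h5)
    have h6 : (C * θ₀ ^ (m + 1)).re = (C * θ₀ ^ m).re * θ₀.re - (C * θ₀ ^ m).im * θ₀.im := by
      rw [pow_succ, ← mul_assoc, Complex.mul_re]
    rw [h1.1, h1.2, zero_mul, zero_sub] at h6
    have h7 : θ₀.im = 0 := by
      rcases mul_eq_zero.1 (neg_eq_zero.1 h6.symm) with h8 | h8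
      · exact absurd h8 hYim
      · exact h8
    have h8 : θ₀ = ((θ₀.re : ℝ) : ℂ) := Complex.ext rfl h7
    have h9 := h1.2
    rw [h8, ← Complex.ofReal_pow, Complex.re_mul_ofReal] at h9
    rcases mul_eq_zero.1 h9 with h10 | h10
    · exact hC h10
    · have h11 : θ₀.re = 0 := by
        by_contra h12
        exact pow_ne_zero m h12 h10
      apply hθ0
      rw [h8, h11]
      rfl
  refine ⟨φ θ₀, hpos, fun κ => ?_⟩
  by_cases hκ : κ = 0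
  · rw [hκ, norm_zero, zero_pow (Nat.succ_ne_zero m), mul_zero, zero_mul, add_zero]
    exact abs_nonneg _
  have hn : 0 < ‖κ‖ := norm_pos_iff.2 hκ
  have hnC : ((‖κ‖ : ℝ) : ℂ) ≠ 0 := by exact_mod_cast hn.ne'
  have h1 : κ / (‖κ‖ : ℂ) ∈ Metric.sphere (0 : ℂ) 1 := by
    rw [mem_sphere_zero_iff_norm, norm_div, Complex.norm_real, norm_norm, div_self hn.ne']
  have h2 : φ θ₀ ≤ φ (κ / (‖κ‖ : ℂ)) := hmin h1
  have h3 : ∀ k : ℕ, |(C * κ ^ k).re| = ‖κ‖ ^ k * |(C * (κ / (‖κ‖ : ℂ)) ^ k).re| := by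
    intro k
    have h4 : C * κ ^ k = ((‖κ‖ ^ k : ℝ) : ℂ) * (C * (κ / (‖κ‖ : ℂ)) ^ k) := by
      rw [div_pow, Complex.ofReal_pow]
      field_simp
    rw [h4, Complex.re_ofReal_mul, abs_mul, abs_of_nonneg (pow_nonneg hn.le k)]
  rw [h3, h3]
  calc φ θ₀ * ‖κ‖ ^ (m + 1) ≤ φ (κ / (‖κ‖ : ℂ)) * ‖κ‖ ^ (m + 1) :=
        mul_le_mul_of_nonneg_right h2 (pow_nonneg hn.le _)
    _ = _ := by
        show (|(C * (κ / (‖κ‖ : ℂ)) ^ (m + 1)).re| + |(C * (κ / (‖κ‖ : ℂ)) ^ m).re|) * ‖κ‖ ^ (m + 1) = _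
        ring

private theorem LocS1_m (m : ℕ) : (1 : ℝ) ≤ 2 * ((m : ℝ) + 2) ∧ (1 : ℝ) ≤ 2 * (((m : ℝ) + 1) * ((m : ℝ) + 2)) := by
  have hm0 : (0 : ℝ) ≤ (m : ℝ) := Nat.cast_nonneg m
  constructor <;> nlinarith

private theorem LocS1_abs (m : ℕ) (x : ℝ) : |x| ≤ |2 * (((m : ℝ) + 2) * x)| ∧
    |x| ≤ |2 * (((m : ℝ) + 1) * (((m : ℝ) + 2) * x))| := by
  have h1 := LocS1_m m
  have hx := abs_nonneg x
  have h2 : 2 * (((m : ℝ) + 2) * x) = (2 * ((m : ℝ) + 2)) * x := by ring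
  have h3 : 2 * (((m : ℝ) + 1) * (((m : ℝ) + 2) * x)) = (2 * (((m : ℝ) + 1) * ((m : ℝ) + 2))) * x := by ring
  rw [h2, h3, abs_mul (2 * ((m : ℝ) + 2)), abs_mul (2 * (((m : ℝ) + 1) * ((m : ℝ) + 2))),
    abs_of_nonneg (zero_le_one.trans h1.1), abs_of_nonneg (zero_le_one.trans h1.2)]
  exact ⟨le_mul_of_one_le_left hx h1.1, le_mul_of_one_le_left hx h1.2⟩

private theorem LocS1_core (m : ℕ) {c w0 : ℂ} (hw : w0 ≠ 0) (hre : (c * w0 ^ (m + 2)).re ≠ 0) {K0 K1 K1' K2 M : ℝ}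
    (K : ℝ) (h0 : 0 ≤ K0) (hM : 0 ≤ M) : ∃ r : ℝ, 0 < r ∧ r ≤ 1 ∧ ∀ t : ℂ, ‖t‖ < r →
    ∀ V Vx Vy Vxx G Gx Gxx ε : ℝ, 0 < ε → 1 ≤ G → |Gx| ≤ M → |Gxx| ≤ M →
      |V - 2 * (c * t ^ (m + 2)).re| ≤ K0 * ‖t‖ ^ (m + 3) →
      |Vx - 2 * (((m : ℝ) + 2) * (c * w0 * t ^ (m + 1)).re)| ≤ K1 * ‖t‖ ^ (m + 2) →
      |Vy - 2 * (((m : ℝ) + 2) * -(c * w0 * t ^ (m + 1)).im)| ≤ K1' * ‖t‖ ^ (m + 2) →
      |Vxx - 2 * (((m : ℝ) + 1) * (((m : ℝ) + 2) * (c * w0 ^ 2 * t ^ m).re))| ≤ K2 * ‖t‖ ^ (m + 1) →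
      V - ε * G = 0 →
      (Vx - ε * Gx ≠ 0 ∨ Vy ≠ 0) ∧ (Vx - ε * Gx = 0 → ε * K < |Vxx - ε * Gxx|) := by
  have hc : c ≠ 0 := by
    rintro rfl
    rw [zero_mul] at hre
    exact hre rfl
  have hcn : 0 < ‖c‖ := norm_pos_iff.2 hc
  have hwn : 0 < ‖w0‖ := norm_pos_iff.2 hw
  obtain ⟨δ, hδ, hmin⟩ := LocS1_min hre m
  obtain ⟨r1, hr1, hs1⟩ := LocS1_small (K1 + K1' + M * (2 * ‖c‖ + K0)) (mul_pos hcn hwn)
  obtain ⟨r2, hr2, hs2⟩ := LocS1_small ((K1 + M * (2 * ‖c‖ + K0)) +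
    ((|K| + M) * (2 * ‖c‖ + K0) + K2) / ‖w0‖) (div_pos hδ (pow_pos hwn (m + 1)))
  refine ⟨min 1 (min r1 r2), lt_min one_pos (lt_min hr1 hr2), min_le_left _ _, ?_⟩
  intro t ht V Vx Vy Vxx G Gx Gxx ε hε hG hGx hGxx hV hVx hVy hVxx hz
  have ht1 : ‖t‖ ≤ 1 := (ht.trans_le (min_le_left _ _)).le
  have ht2 : ‖t‖ < r1 := ht.trans_le ((min_le_right _ _).trans (min_le_left _ _))
  have ht3 : ‖t‖ < r2 := ht.trans_le ((min_le_right _ _).trans (min_le_right _ _))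
  have hm0 : (0 : ℝ) ≤ (m : ℝ) := Nat.cast_nonneg m
  obtain ⟨s, hs⟩ : ∃ s : ℝ, s = ‖t‖ := ⟨_, rfl⟩
  have hs0 : 0 ≤ s := hs ▸ norm_nonneg t
  rw [← hs] at ht1 ht2 ht3 hV hVx hVy hVxx
  have hpow : s ^ (m + 2) ≤ s ^ (m + 1) := pow_le_pow_of_le_one hs0 ht1 (by omega)
  have hpow3 : s ^ (m + 3) ≤ s ^ (m + 2) := pow_le_pow_of_le_one hs0 ht1 (by omega)
  -- the bound for ε
  have hεb : ε ≤ (2 * ‖c‖ + K0) * s ^ (m + 2) := by
    have h3 : |(c * t ^ (m + 2)).re| ≤ ‖c‖ * s ^ (m + 2) := by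
      refine (Complex.abs_re_le_norm _).trans (le_of_eq ?_)
      rw [norm_mul, norm_pow, ← hs]
    have h4 : ε ≤ ε * G := le_mul_of_one_le_right hε.le hG
    have h5 := (abs_le.1 hV).2
    have h6 := (abs_le.1 h3).2
    have h7 : K0 * s ^ (m + 3) ≤ K0 * s ^ (m + 2) := mul_le_mul_of_nonneg_left hpow3 h0
    nlinarith
  have hspos : 0 < s := by
    rcases hs0.lt_or_eq with h | h
    · exact h
    · rw [← h, zero_pow (by omega), mul_zero] at hεb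
      exact absurd hε (not_lt.2 hεb)
  have hsp : 0 < s ^ (m + 1) := pow_pos hspos _
  have hK3 : 0 ≤ 2 * ‖c‖ + K0 := by positivity
  have hεM : ε * M ≤ M * (2 * ‖c‖ + K0) * s ^ (m + 2) := by
    have := mul_le_mul_of_nonneg_right hεb hM
    linarith
  have hεGx : |ε * Gx| ≤ M * (2 * ‖c‖ + K0) * s ^ (m + 2) := by
    rw [abs_mul, abs_of_pos hε]
    exact (mul_le_mul_of_nonneg_left hGx hε.le).trans hεM
  -- the real part of the first derivative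
  have hA : Vx - ε * Gx = 0 → |(c * w0 * t ^ (m + 1)).re| ≤ (K1 + M * (2 * ‖c‖ + K0)) * s ^ (m + 2) := by
    intro hx
    have h3 : |2 * (((m : ℝ) + 2) * (c * w0 * t ^ (m + 1)).re)| ≤ (K1 + M * (2 * ‖c‖ + K0)) * s ^ (m + 2) := by
      have h4 : 2 * (((m : ℝ) + 2) * (c * w0 * t ^ (m + 1)).re) =
          ε * Gx - (Vx - 2 * (((m : ℝ) + 2) * (c * w0 * t ^ (m + 1)).re)) := by linarith
      rw [h4]
      refine (abs_sub _ _).trans ?_
      linarith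
    exact (LocS1_abs m _).1.trans h3
  refine ⟨?_, fun hx => ?_⟩
  · by_contra hcon
    push Not at hcon
    have h3 := hA hcon.1
    have h4 : |(c * w0 * t ^ (m + 1)).im| ≤ K1' * s ^ (m + 2) := by
      rw [hcon.2, zero_sub, abs_neg] at hVy
      have h5 := ((LocS1_abs m (-(c * w0 * t ^ (m + 1)).im)).1.trans hVy)
      rwa [abs_neg] at h5
    have h5 := Complex.norm_le_abs_re_add_abs_im (c * w0 * t ^ (m + 1))
    rw [norm_mul, norm_mul, norm_pow, ← hs] at h5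
    have h6 : ‖c‖ * ‖w0‖ * s ^ (m + 1) ≤ ((K1 + K1' + M * (2 * ‖c‖ + K0)) * s) * s ^ (m + 1) := by
      have h7 : s ^ (m + 2) = s * s ^ (m + 1) := by ring
      rw [h7] at h3 h4
      nlinarith
    have h7 := le_of_mul_le_mul_right h6 hsp
    exact absurd (hs1 s hs0 ht2) (not_lt.2 h7)
  · by_contra hcon
    have hcon' := not_lt.1 hcon
    have h3 := hA hx
    have h4 : |(c * w0 ^ 2 * t ^ m).re| ≤ ((|K| + M) * (2 * ‖c‖ + K0) + K2) * s ^ (m + 1) := by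
      have h5 : |2 * (((m : ℝ) + 1) * (((m : ℝ) + 2) * (c * w0 ^ 2 * t ^ m).re))| ≤
          ((|K| + M) * (2 * ‖c‖ + K0) + K2) * s ^ (m + 1) := by
        have h6 : 2 * (((m : ℝ) + 1) * (((m : ℝ) + 2) * (c * w0 ^ 2 * t ^ m).re)) =
            (Vxx - ε * Gxx) + ε * Gxx - (Vxx - 2 * (((m : ℝ) + 1) * (((m : ℝ) + 2) * (c * w0 ^ 2 * t ^ m).re))) := by
          ring
        rw [h6]
        have h7 : |ε * Gxx| ≤ ε * M := by
          rw [abs_mul, abs_of_pos hε]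
          exact mul_le_mul_of_nonneg_left hGxx hε.le
        have h8 : ε * K ≤ ε * |K| := mul_le_mul_of_nonneg_left (le_abs_self K) hε.le
        have h9 : ε * (|K| + M) ≤ ((2 * ‖c‖ + K0) * s ^ (m + 1)) * (|K| + M) := by
          refine mul_le_mul_of_nonneg_right (hεb.trans (mul_le_mul_of_nonneg_left hpow hK3)) (by positivity)
        refine (abs_sub _ _).trans ?_
        have h10 := abs_add_le (Vxx - ε * Gxx) (ε * Gxx)
        linarith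
      exact (LocS1_abs m _).2.trans h5
    have h5 := hmin (t / w0)
    have h6 : c * w0 ^ (m + 2) * (t / w0) ^ (m + 1) = c * w0 * t ^ (m + 1) := by
      rw [div_pow]
      field_simp
      ring
    have h7 : c * w0 ^ (m + 2) * (t / w0) ^ m = c * w0 ^ 2 * t ^ m := by
      rw [div_pow]
      field_simp
      ring
    rw [h6, h7, norm_div, ← hs] at h5
    have h8 : δ / ‖w0‖ ^ (m + 1) * s ^ (m + 1) ≤ (((K1 + M * (2 * ‖c‖ + K0)) +
        ((|K| + M) * (2 * ‖c‖ + K0) + K2) / ‖w0‖) * s) * s ^ (m + 1) := by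
      have h9 : δ * (s / ‖w0‖) ^ (m + 1) = δ / ‖w0‖ ^ (m + 1) * s ^ (m + 1) := by
        rw [div_pow]
        ring
      rw [h9] at h5
      refine h5.trans ?_
      have h10 : s / ‖w0‖ * |(c * w0 ^ 2 * t ^ m).re| ≤
          s / ‖w0‖ * (((|K| + M) * (2 * ‖c‖ + K0) + K2) * s ^ (m + 1)) :=
        mul_le_mul_of_nonneg_left h4 (by positivity)
      have h11 : (K1 + M * (2 * ‖c‖ + K0)) * s ^ (m + 2) = (K1 + M * (2 * ‖c‖ + K0)) * s * s ^ (m + 1) := by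
        rw [pow_succ s (m + 1)]
        ring
      rw [h11] at h3
      refine (add_le_add h3 h10).trans (le_of_eq ?_)
      ring
    have h9 := le_of_mul_le_mul_right h8 hsp
    exact absurd (hs2 s hs0 ht3) (not_lt.2 h9)

theorem locS1 {l : ℕ} {U : P2} (hU : Spin l U) (hR : RealP U) (z0 : ℝ × ℝ) (hG : GenAt U (E z0))
    (K : ℝ) : ∃ ρ : ℝ, 0 < ρ ∧ ∀ ε : ℝ, 0 < ε → ε < ρ → ∀ z : ℝ × ℝ,
      |z.1 - z0.1| < ρ → |z.2 - z0.2| < ρ → fn U z - ε * fn (Ze l) z = 0 →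
      (fn (Dx U) z - ε * fn (Dx (Ze l)) z ≠ 0 ∨ fn (Dy U) z - ε * fn (Dy (Ze l)) z ≠ 0) ∧
      (fn (Dx U) z - ε * fn (Dx (Ze l)) z = 0 →
        ε * K < |fn (Dx (Dx U)) z - ε * fn (Dx (Dx (Ze l))) z|) := by
  obtain ⟨n, hn, hmem, hre⟩ := hG
  obtain ⟨m, rfl⟩ : ∃ m, n = m + 2 := ⟨n - 2, by omega⟩
  generalize hw0 : E z0 = w0 at hmem hre
  have hw : w0 ≠ 0 := hw0 ▸ LocS1_E0 z0
  generalize hc : coeff (ex (m + 2) 0) (shift w0 ((starRingEnd ℂ) w0) U) = c at hre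
  have L0 : Lead U w0 (m + 1 + 1) c := hc ▸ lead_U hU hR w0 (m + 2) (by omega) hmem
  have L1 := lead_Dx L0
  have L1' := lead_Dy L0
  have L2 := lead_Dx L1
  obtain ⟨K0, hK0, b0⟩ := lead_bd L0
  obtain ⟨K1, hK1, b1⟩ := lead_bd L1
  obtain ⟨K1', hK1', b1'⟩ := lead_bd L1'
  obtain ⟨K2, hK2, b2⟩ := lead_bd L2
  obtain ⟨Ma, hMa⟩ := (isCompact_closedBall w0 1).exists_bound_of_continuousOn (Vf_cont (Dx (Ze l))).continuousOn
  obtain ⟨Mb, hMb⟩ := (isCompact_closedBall w0 1).exists_bound_of_continuousOn (Vf_cont (Dx (Dx (Ze l)))).continuousOn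
  obtain ⟨r, hr, hr1, hcore⟩ := LocS1_core m (c := c) (w0 := w0) hw hre (K0 := K0) (K1 := K1) (K1' := K1') (K2 := K2)
    (M := max 0 (max Ma Mb)) K hK0 (le_max_left _ _)
  have hcont : ContinuousAt E z0 := LocS1_Ec.continuousAt
  obtain ⟨ρ, hρ, hball⟩ := Metric.continuousAt_iff.1 hcont r hr
  refine ⟨ρ, hρ, fun ε hε _ z h1 h2 hz => ?_⟩
  have hd : dist z z0 < ρ := by
    rw [Prod.dist_eq, Real.dist_eq, Real.dist_eq]
    exact max_lt h1 h2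
  have ht := hball hd
  rw [hw0, dist_eq_norm] at ht
  have hE : E z = w0 + (E z - w0) := by ring
  have ht1 : ‖E z - w0‖ ≤ 1 := (ht.trans_le hr1).le
  have hin : E z ∈ Metric.closedBall w0 1 := by
    rw [Metric.mem_closedBall, dist_eq_norm]
    exact ht1
  have a0 := b0 _ ht1
  have a1 := b1 _ ht1
  have a1' := b1' _ ht1
  have a2 := b2 _ ht1
  rw [← hE] at a0 a1 a1' a2
  have e1 : ((((m + 1 : ℕ) : ℂ) + 1) * c * w0 * (E z - w0) ^ (m + 1)).re =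
      ((m : ℝ) + 2) * (c * w0 * (E z - w0) ^ (m + 1)).re := by
    have h3 : (((m + 1 : ℕ) : ℂ) + 1) * c * w0 * (E z - w0) ^ (m + 1) =
        (((m : ℝ) + 2 : ℝ) : ℂ) * (c * w0 * (E z - w0) ^ (m + 1)) := by
      push_cast
      ring
    rw [h3, Complex.re_ofReal_mul]
  have e1' : (Complex.I * ((((m + 1 : ℕ) : ℂ) + 1) * c * w0) * (E z - w0) ^ (m + 1)).re =
      ((m : ℝ) + 2) * -(c * w0 * (E z - w0) ^ (m + 1)).im := by
    have h3 : Complex.I * ((((m + 1 : ℕ) : ℂ) + 1) * c * w0) * (E z - w0) ^ (m + 1) =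
        (((m : ℝ) + 2 : ℝ) : ℂ) * ((c * w0 * (E z - w0) ^ (m + 1)) * Complex.I) := by
      push_cast
      ring
    rw [h3, Complex.re_ofReal_mul, Complex.mul_I_re]
  have e2 : (((m : ℂ) + 1) * ((((m + 1 : ℕ) : ℂ) + 1) * c * w0) * w0 * (E z - w0) ^ m).re =
      ((m : ℝ) + 1) * (((m : ℝ) + 2) * (c * w0 ^ 2 * (E z - w0) ^ m).re) := by
    have h3 : ((m : ℂ) + 1) * ((((m + 1 : ℕ) : ℂ) + 1) * c * w0) * w0 * (E z - w0) ^ m =
        (((m : ℝ) + 1 : ℝ) : ℂ) * ((((m : ℝ) + 2 : ℝ) : ℂ) * (c * w0 ^ 2 * (E z - w0) ^ m)) := by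
      push_cast
      ring
    rw [h3, Complex.re_ofReal_mul, Complex.re_ofReal_mul]
  rw [e1] at a1
  rw [e1'] at a1'
  rw [e2] at a2
  have hG1 : 1 ≤ Vf (Ze l) (E z) := by
    rw [Vf_Ze]
    exact one_le_pow₀ (le_add_of_nonneg_right (by positivity))
  have hy : fn (Dy (Ze l)) z = 0 := by
    rw [Dy_Ze]
    show Vf 0 (E z) = 0
    unfold Vf
    rw [map_zero]
    rfl
  rw [hy, mul_zero, sub_zero]
  exact hcore (E z - w0) ht (fn U z) (fn (Dx U) z) (fn (Dy U) z) (fn (Dx (Dx U)) z) (fn (Ze l) z) (fn (Dx (Ze l)) z)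
    (fn (Dx (Dx (Ze l))) z) ε hε hG1
    ((hMa _ hin).trans ((le_max_left _ _).trans (le_max_right _ _)))
    ((hMb _ hin).trans ((le_max_right _ _).trans (le_max_right _ _))) a0 a1 a1' a2 hz

end Pool.Agent.EVS
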