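import Pool.Agent.EVS.Defs
import Pool.Agent.OVL.Par

/-!
# Project EVS, module Par0: closed curves

The modules `LocE`, `Per`, `Orb`, `Par` of project OVL for the structure `Cyl0` (without differential equation).
-/

set_option autoImplicit false

namespace Pool.Agent.EVS

open Pool.Agent.SHB Pool.Agent.OVL

theorem local_E0 {V : ℂ → ℝ} {f fx fy fxx fxy fyy : ℝ × ℝ → ℝ} (h : Cyl0 V f fx fy fxx fxy fyy)
    {x y : ℝ → ℝ} (hF : Flow fx fy x y) (t0 : ℝ) (hz : f (x t0, y t0) = 0)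
    (hreg : fx (x t0, y t0) ≠ 0 ∨ fy (x t0, y t0) ≠ 0) (δ : ℝ) (hδ : 0 < δ) :
    ∃ O : Set ℂ, IsOpen O ∧ E (x t0, y t0) ∈ O ∧
      ∀ w ∈ O, V w = 0 → ∃ t, |t - t0| < δ ∧ E (x t, y t) = w := by
  obtain ⟨ρ, hρ, H⟩ := flow_local h.toC2 hF t0 hz hreg δ hδ
  obtain ⟨O, hO, hO1, hO2⟩ := E_open (x t0, y t0) ρ hρ
  refine ⟨O, hO, hO1, fun w hw hV => ?_⟩
  obtain ⟨z', h1, h2, h3⟩ := hO2 w hw
  have hf : f z' = 0 := by rw [← h.V_exp, h1, hV]
  obtain ⟨t, ht, hx, hy⟩ := H z' hf h2 h3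
  refine ⟨t, ht, ?_⟩
  rw [hx, hy]
  exact h1

theorem periodic0 {V : ℂ → ℝ} {f fx fy fxx fxy fyy : ℝ × ℝ → ℝ} (h : Cyl0 V f fx fy fxx fxy fyy)
    {x y : ℝ → ℝ} (hF : Flow fx fy x y) (hz : ∀ t, f (x t, y t) = 0)
    (hreg : ∀ t, fx (x t, y t) ≠ 0 ∨ fy (x t, y t) ≠ 0)
    (hK : IsCompact (Set.range (fun t => E (x t, y t)))) :
    ∃ (T : ℝ) (k : ℤ), Loop f fx fy x y T k := by
  obtain ⟨γ, hγ⟩ : ∃ γ : ℝ → ℂ, γ = fun t => E (x t, y t) := ⟨_, rfl⟩
  have hγa : ∀ t, γ t = E (x t, y t) := fun t => by rw [hγ]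
  rw [← hγ] at hK
  have hxc : Continuous x := continuous_iff_continuousAt.2 fun t => (hF.hx t).continuousAt
  have hyc : Continuous y := continuous_iff_continuousAt.2 fun t => (hF.hy t).continuousAt
  have hγc : Continuous γ := by
    rw [hγ]; exact E_continuous.comp (hxc.prodMk hyc)
  have hV : ∀ t, V (γ t) = 0 := fun t => by rw [hγa, h.V_exp, hz]
  -- (1) the curve is not injective
  have h1 : ∃ s t, s ≠ t ∧ γ s = γ t := by
    by_contra hcon
    push Not at hcon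
    have hinj : ∀ s t, γ s = γ t → s = t := by
      intro s t hst
      by_contra hne
      exact hcon s t hne hst
    have hO := fun t0 : ℝ => local_E0 h hF t0 (hz t0) (hreg t0) 1 one_pos
    choose O hOo hOm hOp using hO
    obtain ⟨F, hFc⟩ := hK.elim_finite_subcover O hOo (by
      rintro w ⟨t, rfl⟩
      rw [Set.mem_iUnion]
      exact ⟨t, by rw [hγa]; exact hOm t⟩)
    obtain ⟨M, hM⟩ := F.bddAbove
    have hr := hFc (Set.mem_range_self (M + 2))
    rw [Set.mem_iUnion₂] at hr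
    obtain ⟨i, hiF, hi⟩ := hr
    obtain ⟨t', ht', hte⟩ := hOp i _ hi (hV _)
    have hiM : i ≤ M := hM hiF
    have : t' = M + 2 := hinj _ _ (by rw [← hte, hγa])
    rw [abs_lt] at ht'
    linarith [ht'.2]
  -- (2)
  have h2 : ∀ s d, γ (s + d) = γ s →
      ∃ k : ℤ, (∀ t, x (t + d) = x t) ∧ ∀ t, y (t + d) = y t + 2 * Real.pi * k := by
    intro s d hsd
    rw [hγa, hγa, E_eq_iff] at hsd
    obtain ⟨hx1, n, hy1⟩ := hsd
    simp only at hx1 hy1
    have hsh := flow_shift h.px h.py hF d (-n)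
    have hu := flow_unique h.toC2 hsh hF s hx1 (by
      show y (s + d) + 2 * Real.pi * ((-n : ℤ) : ℝ) = y s
      rw [hy1]; push_cast; ring)
    refine ⟨n, fun t => congrFun hu.1 t, fun t => ?_⟩
    have h3 : y (t + d) + 2 * Real.pi * ((-n : ℤ) : ℝ) = y t := congrFun hu.2 t
    push_cast at h3
    linarith
  have h2' : ∀ s d, γ (s + d) = γ s → ∀ t, γ (t + d) = γ t := by
    intro s d hsd t
    obtain ⟨k, hk1, hk2⟩ := h2 s d hsd
    rw [hγa, hγa, E_eq_iff]
    exact ⟨hk1 t, k, hk2 t⟩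
  -- (3)
  obtain ⟨δ, hδ, hδn⟩ := E_inj_near hF 0 (hreg 0)
  set P : Set ℝ := {d | 0 < d ∧ γ d = γ 0} with hP
  have hPne : P.Nonempty := by
    obtain ⟨s, t, hne, hst⟩ := h1
    have ha : ∀ r, γ (r + (s - t)) = γ r := h2' t (s - t) (by
      rw [add_sub_cancel]; exact hst)
    rcases lt_or_gt_of_ne hne with hlt | hgt
    · refine ⟨t - s, by linarith, ?_⟩
      have := ha (t - s)
      have h0 : t - s + (s - t) = 0 := by ring
      rw [h0] at this
      exact this.symm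
    · refine ⟨s - t, by linarith, ?_⟩
      have := ha 0
      rwa [zero_add] at this
  have hPd : ∀ d ∈ P, δ ≤ d := by
    rintro d ⟨hd0, hd1⟩
    by_contra hlt
    push Not at hlt
    refine hδn d ?_ hd0.ne' ?_
    · rw [sub_zero, abs_of_pos hd0]; exact hlt
    · rw [← hγa, ← hγa]; exact hd1
  have hPb : BddBelow P := ⟨δ, hPd⟩
  set T := sInf P with hT
  have hTδ : δ ≤ T := le_csInf hPne hPd
  have hTpos : 0 < T := lt_of_lt_of_le hδ hTδ
  have hγT : γ T = γ 0 := by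
    have hcl : IsClosed {d : ℝ | γ d = γ 0} := isClosed_eq hγc continuous_const
    have hmem : T ∈ closure P := csInf_mem_closure hPne hPb
    exact hcl.closure_subset_iff.2 (fun d hd => hd.2) hmem
  obtain ⟨k, hk1, hk2⟩ := h2 0 T (by rw [zero_add]; exact hγT)
  have hper : Function.Periodic γ T := h2' 0 T (by rw [zero_add]; exact hγT)
  refine ⟨T, k, { toFlow := hF, T_pos := hTpos, zero := hz, reg := hreg, perx := hk1, pery := hk2, inj := ?_ }⟩
  intro s t hst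
  rw [← hγa, ← hγa] at hst
  have ha : ∀ r, γ (r + (s - t)) = γ r := h2' t (s - t) (by
    rw [add_sub_cancel]; exact hst)
  have hb : γ (s - t) = γ 0 := by
    have := ha 0
    rwa [zero_add] at this
  set n : ℤ := ⌊(s - t) / T⌋ with hn
  have hc : γ (s - t - n * T) = γ 0 := by
    rw [hper.sub_int_mul_eq]; exact hb
  have hfl1 : (n : ℝ) ≤ (s - t) / T := Int.floor_le _
  have hfl2 : (s - t) / T < n + 1 := Int.lt_floor_add_one _
  rw [le_div_iff₀ hTpos] at hfl1
  rw [div_lt_iff₀ hTpos] at hfl2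
  refine ⟨n, ?_⟩
  by_contra hne
  have hpos : 0 < s - t - n * T := by
    rcases lt_or_eq_of_le (by linarith : 0 ≤ s - t - n * T) with h' | h'
    · exact h'
    · exact absurd (by linarith) hne
  have : T ≤ s - t - n * T := csInf_le hPb ⟨hpos, hc⟩
  linarith

theorem orbit_eq0 {V : ℂ → ℝ} {f fx fy fxx fxy fyy : ℝ × ℝ → ℝ} (h : Cyl0 V f fx fy fxx fxy fyy)
    (p : ℂ) (hp : V p = 0)
    (hreg : ∀ z, E z ∈ comp V p → fx z ≠ 0 ∨ fy z ≠ 0)
    {x y : ℝ → ℝ} (hF : Flow fx fy x y) (h0 : E (x 0, y 0) = p) :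
    comp V p = Set.range (fun t => E (x t, y t)) := by
  have hV0 : ∀ {x' y' : ℝ → ℝ}, Flow fx fy x' y' → V (E (x' 0, y' 0)) = 0 →
      ∀ t, f (x' t, y' t) = 0 := by
    intro x' y' hF' h1 t
    rw [flow_const h.toC2 hF' t 0, ← h.V_exp]
    exact h1
  have hcont : ∀ {x' y' : ℝ → ℝ}, Flow fx fy x' y' → Continuous fun t => E (x' t, y' t) := by
    intro x' y' hF'
    have hx : Continuous x' := continuous_iff_continuousAt.2 fun t => (hF'.hx t).continuousAt
    have hy : Continuous y' := continuous_iff_continuousAt.2 fun t => (hF'.hy t).continuousAt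
    exact E_continuous.comp (hx.prodMk hy)
  have hKN : comp V p ⊆ {w | V w = 0} := connectedComponentIn_subset _ _
  have hp0 : V (E (x 0, y 0)) = 0 := by rw [h0]; exact hp
  have hRK : Set.range (fun t => E (x t, y t)) ⊆ comp V p := by
    refine IsPreconnected.subset_connectedComponentIn (isPreconnected_range (hcont hF))
      ⟨0, h0⟩ ?_
    rintro _ ⟨t, rfl⟩
    change V (E (x t, y t)) = 0
    rw [h.V_exp]
    exact hV0 hF hp0 t
  refine Set.Subset.antisymm ?_ hRK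
  set R : Set ℂ := Set.range (fun t => E (x t, y t)) with hR
  let U1 : Set ℂ := ⋃₀ {O | IsOpen O ∧ ∀ w ∈ O, V w = 0 → w ∈ R}
  let U2 : Set ℂ := ⋃₀ {O | IsOpen O ∧ ∀ w ∈ O, V w = 0 → w ∉ R}
  have hU1 : IsOpen U1 := isOpen_sUnion fun O hO => hO.1
  have hU2 : IsOpen U2 := isOpen_sUnion fun O hO => hO.1
  have hR1 : R ⊆ U1 := by
    rintro _ ⟨t, rfl⟩
    obtain ⟨O, hO, hm, hw⟩ := local_E0 h hF t (hV0 hF hp0 t) (hreg _ (hRK ⟨t, rfl⟩)) 1 one_pos
    refine ⟨O, ⟨hO, fun w hwO hwV => ?_⟩, hm⟩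
    obtain ⟨s, -, hs⟩ := hw w hwO hwV
    exact ⟨s, hs⟩
  have hcover : comp V p ⊆ U1 ∪ U2 := by
    intro q hq
    by_cases hqR : q ∈ R
    · exact Or.inl (hR1 hqR)
    · right
      have hq0 : q ≠ 0 := by
        rintro rfl
        exact h.V_zero (hKN hq)
      obtain ⟨z, rfl⟩ := E_surj q hq0
      obtain ⟨x', y', hF', hx0, hy0⟩ := exists_flow h.toC2 z
      have hz : (x' 0, y' 0) = z := by rw [hx0, hy0]
      have hVz : V (E (x' 0, y' 0)) = 0 := by rw [hz]; exact hKN hq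
      obtain ⟨O, hO, hm, hw⟩ := local_E0 h hF' 0 (hV0 hF' hVz 0)
        (hreg _ (by rw [hz]; exact hq)) 1 one_pos
      rw [hz] at hm
      refine ⟨O, ⟨hO, fun w hwO hwV hwR => hqR ?_⟩, hm⟩
      obtain ⟨t, -, ht⟩ := hw w hwO hwV
      obtain ⟨s, hs⟩ := hwR
      have h1 : E (x' t, y' t) = E (x s, y s) := by rw [ht, ← hs]
      obtain ⟨h2, n, h3⟩ := (E_eq_iff _ _).1 h1
      have hF1 := flow_shift h.px h.py hF (s - t) n
      obtain ⟨h4, h5⟩ := flow_unique h.toC2 hF' hF1 t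
        (by simpa using h2) (by simpa using h3)
      refine ⟨s - t, ?_⟩
      rw [← hz]
      refine (E_eq_iff _ _).2 ⟨?_, -n, ?_⟩
      · rw [h4]
        simp
      · rw [h5]
        push_cast
        simp only [zero_add]
        ring
  have hpre : IsPreconnected (comp V p) := isPreconnected_connectedComponentIn
  have hpK : p ∈ comp V p := mem_connectedComponentIn hp
  have hdisj : ¬ (comp V p ∩ U2).Nonempty := by
    intro hne
    obtain ⟨w, hwK, ⟨O1, hO1, hw1⟩, ⟨O2, hO2, hw2⟩⟩ := hpre U1 U2 hU1 hU2 hcover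
      ⟨p, hpK, hR1 ⟨0, h0⟩⟩ hne
    exact hO2.2 w hw2 (hKN hwK) (hO1.2 w hw1 (hKN hwK))
  intro q hq
  rcases hcover hq with ⟨O, hO, hqO⟩ | h2
  · exact hO.2 q hqO (hKN hq)
  · exact absurd ⟨q, hq, h2⟩ hdisj

theorem param0 {V : ℂ → ℝ} {f fx fy fxx fxy fyy : ℝ × ℝ → ℝ} (h : Cyl0 V f fx fy fxx fxy fyy)
    (p : ℂ) (hp : V p = 0)
    (hreg : ∀ z, E z ∈ comp V p → fx z ≠ 0 ∨ fy z ≠ 0) :
    ∃ (x y : ℝ → ℝ) (T : ℝ) (k : ℤ), Loop f fx fy x y T k ∧
      comp V p = Set.range (fun t => E (x t, y t)) := by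
  have hp0 : p ≠ 0 := by
    rintro rfl
    exact h.V_zero hp
  obtain ⟨z, hz⟩ := E_surj p hp0
  obtain ⟨x, y, hF, hx0, hy0⟩ := exists_flow h.toC2 z
  have h0 : E (x 0, y 0) = p := by
    rw [hx0, hy0]
    exact hz
  have horb := orbit_eq0 h p hp hreg hF h0
  have hmem : ∀ t, E (x t, y t) ∈ comp V p := fun t => by
    rw [horb]
    exact ⟨t, rfl⟩
  have hsub : comp V p ⊆ {w | V w = 0} := connectedComponentIn_subset _ _
  have hzero : ∀ t, f (x t, y t) = 0 := fun t => by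
    rw [← h.V_exp]
    exact hsub (hmem t)
  have hcN : IsClosed {w : ℂ | V w = 0} := isClosed_eq h.V_cont continuous_const
  have hcl : IsClosed (comp V p) := by
    refine isClosed_of_closure_subset ?_
    refine IsPreconnected.subset_connectedComponentIn
      (isPreconnected_connectedComponentIn.closure) ?_ ?_
    · exact subset_closure (mem_connectedComponentIn hp)
    · exact closure_minimal hsub hcN
  have hbd : Bornology.IsBounded (comp V p) := by
    obtain ⟨R, hR⟩ := h.bdd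
    refine (Metric.isBounded_iff_subset_closedBall (0 : ℂ)).2 ⟨Real.exp R, ?_⟩
    intro w hw
    rw [horb] at hw
    obtain ⟨t, rfl⟩ := hw
    have hn : ‖E (x t, y t)‖ = Real.exp (x t) := by
      unfold E
      rw [Complex.norm_exp]
      simp
    simp only [mem_closedBall_zero_iff]
    rw [hn]
    exact Real.exp_le_exp.2 ((le_abs_self _).trans (hR _ (hzero t)))
  have hK : IsCompact (comp V p) := Metric.isCompact_of_isClosed_isBounded hcl hbd
  have hreg' : ∀ t, fx (x t, y t) ≠ 0 ∨ fy (x t, y t) ≠ 0 := fun t => hreg _ (hmem t)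
  have hK' : IsCompact (Set.range (fun t => E (x t, y t))) := by
    rw [← horb]
    exact hK
  obtain ⟨T, k, hL⟩ := periodic0 h hF hzero hreg' hK'
  exact ⟨x, y, T, k, hL, horb⟩

end Pool.Agent.EVS
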