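import Pool.Agent.EVS.PlaneW
import Pool.Agent.EVS.Far
import Pool.Agent.EVS.LocA
import Pool.Agent.EVS.Glob

/-!
# Project EVS, module PlaneE: the level sets in the plane
-/

set_option autoImplicit false

namespace Pool.Agent.EVS

open MvPolynomial Pool.Agent.SHB Pool.Agent.OVL

theorem planeE {l : ℕ} {U : P2} (hU : Spin l U) (hl : 1 ≤ l) (hR : RealP U)
    (h0 : coeff (ex 0 0) U ≠ 0) (h1 : coeff (ex 1 0) U ≠ 0)
    (hG : ∀ w : ℂ, Vf U w = 0 → eval ![w, (starRingEnd ℂ) w] (pderiv 0 U) = 0 → GenAt U w) :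
    ∃ ε2 : ℝ, 0 < ε2 ∧ ∀ ε : ℝ, 0 < ε → ε < ε2 → Finite (Cc (Vf (Ue l U ε))) ∧
      Nat.card (Cc (Vf (Ue l U ε))) ≤ l * (l + 1) / 2 + 1 := by
  obtain ⟨R, ε1, hε1, hfar⟩ := far hU hR h0
  obtain ⟨ε3, hε3, hadm⟩ := adm_Ue hU hR h0 h1
  obtain ⟨ε2, hε2, hglob⟩ := glob (fn_per U) (fn_per (Dx U)) (fn_per (Dy U))
    (fn_per (Dy (Dy U))) (fn_per (Ze l)) (fn_per (Dx (Ze l))) (fn_per (Dy (Ze l)))
    (fn_per (Dy (Dy (Ze l)))) (fun z0 => (locA hU hl hR h0 h1 hG z0).1)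
    (fun z0 => (locA hU hl hR h0 h1 hG z0).2) R ε1 hε1 hfar
  refine ⟨min ε1 (min ε2 ε3), lt_min hε1 (lt_min hε2 hε3), ?_⟩
  intro ε hε hlt
  obtain ⟨e1, e23⟩ := lt_min_iff.1 hlt
  obtain ⟨e2, e3⟩ := lt_min_iff.1 e23
  have hf : fn (Ue l U ε) = fun z => fn U z - ε * fn (Ze l) z := fn_lin U (Ze l) ε
  have hfx : fn (Dx (Ue l U ε)) = fun z => fn (Dx U) z - ε * fn (Dx (Ze l)) z := by
    rw [Ue, Dx_lin, fn_lin]
  have hfy : fn (Dy (Ue l U ε)) = fun z => fn (Dy U) z - ε * fn (Dy (Ze l)) z := by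
    rw [Ue, Dy_lin, fn_lin]
  have hfyy : fn (Dy (Dy (Ue l U ε))) =
      fun z => fn (Dy (Dy U)) z - ε * fn (Dy (Dy (Ze l))) z := by
    rw [Ue, Dy_lin, Dy_lin, fn_lin]
  obtain ⟨g1, g2⟩ := hglob ε hε e2
  refine planeW (hadm ε hε e3) R ?_ ?_ ?_
  · intro z hz
    rw [hf] at hz
    exact hfar ε hε e1 z hz
  · intro z hz
    rw [hf] at hz
    rw [hfx, hfy]
    exact g1 z hz
  · rw [hf, hfx, hfy, hfyy]
    exact g2

end Pool.Agent.EVS
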