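import Pool.Agent.EVS.Defs
import Pool.Agent.OVL.Two

/-!
# Project EVS, module Two0: two opposite signs of `f_yy` on a nodal curve around the axis

The module `Two` of project OVL for the structure `Cyl0` (without differential equation).
-/

set_option autoImplicit false

namespace Pool.Agent.EVS

open Pool.Agent.SHB Pool.Agent.OVL

private theorem shiftZ {g : ℝ → ℝ} {T c : ℝ} (h : ∀ t, g (t + T) = g t + c) (t : ℝ) (n : ℤ) :
    g (t + n * T) = g t + n * c := by
  induction n using Int.induction_on with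
  | zero => simp
  | succ n ih =>
    have h1 := h (t + (n : ℤ) * T)
    rw [ih] at h1
    have e : t + ((n : ℤ) * T : ℝ) + T = t + (((n : ℤ) + 1 : ℤ) : ℝ) * T := by push_cast; ring
    rw [e] at h1
    rw [h1]
    push_cast
    ring
  | pred n ih =>
    have h1 := h (t + ((-(n : ℤ) - 1 : ℤ) : ℝ) * T)
    have e : t + ((-(n : ℤ) - 1 : ℤ) : ℝ) * T + T = t + ((-(n : ℤ) : ℤ) : ℝ) * T := by
      push_cast; ring
    rw [e, ih] at h1
    have h2 : ((-(n : ℤ) - 1 : ℤ) : ℝ) * c = ((-(n : ℤ) : ℤ) : ℝ) * c - c := by push_cast; ring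
    rw [h2]
    linarith

private theorem mu_pos0 (fx fy : ℝ × ℝ → ℝ) (z : ℝ × ℝ) : 0 < mu fx fy z := by
  unfold mu
  positivity

private theorem loop_contx {f fx fy : ℝ × ℝ → ℝ} {x y : ℝ → ℝ} {T : ℝ} {k : ℤ}
    (hl : Loop f fx fy x y T k) : Continuous x :=
  continuous_iff_continuousAt.2 fun t => (hl.hx t).continuousAt

private theorem loop_conty {f fx fy : ℝ × ℝ → ℝ} {x y : ℝ → ℝ} {T : ℝ} {k : ℤ}
    (hl : Loop f fx fy x y T k) : Continuous y :=
  continuous_iff_continuousAt.2 fun t => (hl.hy t).continuousAt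

private theorem cc_ne {k : ℤ} (hk : k ≠ 0) : (2 * Real.pi * k : ℝ) ≠ 0 :=
  mul_ne_zero (by positivity) (by exact_mod_cast hk)

private theorem y_surj {f fx fy : ℝ × ℝ → ℝ} {x y : ℝ → ℝ} {T : ℝ} {k : ℤ} (hk : k ≠ 0)
    (hl : Loop f fx fy x y T k) (v : ℝ) : ∃ t, y t = v := by
  have hc := cc_ne hk
  have hsh := shiftZ hl.pery 0
  have key : ∀ w : ℝ, ∃ n : ℤ, w ≤ y 0 + n * (2 * Real.pi * k) := by
    intro w
    rcases lt_or_gt_of_ne hc with hneg | hpos
    · obtain ⟨m, hm⟩ := exists_int_lt ((w - y 0) / (2 * Real.pi * k))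
      refine ⟨m, ?_⟩
      have := (lt_div_iff_of_neg hneg).1 hm
      linarith
    · obtain ⟨m, hm⟩ := exists_int_gt ((w - y 0) / (2 * Real.pi * k))
      refine ⟨m, ?_⟩
      have := (div_lt_iff₀ hpos).1 hm
      linarith
  have key2 : ∀ w : ℝ, ∃ n : ℤ, y 0 + n * (2 * Real.pi * k) ≤ w := by
    intro w
    obtain ⟨n, hn⟩ := key (2 * y 0 - w)
    refine ⟨-n, ?_⟩
    push_cast
    linarith
  have hr : v ∈ Set.range y := by
    apply mem_range_of_exists_le_of_exists_ge (loop_conty hl)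
    · obtain ⟨n, hn⟩ := key2 v
      exact ⟨0 + n * T, by rw [hsh n]; exact hn⟩
    · obtain ⟨n, hn⟩ := key v
      exact ⟨0 + n * T, by rw [hsh n]; exact hn⟩
  exact hr

private theorem loop_LC {V : ℂ → ℝ} {f fx fy fxx fxy fyy : ℝ × ℝ → ℝ}
    (h : Cyl0 V f fx fy fxx fxy fyy) {x y : ℝ → ℝ} {T : ℝ} {k : ℤ} (hk : k ≠ 0)
    (hl : Loop f fx fy x y T k) :
    LC x y (fun t => -(mu fx fy (x t, y t) * fy (x t, y t)))
      (fun t => mu fx fy (x t, y t) * fx (x t, y t)) T (2 * Real.pi * k) := by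
  have cfx : Continuous fx := continuous_iff_continuousAt.2 fun z => (h.dx z).continuousAt
  have cfy : Continuous fy := continuous_iff_continuousAt.2 fun z => (h.dy z).continuousAt
  have cΓ : Continuous fun t => (x t, y t) := (loop_contx hl).prodMk (loop_conty hl)
  have cmu : Continuous (mu fx fy) := by
    unfold mu
    refine continuous_const.div (by fun_prop) ?_
    intro z
    positivity
  refine ⟨hl.T_pos, cc_ne hk, hl.hx, hl.hy, ?_, ?_, hl.perx, hl.pery, ?_, ?_⟩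
  · exact ((cmu.comp cΓ).mul (cfy.comp cΓ)).neg
  · exact (cmu.comp cΓ).mul (cfx.comp cΓ)
  · intro t
    have hm := (mu_pos0 fx fy (x t, y t)).ne'
    rcases hl.reg t with h1 | h1
    · right
      exact mul_ne_zero hm h1
    · left
      exact neg_ne_zero.2 (mul_ne_zero hm h1)
  · intro s t hx hy
    obtain ⟨n, hn⟩ := hl.inj s t (by rw [hx, hy])
    have h1 : s = t + n * T := by linarith
    have h2 := shiftZ hl.pery t n
    rw [← h1, hy] at h2
    have h3 : (n : ℝ) * (2 * Real.pi * k) = 0 := by linarith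
    have h4 : (n : ℝ) = 0 := (mul_eq_zero.1 h3).resolve_right (cc_ne hk)
    rw [h1, h4]
    ring

theorem two0 {V : ℂ → ℝ} {f fx fy fxx fxy fyy : ℝ × ℝ → ℝ} (h : Cyl0 V f fx fy fxx fxy fyy)
    {x y : ℝ → ℝ} {T : ℝ} {k : ℤ} (hk : k ≠ 0) (hl : Loop f fx fy x y T k) :
    ∃ t0 t1 σ : ℝ, t0 < t1 ∧ t1 < t0 + T ∧
      0 < σ * fyy (x t0, y t0) ∧ σ * fyy (x t1, y t1) < 0 := by
  have hT := hl.T_pos
  have hper : Function.Periodic x T := hl.perx
  have cx := loop_contx hl
  have hcomp : IsCompact (Set.Icc (0 : ℝ) T) := isCompact_Icc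
  have hne : (Set.Icc (0 : ℝ) T).Nonempty := ⟨0, le_refl _, hT.le⟩
  obtain ⟨n, -, hn⟩ := hcomp.exists_isMinOn hne cx.continuousOn
  obtain ⟨s', -, hs'⟩ := hcomp.exists_isMaxOn hne cx.continuousOn
  have hnmin : ∀ t, x n ≤ x t := by
    intro t
    obtain ⟨u, hu, hut⟩ := hper.exists_mem_Ico₀ hT t
    rw [hut]
    exact hn ⟨hu.1, hu.2.le⟩
  have hsmax' : ∀ t, x t ≤ x s' := by
    intro t
    obtain ⟨u, hu, hut⟩ := hper.exists_mem_Ico₀ hT t
    rw [hut]
    exact hs' ⟨hu.1, hu.2.le⟩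
  obtain ⟨s, hs, hss⟩ := hper.exists_mem_Ico hT s' n
  have hsmax : ∀ t, x t ≤ x s := by
    intro t
    rw [← hss]
    exact hsmax' t
  have hsn : s ≠ n := by
    rintro rfl
    have hconst : ∀ t, x t = x s := fun t => le_antisymm (hsmax t) (hnmin t)
    obtain ⟨v, -, hv⟩ := h.arc 0 1 (x s) one_pos
    obtain ⟨t, ht⟩ := y_surj hk hl v
    apply hv
    rw [← ht, ← hconst t]
    exact hl.zero t
  have hns : n < s := lt_of_le_of_ne hs.1 hsn.symm
  have hsT : s < n + T := hs.2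
  have hLC := loop_LC h hk hl
  have h1 := hLC.sense n hnmin
  have h2 := hLC.sense_right s hsmax
  set N := fx (x n, y n) with hN
  set S := fx (x s, y s) with hS
  have hmn := mu_pos0 fx fy (x n, y n)
  have hms := mu_pos0 fx fy (x s, y s)
  have hNS : 0 < N * S := by
    have h3 := mul_pos h1 h2
    have h4 : mu fx fy (x n, y n) * N * (2 * Real.pi * k) *
        (mu fx fy (x s, y s) * S * (2 * Real.pi * k)) =
        (N * S) * (mu fx fy (x n, y n) * mu fx fy (x s, y s) * (2 * Real.pi * k) ^ 2) := by ring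
    rw [h4] at h3
    refine (pos_iff_pos_of_mul_pos h3).2 ?_
    have h5 : 0 < (2 * Real.pi * k : ℝ) ^ 2 := by
      have := cc_ne hk
      positivity
    positivity
  obtain ⟨η, hη, hη1, hη2⟩ : ∃ η : ℝ, 0 < η ∧ η ≤ (s - n) / 4 ∧ η ≤ (n + T - s) / 4 :=
    ⟨min ((s - n) / 4) ((n + T - s) / 4), lt_min (by linarith) (by linarith),
      min_le_left _ _, min_le_right _ _⟩
  obtain ⟨a, ha1, ha2⟩ := nearX h.toC2 hl.toFlow hl.zero hl.reg h.arc 1 (Or.inl rfl) n
    (by intro t; simpa using hnmin t) η hη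
  obtain ⟨b, hb1, hb2⟩ := nearX h.toC2 hl.toFlow hl.zero hl.reg h.arc (-1) (Or.inr rfl) s
    (by intro t; simpa using hsmax t) η hη
  rw [abs_lt] at ha1 hb1
  refine ⟨a, b, -N, by linarith, by linarith, ?_, ?_⟩
  · rw [← hN] at ha2
    linarith
  · rw [← hS] at hb2
    have h6 : 0 < S * fyy (x b, y b) := by linarith
    have h7 : 0 < (N * fyy (x b, y b)) * S ^ 2 := by
      have := mul_pos hNS h6
      calc 0 < N * S * (S * fyy (x b, y b)) := this
        _ = _ := by ring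
    have h8 : 0 < N * fyy (x b, y b) := by
      by_contra hcon
      push Not at hcon
      have := mul_nonpos_of_nonpos_of_nonneg hcon (sq_nonneg S)
      linarith
    linarith

end Pool.Agent.EVS
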