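import Pool.Agent.EVS.Four0
import Pool.Agent.EVS.Two0
import Pool.Agent.EVS.Par0
import Pool.Agent.EVS.CylW
import Pool.Agent.EVS.FinC

/-!
# Project EVS, module PlaneW: the components of `{W ≠ 0}` in the plane

As `Pool/Agent/OVL/Plane.lean`, with `W` for `U`, all zeros regular: every component of the zero set is a closed curve (`param0`) with
four robust zeros of `∂_φ ∂_φ W` (`four0`), or with two if it separates the poles (`two0`); `count` bounds the number of these curves,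
`graph_count` the number of components of the complement, which is finite by `finC`.
-/

set_option autoImplicit false

namespace Pool.Agent.EVS

open MvPolynomial Pool.Agent.SHB Pool.Agent.OVL

private theorem PlaneW_zero (V : ℂ → ℝ) (p q : ℂ) (h : q ∈ comp V p) : V q = 0 := by
  have h2 : q ∈ {w | V w = 0} := connectedComponentIn_subset {w | V w = 0} p h
  exact h2

private theorem PlaneW_curve {l : ℕ} {W : P2} (h : Adm l W) (R : ℝ) (hR : ∀ z, fn W z = 0 → |z.1| ≤ R)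
    (hreg : ∀ z, fn W z = 0 → fn (Dx W) z ≠ 0 ∨ fn (Dy W) z ≠ 0)
    (hY : YP (fn W) (fn (Dx W)) (fn (Dy W)) (fn (Dy (Dy W)))) (p : ℂ) (hp : Vf W p = 0) :
    Rob 4 (comp (Vf W) p) (Vf (Dy (Dy W))) ∨
      (Rob 2 (comp (Vf W) p) (Vf (Dy (Dy W))) ∧ (∃ t : ℝ, 0 < t ∧ (t : ℂ) ∈ comp (Vf W) p) ∧
        (∃ t : ℝ, t < 0 ∧ (t : ℂ) ∈ comp (Vf W) p)) := by
  have hC := cylW h R hR
  obtain ⟨x, y, T, k, hL, hc⟩ := param0 hC p hp (fun z hz => hreg z (PlaneW_zero (Vf W) p (E z) hz))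
  rw [hc]
  by_cases hk : k = 0
  · subst hk
    left
    obtain ⟨t0, t1, t2, t3, σ, a1, a2, a3, a4, b0, b1, b2, b3⟩ := four0 hC hY hL
    exact rob4 hL _ (Vf_cont _) (fun _ => rfl) t0 t1 t2 t3 σ a1 a2 a3 a4 b0 b1 b2 b3
  · right
    obtain ⟨t0, t1, σ, a1, a2, b0, b1⟩ := two0 hC hk hL
    exact ⟨rob2 hL _ (Vf_cont _) (fun _ => rfl) t0 t1 σ a1 a2 b0 b1, rays hk hL⟩

private theorem PlaneW_card {l : ℕ} {W : P2} (h : Adm l W) (R : ℝ) (hR : ∀ z, fn W z = 0 → |z.1| ≤ R)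
    (hreg : ∀ z, fn W z = 0 → fn (Dx W) z ≠ 0 ∨ fn (Dy W) z ≠ 0)
    (hY : YP (fn W) (fn (Dx W)) (fn (Dy W)) (fn (Dy (Dy W)))) (𝒦 : Finset (Set ℂ))
    (h𝒦 : ∀ K ∈ 𝒦, ∃ p, Vf W p = 0 ∧ K = comp (Vf W) p) : 2 * 𝒦.card ≤ l * (l + 1) := by
  refine count l (Vf W) (Vf (Dy W)) (Vf (Dy (Dy W))) (Vf_cont _) 𝒦 ?_ ?_ ?_ (fun ε0 hε => pertW h ε0 hε) ?_
  · intro K hK K' hK' hne
    obtain ⟨p, -, rfl⟩ := h𝒦 K hK
    obtain ⟨p', -, rfl⟩ := h𝒦 K' hK'
    rw [Set.disjoint_left]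
    intro q hq hq'
    exact hne ((connectedComponentIn_eq hq).trans (connectedComponentIn_eq hq').symm)
  · intro K hK w hw
    obtain ⟨p, -, rfl⟩ := h𝒦 K hK
    exact PlaneW_zero _ _ _ hw
  · intro K hK
    obtain ⟨p, hp, rfl⟩ := h𝒦 K hK
    exact PlaneW_curve h R hR hreg hY p hp
  · intro S hS
    refine line_cardW h 1 S ?_
    intro t ht
    rw [mul_one]
    exact hS t ht

theorem planeW {l : ℕ} {W : P2} (h : Adm l W) (R : ℝ) (hR : ∀ z, fn W z = 0 → |z.1| ≤ R)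
    (hreg : ∀ z, fn W z = 0 → fn (Dx W) z ≠ 0 ∨ fn (Dy W) z ≠ 0)
    (hY : YP (fn W) (fn (Dx W)) (fn (Dy W)) (fn (Dy (Dy W)))) :
    Finite (Cc (Vf W)) ∧ Nat.card (Cc (Vf W)) ≤ l * (l + 1) / 2 + 1 := by
  classical
  have hC := cylW h R hR
  have hsurj : ∀ q, Vf W q = 0 → ∃ z, E z = q := by
    intro q hq
    refine E_surj q ?_
    rintro rfl
    exact hC.V_zero hq
  have good : ∀ q, Vf W q = 0 → Good (Vf W) q := by
    intro q hq
    obtain ⟨z, rfl⟩ := hsurj q hq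
    obtain ⟨L, hL0, hL⟩ := vf_strict W h.real (E z) ((reg_iff W h.real z).1 (hreg z hq))
    exact good_of_strict (Vf W) (Vf_cont W) (E z) hq L hL0 hL
  have hfin : Finite (Cc (Vf W)) := by
    refine finC (Vf W) (Vf_cont W) (Real.exp R) ?_ good
    intro w hw
    obtain ⟨z, rfl⟩ := hsurj w hw
    have hn : ‖E z‖ = Real.exp z.1 := by
      unfold E
      rw [Complex.norm_exp]
      simp
    rw [hn]
    exact Real.exp_le_exp.2 ((le_abs_self _).trans (hR z hw))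
  refine ⟨hfin, ?_⟩
  set 𝒞 : Set (Set ℂ) := {K | ∃ p, Vf W p = 0 ∧ K = comp (Vf W) p} with h𝒞
  have hCfin : 𝒞.Finite := by
    by_contra hinf
    obtain ⟨t, ht, hc⟩ := Set.Infinite.exists_subset_card_eq hinf (l * (l + 1) + 1)
    have := PlaneW_card h R hR hreg hY t (fun K hK => ht hK)
    omega
  have hcard := PlaneW_card h R hR hreg hY hCfin.toFinset (fun K hK => hCfin.mem_toFinset.1 hK)
  have hmain : (Set.univ : Set (Cc (Vf W))).ncard ≤ hCfin.toFinset.card + 1 := by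
    refine graph_count (Vf W) (Vf_cont W) hfin hCfin.toFinset ?_ _ ?_
    · intro K hK
      obtain ⟨p, hp, rfl⟩ := hCfin.mem_toFinset.1 hK
      refine ⟨isPreconnected_connectedComponentIn, ⟨p, mem_connectedComponentIn hp⟩, ?_⟩
      intro q hq
      have hq0 : Vf W q = 0 := PlaneW_zero _ _ _ hq
      exact ⟨hq0, good q hq0⟩
    · intro D _ w _ hw0
      refine ⟨comp (Vf W) w, ?_, mem_connectedComponentIn hw0⟩
      rw [hCfin.mem_toFinset]
      exact ⟨w, hw0, rfl⟩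
  rw [Set.ncard_univ] at hmain
  omega

end Pool.Agent.EVS
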