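import Pool.Agent.EVS.Gr3

/-!
# Project EVS, module Sing: finitely many singular points on the sphere

PLAN. Take `a` from `exists_generic u l hl hu (spin_UU (cx u) l (cx_homog hu) (cx_harm harm) 0 0) h0 ∅` (as in `Pool/Agent/OVL/Fin.lean`), `U = UU (cx u) a (conj a)`, `Spin l U`, `real_UU u a`. A singular point `x ∈ Sph` has `eval x u = 0` (Euler: `hu.sum_X_mul_pderiv`, `l ≥ 1`). By `stereo a x` either `sphV a w = t • x` with `t > 0`, so
`x = gg a w` (`gg_of_pos`), or `sphV a 0 = t • x`, `t < 0`: then `eval (sphV a 0) u = t^l eval x u = 0` but `Vf U 0 = Re (coeff (ex 0 0) U) ≠ 0` (`Vf_UU`; the coefficient is real by `real_UU`), contradiction. So the set is contained in `gg a '' {w | Vf U w = 0 ∧ Vf (Dy U) w = 0}` (`Vf_gg`, `grad_conv`, `Dy U = C I * (X 0 * pderiv 0 U - X 1 * pderiv 1 U)`), and this set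
of `w` is finite: every finset in it has at most `2 l^2` elements (`zeros_card` with `W = Dy U`, `relprime_Dy`, `deg_Dy`, `realP_Dy`; `Set.Infinite.exists_subset_card_eq`).
-/

set_option autoImplicit false

namespace Pool.Agent.EVS

open MvPolynomial Pool.Agent.SHB Pool.Agent.OVL

theorem sing_finite (u : MvPolynomial (Fin 3) ℝ) (l : ℕ) (hl : 1 ≤ l) (hu : u.IsHomogeneous l)
    (harm : ∑ i : Fin 3, pderiv i (pderiv i u) = 0) (h0 : u ≠ 0) :
    {x : Fin 3 → ℝ | x ∈ Sph ∧ ∀ i : Fin 3, eval x (pderiv i u) = 0}.Finite := by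
  obtain ⟨a, -, hc0, hc1, -⟩ := exists_generic u l hl hu
    (spin_UU (cx u) l (cx_homog hu) (cx_harm harm) 0 0) h0 ∅
  have hsp : Spin l (UU (cx u) a ((starRingEnd ℂ) a)) :=
    spin_UU (cx u) l (cx_homog hu) (cx_harm harm) a _
  have hR := real_UU u a
  have hfin : {w : ℂ | Vf (UU (cx u) a ((starRingEnd ℂ) a)) w = 0 ∧
      Vf (Dy (UU (cx u) a ((starRingEnd ℂ) a))) w = 0}.Finite := by
    by_contra hinf
    obtain ⟨S, hS, hcard⟩ := Set.Infinite.exists_subset_card_eq hinf (2 * l ^ 2 + 1)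
    have h1 := zeros_card hsp hR hc0 (Dy (UU (cx u) a ((starRingEnd ℂ) a))) (deg_Dy hsp.deg0 hsp.deg1).1
      (deg_Dy hsp.deg0 hsp.deg1).2 (realP_Dy hR) (relprime_Dy hsp hl hR hc0 hc1) S
      (fun w hw => hS hw)
    omega
  refine (hfin.image (gg a)).subset ?_
  rintro x ⟨hx, hgr⟩
  have hxu : eval x u = 0 := by
    have h1 := congrArg (eval x) hu.sum_X_mul_pderiv
    rw [map_sum, map_nsmul, Finset.sum_eq_zero (fun i _ => by rw [map_mul, hgr i, mul_zero])] at h1
    rw [nsmul_eq_mul] at h1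
    rcases mul_eq_zero.1 h1.symm with h2 | h2
    · have h3 : l = 0 := by exact_mod_cast h2
      omega
    · exact h2
  rcases stereo a x hx with ⟨w, t, ht, hw⟩ | ⟨t, ht, hw⟩
  · have hgw := gg_of_pos a w x hx t ht hw
    refine ⟨w, ⟨?_, ?_⟩, hgw⟩
    · rw [Vf_gg u l hu, hgw, hxu, mul_zero]
    · have hk := grad_conv u l hu a w (by rw [hgw]; exact hgr)
      have h1 : eval ![w, (starRingEnd ℂ) w] (Dy (UU (cx u) a ((starRingEnd ℂ) a))) = 0 := by
        unfold Dy rotW
        rw [map_mul, map_sub, map_mul, map_mul, hk 0, hk 1, mul_zero, mul_zero, sub_zero, mul_zero]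
      unfold Vf
      rw [h1, Complex.zero_re]
  · exfalso
    have h1 : Vf (UU (cx u) a ((starRingEnd ℂ) a)) 0 = 0 := by
      rw [Vf_UU, hw, eval_smul_hom hu, hxu, mul_zero]
    have h3 := hR 0 0
    unfold Vf at h1
    rw [← coeff00] at h1
    refine hc0 ?_
    rw [Complex.conj_eq_iff_im] at h3
    exact Complex.ext h1 h3

end Pool.Agent.EVS
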